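import Pool.Agent.W215.MH.Lin
import Pool.Agent.W933.MH.Sum
import Pool.Agent.W505.MH.Diff
import Pool.Agent.W505.MH.BT
import Pool.Agent.W74.MH.B0
import Pool.Agent.W440.MH.B2
import Pool.Agent.W639.MH.Alg
import Pool.Agent.W215.MH.Eul
import Pool.Agent.W193.MH.Cls
import Pool.Agent.W701.MH.Abs
import Pool.Agent.W803.MH.Tail
import Pool.Agent.W333.MH.FL
import Pool.Agent.H262R3.Lk.SWQ
import Pool.Agent.Y835.SC.Page

/-!
Primes in residue classes: the lower bound if no real character is exceptional, and uniqueness of the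
exceptional character.  Copy of `Pool.Agent.Y835.SC.LinP` with the threshold at most `1/2`.
-/

set_option autoImplicit false

open Finset

namespace Pool.Agent.Y353.PS

open Pool.Agent.H262R3.Lk Pool.Agent.W69.MH Pool.Agent.W215.MH

theorem linP (hSUM : St_SUM) (hDIFF : St_DIFF) (hA0 : St_A0) (hB0 : St_B0) (hB2 : St_B2)
    (hALG : St_ALG) (hEUL : St_EUL) (hCLS : St_CLS) (hABS : St_ABS) :
    ∃ A c lam : ℝ, 1 ≤ A ∧ 0 < c ∧ 0 < lam ∧ lam ≤ 1 / 2 ∧ ∃ z0 : ℕ, ∀ (z q : ℕ) [NeZero q], z0 ≤ z →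
    q ^ 8 ≤ z →
    (∀ b : ℕ, b.Coprime q → (∀ χ : DirichletCharacter ℂ q, χ ≠ 1 → χ ^ 2 = 1 →
      lam ≤ ‖Lj z χ 0 (1 / (A * Real.log z))‖) →
      c * (Real.log z) ^ 3 / q.totient ≤ Bj z q b 2 (1 / (A * Real.log z))) ∧
    ∀ χ ψ : DirichletCharacter ℂ q, χ ^ 2 = 1 → ψ ^ 2 = 1 → χ * ψ ≠ 1 →
      lam ≤ ‖Lj z χ 0 (1 / (A * Real.log z))‖ ∨ lam ≤ ‖Lj z ψ 0 (1 / (A * Real.log z))‖ := by
  obtain ⟨C1, hC1, hD⟩ := hDIFF
  obtain ⟨C2, hC2, hA⟩ := hA0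
  obtain ⟨C3, hC3, hB⟩ := hB0
  obtain ⟨c4, c0, hc4, hc0, hc01, hB2'⟩ := hB2
  obtain ⟨C, hC⟩ : ∃ C : ℝ, C = C1 + C2 + C3 + 1 := ⟨_, rfl⟩
  have hCC1 : C1 ≤ C := by linarith
  have hCC2 : C2 ≤ C := by linarith
  have hCC3 : C3 ≤ C := by linarith
  have hC0 : 1 ≤ C := by linarith
  obtain ⟨D, hDdef⟩ : ∃ D : ℝ, D = 48 * C ^ 6 / c4 + 1 / c0 + 1 := ⟨_, rfl⟩
  have hD1' : 1 < D := by
    have h1 : 0 < 48 * C ^ 6 / c4 := by positivity
    have h2 : 0 < 1 / c0 := by positivity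
    linarith
  have hD1 : 1 ≤ D := by
    have : 0 ≤ 48 * C ^ 6 / c4 := by positivity
    have : 0 ≤ 1 / c0 := by positivity
    linarith
  have hDc0 : 1 / c0 ≤ D := by
    have : 0 ≤ 48 * C ^ 6 / c4 := by positivity
    linarith
  have hDc4 : 48 * C ^ 6 ≤ c4 * D := by
    have h1 : 48 * C ^ 6 / c4 ≤ D := by
      have : 0 ≤ 1 / c0 := by positivity
      linarith
    rw [div_le_iff₀ hc4] at h1
    linarith
  have hA1 : 1 ≤ D ^ 4 := one_le_pow₀ hD1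
  obtain ⟨lam, hlam⟩ : ∃ lam : ℝ, lam = 1 / (2 * C * D ^ 3) := ⟨_, rfl⟩
  have hD3 : 1 ≤ D ^ 3 := one_le_pow₀ hD1
  have hlam0 : 0 < lam := by rw [hlam]; positivity
  have hlam12 : lam ≤ 1 / 2 := by
    rw [hlam, div_le_div_iff₀ (by positivity) (by norm_num)]
    have : 1 ≤ C * D ^ 3 := one_le_mul_of_one_le_of_one_le hC0 hD3
    linarith
  refine ⟨D ^ 4, c4 / 2 * D ^ 12, lam, hA1, by positivity, hlam0, hlam12, 32, ?_⟩
  intro z q _ hz hqz
  have hq : 0 < q := Nat.pos_of_ne_zero (NeZero.ne q)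
  have hq1 : 1 ≤ q := hq
  have hqz' : q ≤ z := by
    calc q = q ^ 1 := (pow_one q).symm
      _ ≤ q ^ 8 := Nat.pow_le_pow_right hq (by norm_num)
      _ ≤ z := hqz
  have hzR : (32 : ℝ) ≤ z := by exact_mod_cast hz
  set ℓ : ℝ := Real.log z with hℓ
  have hℓ1 : 1 ≤ ℓ := by
    rw [hℓ, Real.le_log_iff_exp_le (by linarith)]
    have := Real.exp_one_lt_d9
    linarith
  set s : ℝ := 1 / (D ^ 4 * ℓ) with hs
  have hs0 : 0 < s := by positivity
  have hs1 : s ≤ 1 := by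
    rw [hs, div_le_one (by positivity)]
    exact one_le_mul_of_one_le_of_one_le hA1 hℓ1
  have hsl : s * ℓ = 1 / D ^ 4 := by
    rw [hs]
    field_simp
  have hsl1 : s * ℓ ≤ 1 := by
    rw [hsl, div_le_one (by positivity)]
    exact hA1
  have hslc0 : s * ℓ ≤ c0 := by
    rw [hsl, div_le_iff₀ (by positivity)]
    rw [div_le_iff₀ hc0] at hDc0
    have h2 : D ≤ D ^ 4 := by
      calc D = D ^ 1 := (pow_one D).symm
        _ ≤ D ^ 4 := pow_le_pow_right₀ hD1 (by norm_num)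
    calc (1 : ℝ) ≤ D * c0 := hDc0
      _ ≤ D ^ 4 * c0 := mul_le_mul_of_nonneg_right h2 hc0.le
      _ = c0 * D ^ 4 := mul_comm _ _
  have hφ0 : (0 : ℝ) < q.totient := by exact_mod_cast Nat.totient_pos.mpr hq
  have hcard : (Fintype.card (ZMod q)ˣ : ℝ) = q.totient := by
    rw [ZMod.card_units_eq_totient]
  obtain ⟨hL, hL0, hDj, ⟨m, hm, hmP⟩, hBsum⟩ := hCLS z q s hz hqz' hs0
  -- bounds
  have hcop : ∀ x : (ZMod q)ˣ, ((x : ZMod q).val).Coprime q := fun x =>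
    ZMod.val_coe_unit_coprime x
  have hDiff : ∀ (j : ℕ), j ≤ 3 → ∀ x y : (ZMod q)ˣ,
      ‖((Aj z q (x : ZMod q).val j s : ℝ) : ℂ) - ((Aj z q (y : ZMod q).val j s : ℝ) : ℂ)‖ ≤
        C * ℓ ^ j / q.totient := by
    intro j hj x y
    rw [← Complex.ofReal_sub, Complex.norm_real, Real.norm_eq_abs]
    refine (hD z q _ _ j s hz hq1 hqz (hcop x) (hcop y) hj hs0 hs1).trans ?_
    apply div_le_div_of_nonneg_right _ hφ0.le
    exact mul_le_mul_of_nonneg_right hCC1 (by positivity)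
  have hA0b : ∀ x : (ZMod q)ˣ, Aj z q (x : ZMod q).val 0 s ≤ C * D ^ 4 / q.totient := by
    intro x
    refine (hA z q _ s hz hq1 hqz (hcop x) hs0 hsl1).trans ?_
    rw [hsl]
    rw [div_le_div_iff₀ (by positivity) hφ0]
    have : C * D ^ 4 * (q.totient * (1 / D ^ 4)) = C * q.totient := by
      field_simp
    rw [this]
    exact mul_le_mul_of_nonneg_right hCC2 hφ0.le
  have hA0sum : ∑ x : (ZMod q)ˣ, Aj z q (x : ZMod q).val 0 s ≤ C * D ^ 4 := by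
    refine (Finset.sum_le_sum fun x _ => hA0b x).trans (le_of_eq ?_)
    rw [Finset.sum_const, Finset.card_univ, nsmul_eq_mul, hcard]
    field_simp
  have hB0b : ∀ x : (ZMod q)ˣ, Bj z q (x : ZMod q).val 0 s ≤ C * D ^ 4 * ℓ / q.totient := by
    intro x
    refine (hB z q _ s hz hq1 hqz (hcop x) hs0 hsl1).trans ?_
    rw [hs, div_le_div_iff₀ (by positivity) hφ0]
    have : C * D ^ 4 * ℓ * (q.totient * (1 / (D ^ 4 * ℓ))) = C * q.totient := by
      field_simp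
    rw [this]
    exact mul_le_mul_of_nonneg_right hCC3 hφ0.le
  have hB0sum : ∑ x : (ZMod q)ˣ, ‖((Bj z q (x : ZMod q).val 0 s : ℝ) : ℂ)‖ ≤ C * D ^ 4 * ℓ := by
    have h1 : ∀ x : (ZMod q)ˣ, ‖((Bj z q (x : ZMod q).val 0 s : ℝ) : ℂ)‖ ≤
        C * D ^ 4 * ℓ / q.totient := by
      intro x
      rw [Complex.norm_real, Real.norm_of_nonneg (Bj_nonneg _ _ _ _ _ (fun n => by simp))]
      exact hB0b x
    refine (Finset.sum_le_sum fun x _ => h1 x).trans (le_of_eq ?_)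
    rw [Finset.sum_const, Finset.card_univ, nsmul_eq_mul, hcard]
    field_simp
  -- the trivial bound for `L0 1` and `L0 ψ`
  have hA0nn : ∀ x : (ZMod q)ˣ, 0 ≤ Aj z q (x : ZMod q).val 0 s := by
    intro x
    apply tsum_nonneg
    intro n
    unfold aj
    split_ifs
    · positivity
    · exact le_rfl
  have hL1 : ‖Lj z (1 : DirichletCharacter ℂ q) 0 s‖ ≤ 2 * C * D ^ 4 := by
    rw [hL0]
    have h1 : ‖∑ x : (ZMod q)ˣ, (1 : DirichletCharacter ℂ q) x *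
        ((Aj z q (x : ZMod q).val 0 s : ℝ) : ℂ)‖ ≤ C * D ^ 4 := by
      refine (norm_sum_le _ _).trans ?_
      refine le_trans (Finset.sum_le_sum fun x _ => ?_) hA0sum
      rw [norm_mul, Complex.norm_real, Real.norm_of_nonneg (hA0nn x)]
      exact mul_le_of_le_one_left (hA0nn x) (DirichletCharacter.norm_le_one _ _)
    have hCD : 1 ≤ C * D ^ 4 := one_le_mul_of_one_le_of_one_le hC0 hA1
    refine (norm_one_add_le' _ _ h1).trans ?_
    calc (1 : ℝ) + C * D ^ 4 ≤ C * D ^ 4 + C * D ^ 4 := add_le_add hCD le_rfl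
      _ = 2 * C * D ^ 4 := by ring
  have hLψ : ∀ ψ : DirichletCharacter ℂ q, ψ ≠ 1 → ‖Lj z ψ 0 s‖ ≤ 2 * C := by
    intro ψ hψ
    rw [hL0]
    have h1 : ∑ x : (ZMod q)ˣ, ψ x * ((Aj z q (x : ZMod q).val 0 s : ℝ) : ℂ) =
        ∑ x : (ZMod q)ˣ, ψ x * (((Aj z q (x : ZMod q).val 0 s : ℝ) : ℂ) -
          ((Aj z q (((1 : (ZMod q)ˣ)) : ZMod q).val 0 s : ℝ) : ℂ)) := by
      simp only [mul_sub]
      rw [Finset.sum_sub_distrib, ← Finset.sum_mul, sum_char_zero ψ hψ, zero_mul, sub_zero]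
    have h2 : ‖∑ x : (ZMod q)ˣ, ψ x * ((Aj z q (x : ZMod q).val 0 s : ℝ) : ℂ)‖ ≤ C := by
      rw [h1]
      refine (norm_sum_le _ _).trans ?_
      have h3 : ∀ x : (ZMod q)ˣ, ‖ψ x * (((Aj z q (x : ZMod q).val 0 s : ℝ) : ℂ) -
          ((Aj z q (((1 : (ZMod q)ˣ)) : ZMod q).val 0 s : ℝ) : ℂ))‖ ≤ C / q.totient := by
        intro x
        rw [norm_mul]
        have h4 := hDiff 0 (by norm_num) x 1
        rw [pow_zero, mul_one] at h4
        exact (mul_le_of_le_one_left (norm_nonneg _) (DirichletCharacter.norm_le_one _ _)).trans h4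
      refine (Finset.sum_le_sum fun x _ => h3 x).trans (le_of_eq ?_)
      rw [Finset.sum_const, Finset.card_univ, nsmul_eq_mul, hcard]
      field_simp
    refine (norm_one_add_le' _ _ h2).trans ?_
    linarith
  constructor
  swap
  · intro χ ψ hχ hψ hχψ
    by_contra hcon
    push Not at hcon
    obtain ⟨g1, g2⟩ := hcon
    have g3 := (hEUL z q χ ψ s hz hq hqz' hs0).2.2 hχ hψ
    have g4 := hLψ (χ * ψ) hχψ
    have g5 : ‖Lj z (1 : DirichletCharacter ℂ q) 0 s‖ * ‖Lj z χ 0 s‖ * ‖Lj z ψ 0 s‖ *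
        ‖Lj z (χ * ψ) 0 s‖ ≤ (2 * C * D ^ 4) * lam * lam * (2 * C) := by
      gcongr
    have g6 : (2 * C * D ^ 4) * lam * lam * (2 * C) = 1 / D ^ 2 := by
      rw [hlam]
      field_simp
      try ring
    have g7 : 1 / D ^ 2 < 1 := by
      rw [div_lt_one (by positivity)]
      nlinarith
    linarith
  intro b hbq hreal
  have hlow : ∀ χ : DirichletCharacter ℂ q, χ ≠ 1 → lam ≤ ‖Lj z χ 0 s‖ := by
    intro χ hχ
    by_cases h2 : χ ^ 2 = 1
    · exact hreal χ hχ h2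
    · have h3 := (hEUL z q χ χ s hz hq hqz' hs0).1
      have h4 := hLψ (χ ^ 2) h2
      by_contra hcon
      push Not at hcon
      have h5 : ‖Lj z (1 : DirichletCharacter ℂ q) 0 s‖ ^ 3 ≤ (2 * C * D ^ 4) ^ 3 :=
        pow_le_pow_left₀ (norm_nonneg _) hL1 3
      have h6 : ‖Lj z χ 0 s‖ ^ 4 < lam ^ 4 := pow_lt_pow_left₀ hcon (norm_nonneg _) (by norm_num)
      have h7 : ‖Lj z (1 : DirichletCharacter ℂ q) 0 s‖ ^ 3 * ‖Lj z χ 0 s‖ ^ 4 *
          ‖Lj z (χ ^ 2) 0 s‖ ≤ (2 * C * D ^ 4) ^ 3 * ‖Lj z χ 0 s‖ ^ 4 * (2 * C) := by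
        apply mul_le_mul _ h4 (norm_nonneg _) (by positivity)
        exact mul_le_mul_of_nonneg_right h5 (by positivity)
      have h8 : (2 * C * D ^ 4) ^ 3 * ‖Lj z χ 0 s‖ ^ 4 * (2 * C) <
          (2 * C * D ^ 4) ^ 3 * lam ^ 4 * (2 * C) := by
        apply mul_lt_mul_of_pos_right _ (by positivity)
        exact mul_lt_mul_of_pos_left h6 (by positivity)
      have h9 : (2 * C * D ^ 4) ^ 3 * lam ^ 4 * (2 * C) = 1 := by
        rw [hlam]
        field_simp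
      linarith
  -- the unit of `b`
  set u : (ZMod q)ˣ := ZMod.unitOfCoprime b hbq with hu
  have huv : (u : ZMod q).val = b % q := by
    rw [hu, ZMod.coe_unitOfCoprime, ZMod.val_natCast]
  have key := hABS q (fun x => ((Aj z q (x : ZMod q).val 1 s : ℝ) : ℂ))
    (fun x => ((Aj z q (x : ZMod q).val 2 s : ℝ) : ℂ))
    (fun x => ((Aj z q (x : ZMod q).val 3 s : ℝ) : ℂ))
    (fun x => ((Bj z q (x : ZMod q).val 0 s : ℝ) : ℂ))
    (fun x => ((Bj z q (x : ZMod q).val 2 s : ℝ) : ℂ)) m (fun χ => Lj z χ 0 s)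
    (C * ℓ) (C * ℓ ^ 2) (C * ℓ ^ 3) (2 * C * D ^ 4) (C * D ^ 4 * ℓ) lam
    (by positivity) (by positivity) (by positivity) hlam0
    (fun x y => by
      have := hDiff 1 (by norm_num) x y
      rwa [pow_one] at this)
    (fun x y => hDiff 2 (by norm_num) x y)
    (fun x y => hDiff 3 (by norm_num) x y)
    (by
      refine hmP.trans ?_
      have hCD : 1 ≤ C * D ^ 4 := one_le_mul_of_one_le_of_one_le hC0 hA1
      linarith)
    hB0sum
    (fun χ => by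
      rw [← hm χ]
      exact (hALG z q χ s hz hs0).1)
    (fun χ => by
      rw [← hDj χ 0, ← hL χ 1 le_rfl]
      exact (hALG z q χ s hz hs0).2.1)
    (fun χ => by
      rw [← hDj χ 0, ← hDj χ 2, ← hL χ 3 (by norm_num), ← hL χ 2 (by norm_num)]
      exact (hALG z q χ s hz hs0).2.2)
    hlow u
  rw [huv, Bj_mod] at key
  have hsum : ∑ x : (ZMod q)ˣ, ((Bj z q (x : ZMod q).val 2 s : ℝ) : ℂ) =
      ((Bj z 1 1 2 s : ℝ) : ℂ) := by
    rw [← hBsum 2]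
    push_cast
    rfl
  rw [hsum] at key
  have e1 : (q.totient : ℂ) * ((Bj z q b 2 s : ℝ) : ℂ) - ((Bj z 1 1 2 s : ℝ) : ℂ) =
      (((q.totient : ℝ) * Bj z q b 2 s - Bj z 1 1 2 s : ℝ) : ℂ) := by
    push_cast
    rfl
  rw [e1, Complex.norm_real, Real.norm_eq_abs] at key
  have h10 := (abs_le.mp key).1
  have h11 := hB2' z s hz hs0 hslc0
  have h12 : c4 / s ^ 3 = c4 * D ^ 12 * ℓ ^ 3 := by
    rw [hs]
    field_simp
  rw [h12] at h11
  have h13 : C * ℓ ^ 3 * (2 * C * D ^ 4) + 3 * (C * ℓ ^ 2) * (2 * C * D ^ 4) * (C * D ^ 4 * ℓ) +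
      2 * (C * ℓ) ^ 3 * (2 * C * D ^ 4) ^ 2 / lam ≤ 24 * C ^ 6 * D ^ 11 * ℓ ^ 3 := by
    have e2 : 2 * (C * ℓ) ^ 3 * (2 * C * D ^ 4) ^ 2 / lam = 16 * C ^ 6 * D ^ 11 * ℓ ^ 3 := by
      rw [hlam]
      field_simp
      ring
    have e3 : C * ℓ ^ 3 * (2 * C * D ^ 4) ≤ 2 * C ^ 6 * D ^ 11 * ℓ ^ 3 := by
      have h1 : C ^ 2 ≤ C ^ 6 := pow_le_pow_right₀ hC0 (by norm_num)
      have h2 : D ^ 4 ≤ D ^ 11 := pow_le_pow_right₀ hD1 (by norm_num)
      calc C * ℓ ^ 3 * (2 * C * D ^ 4) = 2 * (C ^ 2 * D ^ 4) * ℓ ^ 3 := by ring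
        _ ≤ 2 * (C ^ 6 * D ^ 11) * ℓ ^ 3 := by gcongr
        _ = _ := by ring
    have e4 : 3 * (C * ℓ ^ 2) * (2 * C * D ^ 4) * (C * D ^ 4 * ℓ) ≤ 6 * C ^ 6 * D ^ 11 * ℓ ^ 3 := by
      have h1 : C ^ 3 ≤ C ^ 6 := pow_le_pow_right₀ hC0 (by norm_num)
      have h2 : D ^ 8 ≤ D ^ 11 := pow_le_pow_right₀ hD1 (by norm_num)
      calc 3 * (C * ℓ ^ 2) * (2 * C * D ^ 4) * (C * D ^ 4 * ℓ) = 6 * (C ^ 3 * D ^ 8) * ℓ ^ 3 := by
            ring
        _ ≤ 6 * (C ^ 6 * D ^ 11) * ℓ ^ 3 := by gcongr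
        _ = _ := by ring
    rw [e2]
    linarith
  have h14 : 24 * C ^ 6 * D ^ 11 * ℓ ^ 3 ≤ c4 / 2 * D ^ 12 * ℓ ^ 3 := by
    have h15 : 24 * C ^ 6 * D ^ 11 ≤ c4 / 2 * D ^ 12 := by
      have h16 : 0 ≤ D ^ 11 := by positivity
      have h17 : 24 * C ^ 6 ≤ c4 / 2 * D := by linarith
      calc 24 * C ^ 6 * D ^ 11 ≤ c4 / 2 * D * D ^ 11 := mul_le_mul_of_nonneg_right h17 h16
        _ = _ := by ring
    exact mul_le_mul_of_nonneg_right h15 (by positivity)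
  have h18 : c4 / 2 * D ^ 12 * ℓ ^ 3 ≤ (q.totient : ℝ) * Bj z q b 2 s := by
    linarith
  rw [div_le_iff₀ hφ0]
  linarith

/-- the Linnik type bound; the exceptional modulus is larger than every power of `log z` -/
theorem page : ∃ (K : ℕ) (c : ℝ), 1 ≤ K ∧ 0 < c ∧ ∀ B : ℕ, ∃ z0 : ℕ, ∀ z : ℕ, z0 ≤ z → ∃ q₁ : ℕ,
    (Real.log z) ^ B < (q₁ : ℝ) ∧
    ∀ q b : ℕ, 0 < q → q ^ 16 ≤ z → ¬ q₁ ∣ q → b.Coprime q →
    c / (q.totient : ℝ) ≤
      ∑ p ∈ (Ioc z (z ^ K)).filter (fun p => p.Prime ∧ p ≡ b [MOD q]), (1 : ℝ) / p := by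
  have hSUM := Pool.Agent.W933.MHSum.sum_
  have hFL := Pool.Agent.W333.MH.fl
  have hDIFF := Pool.Agent.W505.MH.diff hFL hSUM
  have hA0 := Pool.Agent.W505.MH.a0 hFL hSUM
  have hCLS := Pool.Agent.W193.MH.Cls.cls hSUM
  have hB0 := Pool.Agent.H262R3.Lk.b0 Pool.Agent.W505.MH.bt hSUM
  have hB2 := Pool.Agent.W440.MH.b2 hSUM
  have hALG := Pool.Agent.H262R3.Lk.alg hSUM
  have hLIN := linP hSUM hDIFF hA0 hB0 hB2 hALG Pool.Agent.W215.MH.eul hCLS
    Pool.Agent.W701.MH.abs_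
  have hTAIL := Pool.Agent.W803.MH.tail Pool.Agent.W505.MH.bt hSUM
  obtain ⟨A, c, lam, hA, hc, hlam, hlam2, z1, h1⟩ := hLIN
  obtain ⟨K, z2, hK, h2⟩ := hTAIL A (c / 2) hA (by positivity)
  have hK0 : (0 : ℝ) < (K : ℝ) := by exact_mod_cast hK
  refine ⟨K, c / (2 * (K : ℝ) ^ 3), hK, by positivity, fun B => ?_⟩
  obtain ⟨z3, h3⟩ := Pool.Agent.H262R3.Lk.swq B
  obtain ⟨z5, h5ev⟩ := Filter.eventually_atTop.1 (show ∀ᶠ z : ℕ in Filter.atTop,
      (Real.log z) ^ B < (z : ℝ) + 2 by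
    have e2 := (Real.isLittleO_pow_log_id_atTop (n := B)).comp_tendsto
      (tendsto_natCast_atTop_atTop (R := ℝ))
    have e3 := e2.bound (show (0 : ℝ) < 1 by norm_num)
    filter_upwards [e3] with z hz
    simp only [Function.comp_apply, id, one_mul] at hz
    have e4 : Real.log (z : ℝ) ^ B ≤ ‖Real.log (z : ℝ) ^ B‖ := Real.le_norm_self _
    have e5 : ‖(z : ℝ)‖ = z := by simp
    rw [e5] at hz
    linarith)
  refine ⟨max (max (max z1 z2) (max z3 z5)) 3, ?_⟩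
  intro z hz
  simp only [max_le_iff] at hz
  obtain ⟨⟨⟨hz1, hz2⟩, ⟨hz3, hz5⟩⟩, hz4⟩ := hz
  have hlog : (1 : ℝ) ≤ Real.log z := by
    rw [Real.le_log_iff_exp_le (by exact_mod_cast (by omega : 0 < z))]
    have h5 : Real.exp 1 < 2.7182818286 := Real.exp_one_lt_d9
    have h6 : (3 : ℝ) ≤ (z : ℝ) := by exact_mod_cast hz4
    linarith
  have hAlog : (1 : ℝ) ≤ A * Real.log z := by nlinarith
  have hs0 : (0 : ℝ) < 1 / (A * Real.log z) := by positivity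
  have hs1 : 1 / (A * Real.log z) ≤ (1 : ℝ) := by
    rw [div_le_one (by linarith)]
    exact hAlog
  have h8 : ∀ q : ℕ, 0 < q → q ^ 16 ≤ z → q ^ 8 ≤ z := fun q hq h =>
    (Nat.pow_le_pow_right hq (by norm_num)).trans h
  -- it is enough that no real character is exceptional
  have hmain : ∀ q b : ℕ, 0 < q → q ^ 16 ≤ z → b.Coprime q →
      (∀ χ : DirichletCharacter ℂ q, χ ≠ 1 → χ ^ 2 = 1 →
        lam ≤ ‖Lj z χ 0 (1 / (A * Real.log z))‖) →
      c / (2 * (K : ℝ) ^ 3) / (q.totient : ℝ) ≤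
      ∑ p ∈ (Ioc z (z ^ K)).filter (fun p => p.Prime ∧ p ≡ b [MOD q]), (1 : ℝ) / p := by
    intro q b hqpos hq hb hreal
    haveI : NeZero q := ⟨hqpos.ne'⟩
    have hlow := (h1 z q hz1 (h8 q hqpos hq)).1 b hb hreal
    have hup := h2 z q b hz2 hqpos (h8 q hqpos hq) hb
    have hphi : (0 : ℝ) < (q.totient : ℝ) := by
      exact_mod_cast Nat.totient_pos.2 hqpos
    have hL3 : (0 : ℝ) < (Real.log z) ^ 3 := by positivity
    obtain ⟨S, hS⟩ : ∃ S : ℝ, S = ∑ p ∈ (Ioc z (z ^ K)).filter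
      (fun p => p.Prime ∧ p ≡ b [MOD q]), (1 : ℝ) / p := ⟨_, rfl⟩
    rw [← hS] at hup ⊢
    have h5 : c * (Real.log z) ^ 3 / (q.totient : ℝ) ≤
        c / 2 * (Real.log z) ^ 3 / (q.totient : ℝ) + (K : ℝ) ^ 3 * (Real.log z) ^ 3 * S :=
      le_trans hlow hup
    have h6 : (c / 2 / (q.totient : ℝ)) * (Real.log z) ^ 3 ≤
        ((K : ℝ) ^ 3 * S) * (Real.log z) ^ 3 := by
      have e1 : c * (Real.log z) ^ 3 / (q.totient : ℝ) =
          2 * ((c / 2 / (q.totient : ℝ)) * (Real.log z) ^ 3) := by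
        field_simp
      have e2 : c / 2 * (Real.log z) ^ 3 / (q.totient : ℝ) =
          (c / 2 / (q.totient : ℝ)) * (Real.log z) ^ 3 := by
        field_simp
      rw [e1, e2] at h5
      nlinarith
    have h7 : c / 2 / (q.totient : ℝ) ≤ (K : ℝ) ^ 3 * S :=
      le_of_mul_le_mul_right h6 hL3
    have hK3 : (0 : ℝ) < (K : ℝ) ^ 3 := by positivity
    have e3 : c / (2 * (K : ℝ) ^ 3) / (q.totient : ℝ) =
        (c / 2 / (q.totient : ℝ)) / (K : ℝ) ^ 3 := by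
      field_simp
    rw [e3, div_le_iff₀ hK3]
    linarith
  by_cases hex : ∃ (q₀ : ℕ) (χ₀ : DirichletCharacter ℂ q₀), 0 < q₀ ∧ q₀ ^ 16 ≤ z ∧ χ₀ ≠ 1 ∧
      χ₀ ^ 2 = 1 ∧ ‖Lj z χ₀ 0 (1 / (A * Real.log z))‖ < lam
  · obtain ⟨q₀, χ₀, hq₀, hq₀z, hχ₀, hχ₀2, hL₀⟩ := hex
    haveI : NeZero q₀ := ⟨hq₀.ne'⟩
    have hc0 : χ₀.conductor ≠ 0 := χ₀.conductor_ne_zero
    have hc1 : χ₀.conductor ≠ 1 := fun h => hχ₀ (χ₀.eq_one_iff_conductor_eq_one.2 h)
    refine ⟨χ₀.conductor, ?_, fun q b hq hqz hndvd hb => hmain q b hq hqz hb ?_⟩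
    · by_contra hcon
      push Not at hcon
      have g1 := h3 z hz3 χ₀.conductor (by omega) hcon χ₀.primitiveCharacter
        χ₀.primitiveCharacter_isPrimitive _ hs0 hs1
      have hq₀z' : q₀ ≤ z := (Nat.le_self_pow (by norm_num) _).trans hq₀z
      have g2 := Pool.Agent.Y835.SC.Lj_lift (z := z) χ₀.conductor_dvd_level hq₀z'
        χ₀.primitiveCharacter (1 / (A * Real.log z))
      rw [DirichletCharacter.changeLevel_primitiveCharacter] at g2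
      rw [g2] at hL₀
      linarith
    intro χ hχ hχ2
    by_contra hcon
    push Not at hcon
    haveI : NeZero q := ⟨hq.ne'⟩
    have hm0 : 0 < q₀ * q := Nat.mul_pos hq₀ hq
    haveI : NeZero (q₀ * q) := ⟨hm0.ne'⟩
    have hm8 : (q₀ * q) ^ 8 ≤ z := by
      have e1 : ((q₀ * q) ^ 8) ^ 2 ≤ z ^ 2 := by
        calc ((q₀ * q) ^ 8) ^ 2 = q₀ ^ 16 * q ^ 16 := by rw [← pow_mul, mul_pow]
          _ ≤ z * z := Nat.mul_le_mul hq₀z hqz
          _ = z ^ 2 := by ring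
      exact (Nat.pow_le_pow_iff_left (by norm_num)).1 e1
    have hmz : q₀ * q ≤ z := (Nat.le_self_pow (by norm_num) _).trans hm8
    have h3 := (h1 z (q₀ * q) hz1 hm8).2
      (DirichletCharacter.changeLevel (dvd_mul_right q₀ q) χ₀)
      (DirichletCharacter.changeLevel (dvd_mul_left q q₀) χ)
      (by rw [← map_pow, hχ₀2, map_one]) (by rw [← map_pow, hχ2, map_one]) (by
        intro h
        have h4 : DirichletCharacter.changeLevel (dvd_mul_right q₀ q) χ₀ =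
            DirichletCharacter.changeLevel (dvd_mul_left q q₀) χ := by
          have h5 : DirichletCharacter.changeLevel (dvd_mul_left q q₀) χ *
              DirichletCharacter.changeLevel (dvd_mul_left q q₀) χ = 1 := by
            rw [← map_mul, ← sq, hχ2, map_one]
          exact mul_right_cancel (h.trans h5.symm)
        have h5 := congrArg DirichletCharacter.conductor h4
        rw [DirichletCharacter.conductor_changeLevel, DirichletCharacter.conductor_changeLevel] at h5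
        exact hndvd (h5 ▸ χ.conductor_dvd_level))
    rw [Pool.Agent.Y835.SC.Lj_lift _ hmz, Pool.Agent.Y835.SC.Lj_lift _ hmz] at h3
    rcases h3 with h3 | h3
    · linarith
    · linarith
  · push Not at hex
    refine ⟨z + 2, by push_cast; exact h5ev z hz5, fun q b hq hqz _ hb => hmain q b hq hqz hb ?_⟩
    intro χ hχ hχ2
    exact hex q χ hq hqz hχ hχ2

end Pool.Agent.Y353.PS
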