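import Mathlib

/-!
Many primes `t` with a common small multiple of the numbers `t - 1` (after Prachar, and Alford, Granville
and Pomerance), all congruent to one modulo a given prime `q`: combinatorial part.
-/

set_option autoImplicit false

namespace Pool.Agent.Y353.PS

open Finset Filter Topology

/-- the popular cofactor `k` -/
theorem popular {z K q' : ℕ} {c : ℝ} (D : Finset ℕ) (hpos : ∀ d ∈ D, 0 < d) (hq' : 0 < q')
    (hz : 2 ≤ z) (hK : 1 ≤ K) (hc : 0 < c) (hD : 0 < D.card)
    (h : ∀ d ∈ D, c / (4 * (q' * d) : ℕ) ≤ ∑ p ∈ (Ioc z (z ^ K)).filter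
      (fun p => p.Prime ∧ p ≡ 1 + 2 * (q' * d) [MOD 4 * (q' * d)]), (1 : ℝ) / p) :
    ∃ k : ℕ, Odd k ∧ k ≤ z ^ K ∧ c * D.card / (2 * (1 + K * Real.log z)) ≤
      ((D.filter (fun d => (1 + 2 * (q' * d) * k).Prime ∧ z < 1 + 2 * (q' * d) * k ∧
        1 + 2 * (q' * d) * k ≤ z ^ K)).card : ℝ) := by
  classical
  set good : ℕ → ℕ → Prop := fun d k => (1 + 2 * (q' * d) * k).Prime ∧ z < 1 + 2 * (q' * d) * k ∧
        1 + 2 * (q' * d) * k ≤ z ^ K with hgood
  set I := (Icc 1 (z ^ K)).filter (fun k => Odd k) with hI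
  -- for each `d`
  have h1 : ∀ d ∈ D, c / 2 ≤ ∑ k ∈ I.filter (fun k => good d k), (1 : ℝ) / k := by
    intro d hd
    have hd0 := hpos d hd
    have hm : 0 < q' * d := Nat.mul_pos hq' hd0
    have hmR : (0 : ℝ) < (q' * d : ℕ) := by exact_mod_cast hm
    obtain ⟨T, hT⟩ : ∃ T : Finset ℕ, T = (Ioc z (z ^ K)).filter
        (fun p => p.Prime ∧ p ≡ 1 + 2 * (q' * d) [MOD 4 * (q' * d)]) := ⟨_, rfl⟩
    have hd' := h d hd
    rw [← hT] at hd'
    have h2 : ∑ p ∈ T, (1 : ℝ) / p ≤
        ∑ k ∈ I.filter (fun k => good d k), (1 : ℝ) / (2 * (q' * d : ℕ) * k) := by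
      have hex : ∀ p ∈ T,
          p = 1 + 2 * (q' * d) * ((p - 1) / (2 * (q' * d))) ∧ Odd ((p - 1) / (2 * (q' * d))) := by
        intro p hp
        rw [hT, mem_filter, mem_Ioc] at hp
        obtain ⟨⟨hp1, hp2⟩, hp3, hp4⟩ := hp
        have hp5 : 1 ≤ p := hp3.one_lt.le
        have e2 : ((4 * (q' * d) : ℕ) : ℤ) ∣ ((1 + 2 * (q' * d) : ℕ) : ℤ) - (p : ℤ) :=
          Nat.modEq_iff_dvd.1 hp4
        obtain ⟨j, hj⟩ := e2
        have e3 : (p : ℤ) - 1 = 2 * ((q' * d : ℕ) : ℤ) * (1 - 2 * j) := by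
          push_cast at hj ⊢
          linarith
        have e4 : 0 ≤ 1 - 2 * j := by
          by_contra hneg
          push Not at hneg
          have : (p : ℤ) - 1 < 0 := by
            rw [e3]
            have : (0 : ℤ) < 2 * ((q' * d : ℕ) : ℤ) := by exact_mod_cast (by omega : 0 < 2 * (q' * d))
            nlinarith
          have : (1 : ℤ) ≤ p := by exact_mod_cast hp5
          omega
        obtain ⟨k, hk⟩ := Int.eq_ofNat_of_zero_le e4
        rw [hk] at e3
        have e5 : p - 1 = 2 * (q' * d) * k := by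
          have : ((p - 1 : ℕ) : ℤ) = ((2 * (q' * d) * k : ℕ) : ℤ) := by
            rw [Nat.cast_sub hp5]
            push_cast at e3 ⊢
            linarith
          exact_mod_cast this
        have e6 : (p - 1) / (2 * (q' * d)) = k := by
          rw [e5]
          exact Nat.mul_div_cancel_left _ (by omega)
        rw [e6]
        refine ⟨by omega, ?_⟩
        have e7 : (k : ℤ) = 1 - 2 * j := hk.symm
        have : Odd (k : ℤ) := ⟨-j, by rw [e7]; ring⟩
        exact_mod_cast this
      calc ∑ p ∈ T, (1 : ℝ) / p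
          ≤ ∑ p ∈ T, (1 : ℝ) / (2 * (q' * d : ℕ) * ((p - 1) / (2 * (q' * d)) : ℕ)) := by
            apply sum_le_sum
            intro p hp
            obtain ⟨g1, g2⟩ := hex p hp
            obtain ⟨k, hk⟩ : ∃ k, k = (p - 1) / (2 * (q' * d)) := ⟨_, rfl⟩
            rw [← hk] at g1 g2 ⊢
            have hk0 : 0 < k := g2.pos
            apply one_div_le_one_div_of_le
            · have : (0 : ℝ) < k := by exact_mod_cast hk0
              positivity
            · have : ((2 * (q' * d) * k : ℕ) : ℝ) ≤ (p : ℝ) := by exact_mod_cast (by omega)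
              push_cast at this ⊢
              exact this
        _ = ∑ k ∈ T.image (fun p => (p - 1) / (2 * (q' * d))),
            (1 : ℝ) / (2 * (q' * d : ℕ) * k) := by
            rw [sum_image]
            intro p hp p' hp' hpp
            rw [mem_coe] at hp hp'
            have g1 := (hex p hp).1
            have g2 := (hex p' hp').1
            simp only at hpp
            rw [g1, g2, hpp]
        _ ≤ _ := by
            apply sum_le_sum_of_subset_of_nonneg
            · intro k hk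
              rw [mem_image] at hk
              obtain ⟨p, hp, rfl⟩ := hk
              obtain ⟨g1, g2⟩ := hex p hp
              rw [hT, mem_filter, mem_Ioc] at hp
              obtain ⟨⟨hp1, hp2⟩, hp3, hp4⟩ := hp
              rw [mem_filter, hI, mem_filter, mem_Icc]
              refine ⟨⟨⟨g2.pos, ?_⟩, g2⟩, ?_⟩
              · exact (Nat.div_le_self _ _).trans ((Nat.sub_le _ _).trans hp2)
              · rw [hgood]
                simp only
                rw [← g1]
                exact ⟨hp3, hp1, hp2⟩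
            · intro k _ _
              positivity
    have h3 : ∑ k ∈ I.filter (fun k => good d k), (1 : ℝ) / (2 * (q' * d : ℕ) * k) =
        (1 / (2 * (q' * d : ℕ))) * ∑ k ∈ I.filter (fun k => good d k), (1 : ℝ) / k := by
      rw [mul_sum]
      apply sum_congr rfl
      intro k _
      rw [div_mul_div_comm, one_mul]
    have h4 := hd'.trans h2
    rw [h3] at h4
    have h5 : c / (4 * (q' * d) : ℕ) = (1 / (2 * (q' * d : ℕ))) * (c / 2) := by
      push_cast
      field_simp
      ring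
    rw [h5] at h4
    exact le_of_mul_le_mul_left h4 (by positivity)
  -- sum over `d`
  have h2 : D.card * (c / 2) ≤ ∑ k ∈ I, (1 : ℝ) / k * ((D.filter (fun d => good d k)).card : ℝ) := by
    calc D.card * (c / 2) = ∑ d ∈ D, (c / 2) := by rw [sum_const, nsmul_eq_mul]
      _ ≤ ∑ d ∈ D, ∑ k ∈ I.filter (fun k => good d k), (1 : ℝ) / k := sum_le_sum h1
      _ = ∑ d ∈ D, ∑ k ∈ I, if good d k then (1 : ℝ) / k else 0 := by
          apply sum_congr rfl
          intro d _
          rw [sum_filter]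
      _ = ∑ k ∈ I, ∑ d ∈ D, if good d k then (1 : ℝ) / k else 0 := sum_comm
      _ = _ := by
          apply sum_congr rfl
          intro k _
          rw [← sum_filter, sum_const, nsmul_eq_mul, mul_comm]
  have hz0 : (0 : ℝ) < z := by exact_mod_cast (by omega : 0 < z)
  have hlogz : 0 < Real.log z := Real.log_pos (by exact_mod_cast (by omega : 1 < z))
  have h3 : ∑ k ∈ I, (1 : ℝ) / k ≤ 1 + K * Real.log z := by
    have e1 : ∑ k ∈ I, (1 : ℝ) / k ≤ ∑ k ∈ Icc 1 (z ^ K), (1 : ℝ) / k := by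
      apply sum_le_sum_of_subset_of_nonneg (filter_subset _ _)
      intro k _ _
      positivity
    have e2 := harmonic_le_one_add_log (z ^ K)
    have e3 : ((harmonic (z ^ K) : ℚ) : ℝ) = ∑ k ∈ Icc 1 (z ^ K), (1 : ℝ) / k := by
      rw [harmonic_eq_sum_Icc]
      push_cast
      apply sum_congr rfl
      intro k _
      rw [one_div]
    rw [e3] at e2
    have e4 : Real.log ((z ^ K : ℕ) : ℝ) = K * Real.log z := by
      rw [Nat.cast_pow, Real.log_pow]
    rw [e4] at e2
    exact e1.trans e2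
  by_contra hcon
  push Not at hcon
  have hS0 : 0 < 1 + K * Real.log z := by positivity
  have h4 : ∀ k ∈ I, (1 : ℝ) / k * ((D.filter (fun d => good d k)).card : ℝ) ≤
      (1 : ℝ) / k * (c * D.card / (2 * (1 + K * Real.log z))) := by
    intro k hk
    rw [hI, mem_filter, mem_Icc] at hk
    apply mul_le_mul_of_nonneg_left _ (by positivity)
    exact (hcon k hk.2 hk.1.2).le
  have h5 : 1 ∈ I := by
    rw [hI, mem_filter, mem_Icc]
    exact ⟨⟨le_rfl, Nat.one_le_pow _ _ (by omega)⟩, odd_one⟩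
  have h6 : ∑ k ∈ I, (1 : ℝ) / k * ((D.filter (fun d => good d k)).card : ℝ) <
      ∑ k ∈ I, (1 : ℝ) / k * (c * D.card / (2 * (1 + K * Real.log z))) := by
    apply sum_lt_sum h4
    refine ⟨1, h5, ?_⟩
    apply mul_lt_mul_of_pos_left _ (by norm_num)
    exact hcon 1 odd_one (Nat.one_le_pow _ _ (by omega))
  rw [← sum_mul] at h6
  have hDR : (0 : ℝ) < D.card := by exact_mod_cast hD
  have h7 : (∑ k ∈ I, (1 : ℝ) / k) * (c * D.card / (2 * (1 + K * Real.log z))) ≤
      (1 + K * Real.log z) * (c * D.card / (2 * (1 + K * Real.log z))) :=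
    mul_le_mul_of_nonneg_right h3 (by positivity)
  have h8 : (1 + K * Real.log z) * (c * D.card / (2 * (1 + K * Real.log z))) =
      D.card * (c / 2) := by
    field_simp
  linarith

/-- the number of the products of `j` different primes -/
theorem card_prods (Q : Finset ℕ) (hQ : ∀ p ∈ Q, p.Prime) (j : ℕ) :
    ((Q.powersetCard j).image (fun D => ∏ p ∈ D, p)).card = Q.card.choose j := by
  classical
  rw [card_image_of_injOn, card_powersetCard]
  intro D hD D' hD' h
  rw [mem_coe, mem_powersetCard] at hD hD'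
  simp only at h
  have e1 := Nat.primeFactors_prod (s := D) (fun p hp => hQ p (hD.1 hp))
  have e2 := Nat.primeFactors_prod (s := D') (fun p hp => hQ p (hD'.1 hp))
  rw [← e1, ← e2, h]

/-- many primes `t` for which `t - 1` divides one number `lam` -/
theorem supply_of {z K q q₁ y j : ℕ} {c : ℝ} (hz : 2 ≤ z) (hK : 1 ≤ K) (hc : 0 < c)
    (hq : q.Prime) (hq1 : 4 * q < q₁)
    (h : ∀ m b : ℕ, 0 < m → m ^ 16 ≤ z → ¬ q₁ ∣ m → b.Coprime m →
      c / (m.totient : ℝ) ≤
        ∑ p ∈ (Ioc z (z ^ K)).filter (fun p => p.Prime ∧ p ≡ b [MOD m]), (1 : ℝ) / p)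
    (hy : (4 * q * y ^ j) ^ 16 ≤ z) (hj : j + 3 ≤ Nat.primeCounting y) :
    ∃ (P : Finset ℕ) (lam : ℕ), (∀ t ∈ P, t.Prime ∧ z < t ∧ t ≤ z ^ K ∧ t - 1 ∣ lam ∧ q ∣ t - 1) ∧
      0 < lam ∧ ¬ 4 ∣ lam ∧ lam ≤ 2 * q * z ^ K * 4 ^ y ∧
      c * ((Nat.primeCounting y - 3).choose j : ℕ) / (2 * (1 + K * Real.log z)) ≤ (P.card : ℝ) := by
  classical
  set q' := if q = 2 then 1 else q with hq'def
  have hq'0 : 0 < q' := by
    rw [hq'def]; split_ifs
    · norm_num
    · exact hq.pos
  have hq'le : q' ≤ q := by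
    rw [hq'def]; split_ifs
    · exact hq.one_lt.le
    · exact le_rfl
  have hq'odd : Odd q' := by
    rw [hq'def]; split_ifs with h2
    · exact odd_one
    · exact hq.odd_of_ne_two h2
  have hqdvd : q ∣ 2 * q' := by
    rw [hq'def]; split_ifs with h2
    · rw [h2]
    · exact dvd_mul_left _ _
  -- the prime to be left out
  obtain ⟨l, hl0, hl⟩ : ∃ l : ℕ, (l = 0 ∨ l.Prime) ∧
      ∀ m : ℕ, Odd m → q.Coprime m → ¬ l ∣ m → ¬ q₁ ∣ 4 * (q' * m) := by
    by_cases hex : ∃ l : ℕ, l.Prime ∧ l ∣ q₁ ∧ ¬ l ∣ 4 * q'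
    · obtain ⟨l, hl1, hl2, hl3⟩ := hex
      refine ⟨l, Or.inr hl1, fun m _ _ hlm hdiv => ?_⟩
      have h1 : l ∣ 4 * q' * m := by
        rw [mul_assoc]; exact hl2.trans hdiv
      rcases (Nat.Prime.dvd_mul hl1).1 h1 with h2 | h2
      · exact hl3 h2
      · exact hlm h2
    · push Not at hex
      refine ⟨0, Or.inl rfl, fun m hmodd hqm _ hdiv => ?_⟩
      have hcop : Nat.Coprime q₁ m := by
        apply Nat.Coprime.symm
        apply Nat.coprime_of_dvd
        intro p hp hpm hpq
        have h1 := hex p hp hpq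
        rcases (Nat.Prime.dvd_mul hp).1 h1 with h2 | h2
        · have h3 : p ∣ 2 := hp.dvd_of_dvd_pow (show p ∣ 2 ^ 2 by norm_num; exact h2)
          have h4 : p = 2 := (Nat.prime_dvd_prime_iff_eq hp Nat.prime_two).1 h3
          rw [h4] at hpm
          exact (Nat.not_even_iff_odd.2 hmodd) (even_iff_two_dvd.2 hpm)
        · have h3 : p ∣ q := by
            rw [hq'def] at h2
            split_ifs at h2 with h5
            · exact absurd (Nat.dvd_one.1 h2) hp.one_lt.ne'
            · exact h2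
          have h4 : p = q := (Nat.prime_dvd_prime_iff_eq hp hq).1 h3
          rw [h4] at hpm
          exact hq.one_lt.ne' (Nat.dvd_one.1 (hqm ▸ Nat.dvd_gcd dvd_rfl hpm))
      rw [← mul_assoc] at hdiv
      have h1 : q₁ ∣ 4 * q' := hcop.dvd_of_dvd_mul_right hdiv
      have h2 := Nat.le_of_dvd (by omega) h1
      have h3 : 4 * q' ≤ 4 * q := Nat.mul_le_mul_left _ hq'le
      omega
  -- the primes
  set Q := ((Nat.primesLE y).erase 2 |>.erase q |>.erase l) with hQ
  have hQp : ∀ p ∈ Q, p.Prime := by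
    intro p hp
    rw [hQ, mem_erase, mem_erase, mem_erase] at hp
    exact (Nat.mem_primesLE.1 hp.2.2.2).2
  have hQc : Nat.primeCounting y - 3 ≤ Q.card := by
    have e1 : (Nat.primesLE y).card = Nat.primeCounting y := Nat.primesLE_card_eq_primeCounting _
    have e2 := Finset.pred_card_le_card_erase (s := Nat.primesLE y) (a := 2)
    have e3 := Finset.pred_card_le_card_erase (s := (Nat.primesLE y).erase 2) (a := q)
    have e4 := Finset.pred_card_le_card_erase (s := ((Nat.primesLE y).erase 2).erase q) (a := l)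
    rw [← hQ] at e4
    omega
  set D := (Q.powersetCard j).image (fun D => ∏ p ∈ D, p) with hD
  have hDc : (Nat.primeCounting y - 3).choose j ≤ D.card := by
    rw [hD, card_prods Q hQp]
    exact Nat.choose_le_choose j hQc
  have hDprop : ∀ d ∈ D, 0 < d ∧ Odd d ∧ q.Coprime d ∧ ¬ l ∣ d ∧ d ≤ y ^ j ∧ d ∣ ∏ p ∈ Q, p := by
    intro d hd
    rw [hD, mem_image] at hd
    obtain ⟨S, hS, rfl⟩ := hd
    rw [mem_powersetCard] at hS
    have hSp : ∀ p ∈ S, p.Prime ∧ p ≤ y ∧ p ≠ 2 ∧ p ≠ q ∧ p ≠ l := by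
      intro p hp
      have := hS.1 hp
      rw [hQ, mem_erase, mem_erase, mem_erase] at this
      have h2 := Nat.mem_primesLE.1 this.2.2.2
      exact ⟨h2.2, h2.1, this.2.2.1, this.2.1, this.1⟩
    refine ⟨prod_pos fun p hp => (hSp p hp).1.pos, ?_, ?_, ?_, ?_, ?_⟩
    · apply Finset.prod_induction _ Odd (fun a b => Odd.mul) odd_one
      intro p hp
      exact (hSp p hp).1.odd_of_ne_two (hSp p hp).2.2.1
    · apply Nat.Coprime.prod_right
      intro p hp
      exact (Nat.coprime_primes hq (hSp p hp).1).2 (hSp p hp).2.2.2.1.symm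
    · intro hl1
      rcases hl0 with h0 | h0
      · rw [h0] at hl1
        have h2 := Nat.eq_zero_of_zero_dvd hl1
        have h3 : 0 < ∏ p ∈ S, p := prod_pos fun p hp => (hSp p hp).1.pos
        omega
      · obtain ⟨p, hp, hlp⟩ := (Nat.Prime.prime h0).exists_mem_finset_dvd hl1
        exact (hSp p hp).2.2.2.2 ((Nat.prime_dvd_prime_iff_eq h0 (hSp p hp).1).1 hlp).symm
    · calc ∏ p ∈ S, p ≤ ∏ p ∈ S, y := prod_le_prod' fun p hp => (hSp p hp).2.1
        _ = y ^ j := by rw [prod_const, hS.2]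
    · exact prod_dvd_prod_of_subset _ _ _ hS.1
  have hjc : 0 < (Nat.primeCounting y - 3).choose j := Nat.choose_pos (by omega)
  have hD0 : 0 < D.card := lt_of_lt_of_le hjc hDc
  obtain ⟨k, hkodd, hkz, hk⟩ := popular (z := z) (K := K) (q' := q') (c := c) D
    (fun d hd => (hDprop d hd).1) hq'0 hz hK hc hD0 (by
      intro d hd
      obtain ⟨g1, g2, g3, g4, g5, g6⟩ := hDprop d hd
      have hm0 : 0 < 4 * (q' * d) := by positivity
      have h1 := h (4 * (q' * d)) (1 + 2 * (q' * d)) hm0 ?_ (hl d g2 g3 g4) ?_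
      · refine le_trans ?_ h1
        apply div_le_div_of_nonneg_left hc.le
        · exact_mod_cast Nat.totient_pos.2 hm0
        · exact_mod_cast Nat.totient_le _
      · refine le_trans ?_ hy
        apply Nat.pow_le_pow_left
        calc 4 * (q' * d) = 4 * q' * d := by ring
          _ ≤ 4 * q * y ^ j := Nat.mul_le_mul (Nat.mul_le_mul_left _ hq'le) g5
      · have hodd : Odd (q' * d) := hq'odd.mul g2
        have e1 : Nat.Coprime (1 + 2 * (q' * d)) 2 := by
          rw [Nat.coprime_two_right]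
          exact ⟨q' * d, by ring⟩
        have e2 : Nat.Coprime (1 + 2 * (q' * d)) (q' * d) := by
          rw [add_comm, Nat.Coprime, Nat.gcd_comm]
          simp
        have e3 : Nat.Coprime (1 + 2 * (q' * d)) 4 := by
          have : Nat.Coprime (1 + 2 * (q' * d)) (2 ^ 2) := Nat.Coprime.pow_right 2 e1
          exact this
        exact Nat.Coprime.mul_right e3 e2)
  set G := D.filter (fun d => (1 + 2 * (q' * d) * k).Prime ∧ z < 1 + 2 * (q' * d) * k ∧
        1 + 2 * (q' * d) * k ≤ z ^ K) with hG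
  refine ⟨G.image (fun d => 1 + 2 * (q' * d) * k), 2 * q' * k * ∏ p ∈ Q, p, ?_, ?_, ?_, ?_, ?_⟩
  · intro t ht
    rw [mem_image] at ht
    obtain ⟨d, hd, rfl⟩ := ht
    rw [hG, mem_filter] at hd
    obtain ⟨hd1, hd2, hd3, hd4⟩ := hd
    obtain ⟨g1, g2, g3, g4, g5, g6⟩ := hDprop d hd1
    refine ⟨hd2, hd3, hd4, ?_, ?_⟩
    · have e1 : 1 + 2 * (q' * d) * k - 1 = 2 * q' * k * d := by
        rw [Nat.add_sub_cancel_left]; ring
      rw [e1]
      exact Nat.mul_dvd_mul_left _ g6
    · have e1 : 1 + 2 * (q' * d) * k - 1 = 2 * q' * (d * k) := by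
        rw [Nat.add_sub_cancel_left]; ring
      rw [e1]
      exact hqdvd.mul_right _
  · have h1 : 0 < ∏ p ∈ Q, p := prod_pos fun p hp => (hQp p hp).pos
    have h2 := hkodd.pos
    positivity
  · have h1 : Odd (∏ p ∈ Q, p) := by
      apply Finset.prod_induction _ Odd (fun a b => Odd.mul) odd_one
      intro p hp
      apply (hQp p hp).odd_of_ne_two
      rw [hQ, mem_erase, mem_erase, mem_erase] at hp
      exact hp.2.2.1
    have h2 : Odd (q' * k * ∏ p ∈ Q, p) := (hq'odd.mul hkodd).mul h1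
    intro h4
    have e1 : 2 * q' * k * ∏ p ∈ Q, p = 2 * (q' * k * ∏ p ∈ Q, p) := by ring
    rw [e1] at h4
    have h5 : 2 ∣ q' * k * ∏ p ∈ Q, p := by
      have : 2 * 2 ∣ 2 * (q' * k * ∏ p ∈ Q, p) := h4
      exact Nat.dvd_of_mul_dvd_mul_left (by norm_num) this
    exact (Nat.not_even_iff_odd.2 h2) (even_iff_two_dvd.2 h5)
  · have h1 : ∏ p ∈ Q, p ≤ 4 ^ y := by
      have e1 : ∏ p ∈ Q, p ∣ primorial y := by
        unfold primorial
        apply prod_dvd_prod_of_subset
        intro p hp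
        rw [hQ, mem_erase, mem_erase, mem_erase] at hp
        have h2 := Nat.mem_primesLE.1 hp.2.2.2
        rw [mem_filter, mem_range]
        exact ⟨by omega, h2.2⟩
      exact (Nat.le_of_dvd (primorial_pos y) e1).trans (primorial_le_four_pow y)
    exact Nat.mul_le_mul (Nat.mul_le_mul (Nat.mul_le_mul_left _ hq'le) hkz) h1
  · rw [card_image_of_injOn]
    · refine le_trans ?_ hk
      have hz0 : (0 : ℝ) < z := by exact_mod_cast (by omega : 0 < z)
      have hlogz : 0 < Real.log z := Real.log_pos (by exact_mod_cast (by omega : 1 < z))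
      apply div_le_div_of_nonneg_right _ (by positivity)
      apply mul_le_mul_of_nonneg_left _ hc.le
      exact_mod_cast hDc
    · intro d _ d' _ hdd
      simp only at hdd
      have h2 := hkodd.pos
      have e1 : 2 * q' * k * d = 2 * q' * k * d' := by
        have a1 : 2 * (q' * d) * k = 2 * q' * k * d := by ring
        have a2 : 2 * (q' * d') * k = 2 * q' * k * d' := by ring
        omega
      exact Nat.eq_of_mul_eq_mul_left (by positivity) e1

end Pool.Agent.Y353.PS
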