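import Mathlib
import Pool.Agent.Y353.PS.Sup
import Pool.Agent.TH194.BL.Fin3

/-!
Many primes `t` with a common small multiple of the numbers `t - 1`: choice of the parameters.
-/

set_option autoImplicit false

namespace Pool.Agent.Y353.PS

open Finset Filter Topology

/-- Chebyshev's lower bound in a weak form -/
theorem pi_lower : ∀ᶠ n : ℕ in atTop, (n : ℝ) ^ (19 / 20 : ℝ) + 3 ≤ (Nat.primeCounting n : ℝ) := by
  have e1 : ∀ᶠ x : ℝ in atTop, Real.log x ≤ x ^ (1 / 40 : ℝ) := by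
    have h := (isLittleO_log_rpow_atTop (show (0 : ℝ) < 1 / 40 by norm_num)).bound
      (show (0 : ℝ) < 1 by norm_num)
    filter_upwards [h, eventually_ge_atTop 1] with x hx hx1
    rw [one_mul, Real.norm_of_nonneg (Real.log_nonneg hx1),
      Real.norm_of_nonneg (Real.rpow_nonneg (by linarith) _)] at hx
    exact hx
  have e2 : ∀ᶠ x : ℝ in atTop, (12 : ℝ) ≤ x ^ (1 / 40 : ℝ) :=
    (tendsto_rpow_atTop (by norm_num)).eventually_ge_atTop _
  filter_upwards [tendsto_natCast_atTop_atTop.eventually e1,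
    tendsto_natCast_atTop_atTop.eventually e2, eventually_ge_atTop 2] with n h1 h2 hn
  have hn2 : (2 : ℝ) ≤ n := by exact_mod_cast hn
  have hn0 : (0 : ℝ) < n := by linarith
  have hlog0 : 0 < Real.log n := Real.log_pos (by linarith)
  have h3 := Chebyshev.psi_ge n
  have h4 := Chebyshev.psi_le_primeCounting_mul_log n
  have h5 : Real.log ((n : ℝ) + 1) ≤ 2 * Real.log n := by
    have e : (n : ℝ) + 1 ≤ (n : ℝ) ^ 2 := by nlinarith
    calc Real.log ((n : ℝ) + 1) ≤ Real.log ((n : ℝ) ^ 2) := Real.log_le_log (by linarith) e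
      _ = 2 * Real.log n := by rw [Real.log_pow]; norm_num
  have h6 : (1 : ℝ) / 2 ≤ Real.log 2 := by have := Real.log_two_gt_d9; linarith
  have hp1 : (n : ℝ) ^ (39 / 40 : ℝ) = (n : ℝ) ^ (19 / 20 : ℝ) * (n : ℝ) ^ (1 / 40 : ℝ) := by
    rw [← Real.rpow_add hn0]; norm_num
  have hp2 : (n : ℝ) = (n : ℝ) ^ (39 / 40 : ℝ) * (n : ℝ) ^ (1 / 40 : ℝ) := by
    rw [← Real.rpow_add hn0]; norm_num
  have hq1 : (1 : ℝ) ≤ (n : ℝ) ^ (19 / 20 : ℝ) := Real.one_le_rpow (by linarith) (by norm_num)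
  have hq2 : (0 : ℝ) < (n : ℝ) ^ (39 / 40 : ℝ) := by positivity
  have key : ((n : ℝ) ^ (19 / 20 : ℝ) + 3) * Real.log n ≤ (Nat.primeCounting n : ℝ) * Real.log n := by
    have a1 : ((n : ℝ) ^ (19 / 20 : ℝ) + 3) * Real.log n ≤ 4 * (n : ℝ) ^ (39 / 40 : ℝ) := by
      calc ((n : ℝ) ^ (19 / 20 : ℝ) + 3) * Real.log n ≤
          (4 * (n : ℝ) ^ (19 / 20 : ℝ)) * (n : ℝ) ^ (1 / 40 : ℝ) :=
            mul_le_mul (by linarith) h1 hlog0.le (by positivity)
        _ = _ := by rw [hp1]; ring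
    have a2 : Real.log n ≤ (n : ℝ) ^ (39 / 40 : ℝ) := by
      refine h1.trans ?_
      exact Real.rpow_le_rpow_of_exponent_le (by linarith) (by norm_num)
    have a3 : 12 * (n : ℝ) ^ (39 / 40 : ℝ) ≤ n := by
      calc 12 * (n : ℝ) ^ (39 / 40 : ℝ) = (n : ℝ) ^ (39 / 40 : ℝ) * 12 := by ring
        _ ≤ (n : ℝ) ^ (39 / 40 : ℝ) * (n : ℝ) ^ (1 / 40 : ℝ) :=
            mul_le_mul_of_nonneg_left h2 hq2.le
        _ = n := hp2.symm
    have a4 : (n : ℝ) * (1 / 2) ≤ n * Real.log 2 := mul_le_mul_of_nonneg_left h6 hn0.le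
    linarith
  exact le_of_mul_le_mul_right key hlog0

/-- powers of `log L` are small -/
theorem ev_log (C δ : ℝ) (hδ : 0 < δ) : ∀ᶠ L : ℝ in atTop, C * Real.log L ≤ L ^ δ := by
  have h := ((isLittleO_log_rpow_atTop hδ).const_mul_left C).bound (show (0 : ℝ) < 1 by norm_num)
  filter_upwards [h, eventually_ge_atTop 0] with x hx hx1
  rw [one_mul, Real.norm_of_nonneg (Real.rpow_nonneg hx1 _)] at hx
  exact (Real.le_norm_self _).trans hx

/-- many primes `t` for which `t - 1` divides one number `lam` -/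
theorem supply (page : ∃ (K : ℕ) (c : ℝ), 1 ≤ K ∧ 0 < c ∧ ∀ B : ℕ, ∃ z0 : ℕ, ∀ z : ℕ, z0 ≤ z →
    ∃ q₁ : ℕ, (Real.log z) ^ B < (q₁ : ℝ) ∧
    ∀ q b : ℕ, 0 < q → q ^ 16 ≤ z → ¬ q₁ ∣ q → b.Coprime q →
    c / (q.totient : ℝ) ≤
      ∑ p ∈ (Ioc z (z ^ K)).filter (fun p => p.Prime ∧ p ≡ b [MOD q]), (1 : ℝ) / p) :
    ∃ K : ℕ, 1 ≤ K ∧ ∀ B : ℕ, ∃ z0 : ℕ, ∀ z : ℕ, z0 ≤ z → ∀ q : ℕ, q.Prime →
      (q : ℝ) ≤ (Real.log z) ^ B → ∃ (P : Finset ℕ) (lam : ℕ),
      (∀ t ∈ P, t.Prime ∧ z < t ∧ t ≤ z ^ K ∧ t - 1 ∣ lam ∧ q ∣ t - 1) ∧ 0 < lam ∧ ¬ 4 ∣ lam ∧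
      Real.log lam ≤ (Real.log z) ^ (19 / 10 : ℝ) / 2 ∧ (z : ℝ) ^ (1 / 100 : ℝ) ≤ (P.card : ℝ) := by
  obtain ⟨K, c, hK, hc, hpage⟩ := page
  refine ⟨K, hK, fun B => ?_⟩
  obtain ⟨z1, hz1⟩ := hpage (B + 1)
  obtain ⟨n0, hn0⟩ := eventually_atTop.1 pi_lower
  have htL : Tendsto (fun z : ℕ => Real.log (z : ℝ)) atTop atTop :=
    Real.tendsto_log_atTop.comp tendsto_natCast_atTop_atTop
  have v1 := htL.eventually (ev_log (1 + (100 * B + 100)) 1 (by norm_num))
  have v2 := htL.eventually (ev_log (1000 * B) 1 (by norm_num))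
  have v3 : ∀ᶠ z : ℕ in atTop, 1000 + (n0 : ℝ) + 2 ≤ Real.log z := htL.eventually_ge_atTop _
  have v4 : ∀ᶠ z : ℕ in atTop, 4 ≤ (Real.log z) ^ (11 / 100 : ℝ) :=
    ((tendsto_rpow_atTop (by norm_num)).comp htL).eventually_ge_atTop _
  have v5 : ∀ᶠ z : ℕ in atTop, 2 * (2 + (K : ℝ) + 2) ≤ (Real.log z) ^ (1 / 10 : ℝ) :=
    ((tendsto_rpow_atTop (by norm_num)).comp htL).eventually_ge_atTop _
  have v6 : ∀ᶠ z : ℕ in atTop, (2 * (1 + K) / c) * (Real.log z) ^ 2 ≤ (z : ℝ) ^ (1 / 200 : ℝ) := by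
    have h := ((isLittleO_log_rpow_rpow_atTop (s := 1 / 200) 2 (by norm_num)).const_mul_left
      (2 * (1 + K) / c)).bound (show (0 : ℝ) < 1 by norm_num)
    filter_upwards [tendsto_natCast_atTop_atTop.eventually h, eventually_ge_atTop 1] with z hz hz1
    rw [one_mul, Real.norm_of_nonneg (Real.rpow_nonneg (Nat.cast_nonneg z) _)] at hz
    refine le_trans ?_ hz
    refine le_trans (le_of_eq ?_) (Real.le_norm_self _)
    norm_num
  obtain ⟨z2, hz2⟩ := eventually_atTop.1 (v1.and (v2.and (v3.and (v4.and (v5.and v6)))))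
  refine ⟨max (max z1 z2) 2, fun z hz q hq hqB => ?_⟩
  simp only [max_le_iff] at hz
  obtain ⟨⟨g1, g2⟩, g3⟩ := hz
  obtain ⟨w1, w2, w3, w4, w5, w6⟩ := hz2 z g2
  obtain ⟨q₁, hq₁, hsum⟩ := hz1 z g1
  set L := Real.log (z : ℝ) with hL
  have hzR : (0 : ℝ) < z := by exact_mod_cast (by omega : 0 < z)
  have hn0R : (0 : ℝ) ≤ n0 := Nat.cast_nonneg _
  have hL0 : 0 < L := by linarith
  have hL1 : 1 ≤ L := by linarith
  have hL1000 : 1000 ≤ L := by linarith
  have hzexp : (z : ℝ) = Real.exp L := (Real.exp_log hzR).symm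
  have hll : 1 ≤ Real.log L := by
    rw [Real.le_log_iff_exp_le hL0]
    have := Real.exp_one_lt_d9
    linarith
  have hll0 : 0 < Real.log L := by linarith
  rw [Real.rpow_one] at w1 w2
  have hBR : (0 : ℝ) ≤ B := Nat.cast_nonneg B
  have hllL : 100 * Real.log L ≤ L := by
    have : 0 ≤ (B : ℝ) * Real.log L := by positivity
    nlinarith
  -- parameters
  set y := ⌊L ^ (9 / 5 : ℝ)⌋₊ with hy
  set j := ⌊L / (40 * Real.log L)⌋₊ with hj
  have hjle : (j : ℝ) ≤ L / (40 * Real.log L) := Nat.floor_le (by positivity)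
  have hjge : L / (40 * Real.log L) - 1 ≤ (j : ℝ) := by
    have := Nat.lt_floor_add_one (L / (40 * Real.log L)); linarith
  have hjlog : (j : ℝ) * Real.log L ≤ L / 40 := by
    calc (j : ℝ) * Real.log L ≤ L / (40 * Real.log L) * Real.log L :=
          mul_le_mul_of_nonneg_right hjle hll0.le
      _ = L / 40 := by field_simp
  have hjL : (j : ℝ) ≤ L / 40 := by
    calc (j : ℝ) = j * 1 := (mul_one _).symm
      _ ≤ j * Real.log L := mul_le_mul_of_nonneg_left hll (Nat.cast_nonneg _)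
      _ ≤ L / 40 := hjlog
  have hyle : (y : ℝ) ≤ L ^ (9 / 5 : ℝ) := Nat.floor_le (by positivity)
  have hL95 : L ≤ L ^ (9 / 5 : ℝ) := by
    calc L = L ^ (1 : ℝ) := (Real.rpow_one L).symm
      _ ≤ _ := Real.rpow_le_rpow_of_exponent_le hL1 (by norm_num)
  have hyge : L ^ (9 / 5 : ℝ) / 2 ≤ (y : ℝ) := by
    have := Nat.lt_floor_add_one (L ^ (9 / 5 : ℝ)); rw [← hy] at this
    linarith
  have hyn0 : n0 ≤ y := by
    have : (n0 : ℝ) ≤ y := by
      have h1 := Nat.lt_floor_add_one (L ^ (9 / 5 : ℝ)); rw [← hy] at h1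
      linarith
    exact_mod_cast this
  have hpi := hn0 y hyn0
  have hy1 : (1 : ℝ) ≤ y := by linarith
  have hy85 : L ^ (8 / 5 : ℝ) ≤ (y : ℝ) ^ (19 / 20 : ℝ) := by
    have h1 : (L ^ (9 / 5 : ℝ) / 2) ^ (19 / 20 : ℝ) ≤ (y : ℝ) ^ (19 / 20 : ℝ) :=
      Real.rpow_le_rpow (by positivity) hyge (by norm_num)
    refine le_trans ?_ h1
    rw [Real.div_rpow (by positivity) (by norm_num), ← Real.rpow_mul hL0.le,
      le_div_iff₀ (by positivity)]
    have h2 : (2 : ℝ) ^ (19 / 20 : ℝ) ≤ 4 := by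
      calc (2 : ℝ) ^ (19 / 20 : ℝ) ≤ 2 ^ (1 : ℝ) :=
            Real.rpow_le_rpow_of_exponent_le (by norm_num) (by norm_num)
        _ ≤ 4 := by norm_num
    calc L ^ (8 / 5 : ℝ) * 2 ^ (19 / 20 : ℝ) ≤ L ^ (8 / 5 : ℝ) * L ^ (11 / 100 : ℝ) := by
          apply mul_le_mul_of_nonneg_left (h2.trans w4) (by positivity)
      _ = L ^ (9 / 5 * (19 / 20) : ℝ) := by
          rw [← Real.rpow_add hL0]; norm_num
  set M := Nat.primeCounting y - 3 with hM
  have hM3 : 3 ≤ Nat.primeCounting y := by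
    have h1 : (0 : ℝ) ≤ (y : ℝ) ^ (19 / 20 : ℝ) := by positivity
    have : (3 : ℝ) ≤ Nat.primeCounting y := by linarith
    exact_mod_cast this
  have hMR : L ^ (8 / 5 : ℝ) ≤ (M : ℝ) := by
    rw [hM, Nat.cast_sub hM3]
    push_cast
    linarith
  have hL85 : L ≤ L ^ (8 / 5 : ℝ) := by
    calc L = L ^ (1 : ℝ) := (Real.rpow_one L).symm
      _ ≤ _ := Real.rpow_le_rpow_of_exponent_le hL1 (by norm_num)
  have hjM : 2 * j ≤ M := by
    have : ((2 * j : ℕ) : ℝ) ≤ M := by push_cast; linarith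
    exact_mod_cast this
  -- the exceptional modulus
  have hq1' : 4 * q < q₁ := by
    have h1 : (4 * q : ℝ) < q₁ := by
      calc (4 * q : ℝ) ≤ L * L ^ B := by
            apply mul_le_mul _ hqB (by positivity) hL0.le
            linarith
        _ = L ^ (B + 1) := by rw [pow_succ]; ring
        _ < q₁ := hq₁
    exact_mod_cast h1
  have hqR0 : (0 : ℝ) < q := by exact_mod_cast hq.pos
  have hlogq : Real.log q ≤ B * Real.log L := by
    have := Real.log_le_log hqR0 hqB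
    rwa [Real.log_pow] at this
  have hlog4 : Real.log 4 ≤ 2 := by
    have h1 : Real.log 4 = 2 * Real.log 2 := by
      rw [show (4 : ℝ) = 2 ^ 2 by norm_num, Real.log_pow]; norm_num
    have := Real.log_two_lt_d9
    linarith
  have hlogy : Real.log y ≤ 9 / 5 * Real.log L := by
    have := Real.log_le_log (by linarith) hyle
    rwa [Real.log_rpow hL0] at this
  have hcond : (4 * q * y ^ j) ^ 16 ≤ z := by
    have h1 : (((4 * q * y ^ j) ^ 16 : ℕ) : ℝ) ≤ (z : ℝ) := by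
      have hy0 : (0 : ℝ) < y := by linarith
      have hpos : 0 < (4 * q * y ^ j) ^ 16 := by
        have := hq.pos
        have : 0 < y := by exact_mod_cast hy0
        positivity
      rw [← Real.log_le_log_iff (by exact_mod_cast hpos) hzR]
      push_cast
      rw [Real.log_pow, Real.log_mul (by positivity) (by positivity),
        Real.log_mul (by norm_num) (by positivity), Real.log_pow]
      have h2 : (j : ℝ) * Real.log y ≤ 9 / 5 * (L / 40) := by
        calc (j : ℝ) * Real.log y ≤ j * (9 / 5 * Real.log L) :=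
              mul_le_mul_of_nonneg_left hlogy (Nat.cast_nonneg _)
          _ = 9 / 5 * (j * Real.log L) := by ring
          _ ≤ 9 / 5 * (L / 40) := by linarith
      push_cast
      linarith
    exact_mod_cast h1
  obtain ⟨P, lam, p1, p2, p3, p4, p5⟩ := supply_of g3 hK hc hq hq1' hsum hcond (by omega)
  refine ⟨P, lam, p1, p2, p3, ?_, ?_⟩
  · have h1 : (lam : ℝ) ≤ 2 * q * (z : ℝ) ^ K * 4 ^ y := by exact_mod_cast p4
    have h2 : Real.log lam ≤ Real.log 2 + B * Real.log L + K * L + y * Real.log 4 := by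
      have := Real.log_le_log (by exact_mod_cast p2) h1
      rw [Real.log_mul (by positivity) (by positivity), Real.log_mul (by positivity) (by positivity),
        Real.log_mul (by norm_num) (by positivity), Real.log_pow, Real.log_pow, ← hL] at this
      linarith
    have h3 : L ^ (19 / 10 : ℝ) = L ^ (9 / 5 : ℝ) * L ^ (1 / 10 : ℝ) := by
      rw [← Real.rpow_add hL0]; norm_num
    have h4 : (y : ℝ) * Real.log 4 ≤ 2 * L ^ (9 / 5 : ℝ) := by
      calc (y : ℝ) * Real.log 4 ≤ L ^ (9 / 5 : ℝ) * 2 :=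
            mul_le_mul hyle hlog4 (Real.log_nonneg (by norm_num)) (by positivity)
        _ = _ := by ring
    have h5 : (K : ℝ) * L ≤ K * L ^ (9 / 5 : ℝ) :=
      mul_le_mul_of_nonneg_left hL95 (Nat.cast_nonneg _)
    have h6 : Real.log 2 ≤ L ^ (9 / 5 : ℝ) := by
      have := Real.log_two_lt_d9
      linarith
    have h7 : (B : ℝ) * Real.log L ≤ L ^ (9 / 5 : ℝ) := by
      have : 0 ≤ (B : ℝ) * Real.log L := by positivity
      linarith
    have h8 : (2 + (K : ℝ) + 2) * L ^ (9 / 5 : ℝ) ≤ L ^ (19 / 10 : ℝ) / 2 := by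
      rw [h3]
      have : (2 + (K : ℝ) + 2) * L ^ (9 / 5 : ℝ) ≤ (L ^ (1 / 10 : ℝ) / 2) * L ^ (9 / 5 : ℝ) := by
        apply mul_le_mul_of_nonneg_right _ (by positivity)
        linarith
      linarith
    linarith
  · refine le_trans ?_ p5
    have h1 := Pool.Agent.TH194.BL.choose_lower' hjM
    have h2 : (z : ℝ) ^ (3 / 200 : ℝ) / L ≤ ((M.choose j : ℕ) : ℝ) := by
      refine le_trans ?_ h1
      have h3 : L ^ (3 / 5 : ℝ) ≤ (M : ℝ) / (2 * j) ∨ j = 0 := by
        rcases Nat.eq_zero_or_pos j with h0 | h0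
        · exact Or.inr h0
        · left
          have hj0 : (0 : ℝ) < j := by exact_mod_cast h0
          rw [le_div_iff₀ (by positivity)]
          calc L ^ (3 / 5 : ℝ) * (2 * j) ≤ L ^ (3 / 5 : ℝ) * L :=
                mul_le_mul_of_nonneg_left (by linarith) (by positivity)
            _ = L ^ (8 / 5 : ℝ) := by
                nth_rewrite 2 [← Real.rpow_one L]
                rw [← Real.rpow_add hL0]; norm_num
            _ ≤ M := hMR
      have h4 : Real.exp (3 / 5 * Real.log L * j) ≤ ((M : ℝ) / (2 * j)) ^ j := by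
        rcases h3 with h3 | h3
        · calc Real.exp (3 / 5 * Real.log L * j) = (L ^ (3 / 5 : ℝ)) ^ j := by
                rw [Real.rpow_def_of_pos hL0, ← Real.exp_nat_mul]
                congr 1; ring
            _ ≤ _ := pow_le_pow_left₀ (by positivity) h3 j
        · rw [h3]; simp
      refine le_trans ?_ h4
      rw [hzexp, ← Real.exp_mul]
      nth_rewrite 2 [← Real.exp_log hL0]
      rw [← Real.exp_sub, Real.exp_le_exp]
      have h5 : 3 / 5 * Real.log L * (L / (40 * Real.log L) - 1) ≤ 3 / 5 * Real.log L * j :=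
        mul_le_mul_of_nonneg_left hjge (by positivity)
      have h6 : 3 / 5 * Real.log L * (L / (40 * Real.log L) - 1) = 3 / 200 * L - 3 / 5 * Real.log L := by
        field_simp
        ring
      linarith
    have hS0 : 0 < 2 * (1 + K * L) := by positivity
    rw [le_div_iff₀ hS0]
    have h3 : (z : ℝ) ^ (3 / 200 : ℝ) = (z : ℝ) ^ (1 / 100 : ℝ) * (z : ℝ) ^ (1 / 200 : ℝ) := by
      rw [← Real.rpow_add hzR]; norm_num
    have h4 : c * ((z : ℝ) ^ (3 / 200 : ℝ) / L) ≤ c * ((M.choose j : ℕ) : ℝ) :=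
      mul_le_mul_of_nonneg_left h2 hc.le
    refine le_trans ?_ h4
    rw [h3]
    have h5 : (2 * (1 + K * L)) * L ≤ c * (z : ℝ) ^ (1 / 200 : ℝ) := by
      have a1 : (2 * (1 + K) / c) * L ^ 2 * c ≤ (z : ℝ) ^ (1 / 200 : ℝ) * c :=
        mul_le_mul_of_nonneg_right w6 hc.le
      have a2 : (2 * (1 + K) / c) * L ^ 2 * c = 2 * (1 + K) * L ^ 2 := by field_simp
      rw [a2] at a1
      have hKR : (0 : ℝ) ≤ K := Nat.cast_nonneg K
      have a3 : 1 + (K : ℝ) * L ≤ (1 + K) * L := by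
        rw [add_mul, one_mul]
        linarith
      calc (2 * (1 + K * L)) * L ≤ (2 * ((1 + K) * L)) * L :=
            mul_le_mul_of_nonneg_right (by linarith) hL0.le
        _ = 2 * (1 + K) * L ^ 2 := by ring
        _ ≤ (z : ℝ) ^ (1 / 200 : ℝ) * c := a1
        _ = _ := mul_comm _ _
    have h6 : 0 < (z : ℝ) ^ (1 / 100 : ℝ) := by positivity
    calc (z : ℝ) ^ (1 / 100 : ℝ) * (2 * (1 + K * L)) =
        (z : ℝ) ^ (1 / 100 : ℝ) * ((2 * (1 + K * L)) * L) / L := by field_simp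
      _ ≤ (z : ℝ) ^ (1 / 100 : ℝ) * (c * (z : ℝ) ^ (1 / 200 : ℝ)) / L := by gcongr
      _ = _ := by ring

end Pool.Agent.Y353.PS
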