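import Mathlib
import Pool.Agent.Y353.PS.Sup2
import Pool.Agent.Y353.PS.Page
import Pool.Agent.TH194.BL.Main
import Pool.Agent.TH194.BL.Fin5

/-!
A power saving for all exponents with a prime factor at most a power of `log N`.
-/

set_option autoImplicit false

namespace Pool.Agent.Y353.PS

open Finset Filter Topology
open Pool.Agent.TH194.BL

theorem card_primeFactors_log {n : ℕ} (hn : 0 < n) :
    (n.primeFactors.card : ℝ) * Real.log 2 ≤ Real.log n := by
  have h1 : 2 ^ n.primeFactors.card ≤ n := by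
    calc 2 ^ n.primeFactors.card = ∏ _p ∈ n.primeFactors, 2 := by rw [prod_const]
      _ ≤ ∏ p ∈ n.primeFactors, p :=
          prod_le_prod' fun p hp => (Nat.prime_of_mem_primeFactors hp).two_le
      _ ≤ n := Nat.le_of_dvd hn (Nat.prod_primeFactors_dvd n)
  rw [← Real.log_pow]
  apply Real.log_le_log (by positivity)
  exact_mod_cast h1

/-- the parameters for `L = log N`, `z = ⌊exp √L⌋` -/
structure Par' (k B K z₀ : ℕ) (L : ℝ) (z : ℕ) : Prop where
  l1 : 1 ≤ L
  zle : (z : ℝ) ≤ Real.exp (√L)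
  zge : √L - 1 ≤ Real.log z
  z0 : z₀ ≤ z
  zk : 16 * (k + 4) ^ 2 ≤ z
  qz : L ^ B ≤ Real.log z ^ (3 * B)
  l0 : 1 ≤ Real.log z
  jz : 6 * √L ≤ (z : ℝ) ^ (1 / 200 : ℝ)
  jz2 : 2 * √L ≤ (z : ℝ) ^ (1 / 100 : ℝ)
  fin : Real.log 2 + k * L ^ (19 / 20 : ℝ) + B * Real.log L * (2 * L ^ (19 / 20 : ℝ)) +
    k * Real.log 12 + √L ≤ (1 / (400 * K) - 1 / (500 * K)) * L

theorem ev_par' (k B K z₀ : ℕ) (hK : 1 ≤ K) : ∀ᶠ L : ℝ in atTop,
    Par' k B K z₀ L ⌊Real.exp (√L)⌋₊ := by
  have hsq : Tendsto (fun L : ℝ => √L) atTop atTop := Real.tendsto_sqrt_atTop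
  have hex : Tendsto (fun L : ℝ => Real.exp (√L)) atTop atTop := Real.tendsto_exp_atTop.comp hsq
  have hfl : Tendsto (fun L : ℝ => ⌊Real.exp (√L)⌋₊) atTop atTop := tendsto_nat_floor_atTop.comp hex
  have hflR : Tendsto (fun L : ℝ => ((⌊Real.exp (√L)⌋₊ : ℕ) : ℝ)) atTop atTop :=
    tendsto_natCast_atTop_atTop.comp hfl
  have hKR : (1 : ℝ) ≤ K := by exact_mod_cast hK
  have e1 := eventually_ge_atTop (max 1 ((64 : ℝ)))
  have e2 : ∀ᶠ L : ℝ in atTop, (2 : ℝ) ≤ Real.exp (√L) := hex.eventually_ge_atTop _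
  have e3 := hfl.eventually (eventually_ge_atTop z₀)
  have e4 := hfl.eventually (eventually_ge_atTop (16 * (k + 4) ^ 2))
  -- `6 √L ≤ z ^ (1/200)`
  have e5 : ∀ᶠ L : ℝ in atTop, 12 * √L ≤ Real.exp (√L / 200) := by
    have h := (Real.tendsto_exp_div_pow_atTop 1).comp (hsq.atTop_div_const (show (0 : ℝ) < 200 by norm_num))
    have h2 := h.eventually_ge_atTop 2400
    filter_upwards [h2, eventually_gt_atTop 0] with L hL hL0
    simp only [Function.comp_apply, pow_one] at hL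
    have : 0 < √L := Real.sqrt_pos.2 hL0
    rw [le_div_iff₀ (by positivity)] at hL
    linarith
  have e6 := ev_log (B * 40) (1 / 40) (by norm_num)
  have e7 : ∀ᶠ L : ℝ in atTop, 40000 * (K : ℝ) * (k + 4) ≤ L ^ (1 / 80 : ℝ) :=
    (tendsto_rpow_atTop (by norm_num)).eventually_ge_atTop _
  filter_upwards [e1, e2, e3, e4, e5, e6, e7] with L h1 h2 h3 h4 h5 h6 h7
  have hL1 : 1 ≤ L := (le_max_left _ _).trans h1
  have hL64 : 64 ≤ L := (le_max_right _ _).trans h1
  have hL0 : 0 < L := by linarith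
  set z := ⌊Real.exp (√L)⌋₊ with hz
  have hs8 : 8 ≤ √L := by
    rw [Real.le_sqrt (by norm_num) hL0.le]; norm_num; exact hL64
  have hsL : √L * √L = L := Real.mul_self_sqrt hL0.le
  have hsleL : √L ≤ L := by nlinarith
  have hzle : (z : ℝ) ≤ Real.exp (√L) := Nat.floor_le (Real.exp_nonneg _)
  have hzge : Real.exp (√L) / 2 ≤ (z : ℝ) := by
    have := Nat.lt_floor_add_one (Real.exp (√L))
    rw [← hz] at this
    linarith
  have hz0 : (0 : ℝ) < z := by linarith [Real.exp_pos (√L)]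
  have hlogz : √L - 1 ≤ Real.log z := by
    have h8 := Real.log_le_log (by positivity) hzge
    rw [Real.log_div (Real.exp_pos _).ne' (by norm_num), Real.log_exp] at h8
    have := Real.log_two_lt_d9
    linarith
  have hlogz7 : 7 ≤ Real.log z := by linarith
  have hllz : √L / 2 ≤ Real.log z := by linarith
  have hLz : L ≤ Real.log z ^ 3 := by
    have a1 : L ≤ 4 * Real.log z ^ 2 := by nlinarith
    have a2 : 4 * Real.log z ^ 2 ≤ Real.log z * Real.log z ^ 2 := by
      apply mul_le_mul_of_nonneg_right (by linarith) (by positivity)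
    calc L ≤ Real.log z * Real.log z ^ 2 := a1.trans a2
      _ = Real.log z ^ 3 := by ring
  have hzp : Real.exp (√L / 200) / 2 ≤ (z : ℝ) ^ (1 / 200 : ℝ) := by
    calc Real.exp (√L / 200) / 2 ≤ Real.exp (√L / 200) / 2 ^ (1 / 200 : ℝ) := by
          apply div_le_div_of_nonneg_left (Real.exp_nonneg _) (by positivity)
          calc (2 : ℝ) ^ (1 / 200 : ℝ) ≤ 2 ^ (1 : ℝ) :=
                Real.rpow_le_rpow_of_exponent_le (by norm_num) (by norm_num)
            _ = 2 := Real.rpow_one 2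
      _ = (Real.exp (√L) / 2) ^ (1 / 200 : ℝ) := by
          rw [Real.div_rpow (Real.exp_nonneg _) (by norm_num), ← Real.exp_mul]
          congr 2; ring
      _ ≤ _ := Real.rpow_le_rpow (by positivity) hzge (by norm_num)
  have hz1 : (1 : ℝ) ≤ z := by
    have : (1 : ℝ) ≤ Real.exp (√L) / 2 := by linarith
    linarith
  refine ⟨hL1, hzle, hlogz, h3, h4, ?_, by linarith, by linarith, ?_, ?_⟩
  · rw [pow_mul]
    exact pow_le_pow_left₀ hL0.le hLz B
  · have : (z : ℝ) ^ (1 / 200 : ℝ) ≤ (z : ℝ) ^ (1 / 100 : ℝ) :=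
      Real.rpow_le_rpow_of_exponent_le hz1 (by norm_num)
    linarith
  · -- the final inequality
    have hq0 : 0 < L ^ (1 / 80 : ℝ) := by positivity
    have f1 : L ^ (19 / 20 : ℝ) ≤ L ^ (39 / 40 : ℝ) :=
      Real.rpow_le_rpow_of_exponent_le hL1 (by norm_num)
    have f2 : L ^ (39 / 40 : ℝ) = L ^ (19 / 20 : ℝ) * L ^ (1 / 40 : ℝ) := by
      rw [← Real.rpow_add hL0]; norm_num
    have f3 : L = L ^ (39 / 40 : ℝ) * (L ^ (1 / 80 : ℝ) * L ^ (1 / 80 : ℝ)) := by
      rw [← Real.rpow_add hL0, ← Real.rpow_add hL0]; norm_num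
    have f4 : 1 ≤ L ^ (39 / 40 : ℝ) := Real.one_le_rpow hL1 (by norm_num)
    have f5 : √L ≤ L ^ (39 / 40 : ℝ) := by
      rw [Real.sqrt_eq_rpow]
      exact Real.rpow_le_rpow_of_exponent_le hL1 (by norm_num)
    have f6 : (B : ℝ) * Real.log L * (2 * L ^ (19 / 20 : ℝ)) ≤ L ^ (39 / 40 : ℝ) := by
      have a1 : (B : ℝ) * Real.log L * 2 ≤ L ^ (1 / 40 : ℝ) := by
        have hlog0 : 0 ≤ Real.log L := Real.log_nonneg hL1
        have : 0 ≤ (B : ℝ) * Real.log L := by positivity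
        linarith
      rw [f2]
      calc (B : ℝ) * Real.log L * (2 * L ^ (19 / 20 : ℝ)) =
          L ^ (19 / 20 : ℝ) * ((B : ℝ) * Real.log L * 2) := by ring
        _ ≤ _ := mul_le_mul_of_nonneg_left a1 (by positivity)
    have f7 : Real.log 2 ≤ L ^ (39 / 40 : ℝ) := by
      have := Real.log_two_lt_d9
      linarith
    have f8 : (k : ℝ) * Real.log 12 ≤ 3 * k * L ^ (39 / 40 : ℝ) := by
      have a1 : Real.log 12 ≤ 3 := by
        rw [Real.log_le_iff_le_exp (by norm_num)]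
        have := Real.exp_one_gt_d9
        have h3 : Real.exp 3 = Real.exp 1 ^ 3 := by rw [← Real.exp_nat_mul]; norm_num
        rw [h3]
        calc (12 : ℝ) ≤ 2.7 ^ 3 := by norm_num
          _ ≤ Real.exp 1 ^ 3 := pow_le_pow_left₀ (by norm_num) (by linarith) 3
      have hk0 : (0 : ℝ) ≤ k := Nat.cast_nonneg k
      calc (k : ℝ) * Real.log 12 ≤ k * 3 := mul_le_mul_of_nonneg_left a1 hk0
        _ = 3 * k * 1 := by ring
        _ ≤ _ := mul_le_mul_of_nonneg_left f4 (by positivity)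
    have f9 : (k : ℝ) * L ^ (19 / 20 : ℝ) ≤ k * L ^ (39 / 40 : ℝ) :=
      mul_le_mul_of_nonneg_left f1 (Nat.cast_nonneg k)
    have f10 : (4 * (k : ℝ) + 4) * L ^ (39 / 40 : ℝ) ≤ (1 / (400 * K) - 1 / (500 * K)) * L := by
      have a1 : (1 : ℝ) / (400 * K) - 1 / (500 * K) = 1 / (2000 * K) := by
        field_simp; norm_num
      rw [a1]
      have a2 : (1 : ℝ) / (2000 * K) * L = (L ^ (39 / 40 : ℝ)) *
          ((L ^ (1 / 80 : ℝ) * L ^ (1 / 80 : ℝ)) / (2000 * K)) := by
        nth_rewrite 1 [f3]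
        ring
      rw [a2, mul_comm]
      apply mul_le_mul_of_nonneg_left _ (by positivity)
      rw [le_div_iff₀ (by positivity)]
      have hk0 : (0 : ℝ) ≤ k := Nat.cast_nonneg k
      have a3 : 1 ≤ L ^ (1 / 80 : ℝ) := Real.one_le_rpow hL1 (by norm_num)
      calc (4 * (k : ℝ) + 4) * (2000 * K) ≤ 40000 * (K : ℝ) * (k + 4) := by nlinarith
        _ ≤ L ^ (1 / 80 : ℝ) := h7
        _ = L ^ (1 / 80 : ℝ) * 1 := (mul_one _).symm
        _ ≤ _ := mul_le_mul_of_nonneg_left a3 hq0.le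
    linarith

/-- one prime exponent `q ≤ (log N) ^ B`, one cube -/
theorem one_q : ∃ K : ℕ, 1 ≤ K ∧ ∀ k B : ℕ, ∃ N₀ : ℕ, ∀ N : ℕ, N₀ ≤ N → ∀ q : ℕ, q.Prime →
    (q : ℝ) ≤ Real.log N ^ B → ∀ a : Fin k → ℕ, ∀ E : Finset (Fin k → ℕ),
    (∀ A ∈ E, A ∈ Cube a N ∧ A ∈ Exc k q 1) →
    (E.card : ℝ) ≤ (N : ℝ) ^ ((k : ℝ) - 1 / (500 * K)) := by
  classical
  obtain ⟨K, hK, hsup⟩ := supply page
  refine ⟨K, hK, fun k B => ?_⟩
  obtain ⟨z₀, hz₀⟩ := hsup (3 * B)
  have hev := (Real.tendsto_log_atTop.comp tendsto_natCast_atTop_atTop).eventually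
    (ev_par' k B K (max z₀ 2) hK)
  obtain ⟨N₀, hN₀⟩ := eventually_atTop.1 hev
  refine ⟨max N₀ 1, fun N hN q hq hqB a E hE => ?_⟩
  have hN1 : 1 ≤ N := (le_max_right _ _).trans hN
  obtain ⟨z, hz⟩ : ∃ z : ℕ, z = ⌊Real.exp (√(Real.log N))⌋₊ := ⟨_, rfl⟩
  have hp : Par' k B K (max z₀ 2) (Real.log N) z := by
    rw [hz]; exact hN₀ N ((le_max_left _ _).trans hN)
  have hKR : (1 : ℝ) ≤ K := by exact_mod_cast hK
  set L := Real.log N with hL
  have hNR : (0 : ℝ) < N := by exact_mod_cast hN1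
  have hNexp : (N : ℝ) = Real.exp L := (Real.exp_log hNR).symm
  have hL0 : 0 < L := by linarith [hp.l1]
  have hsL : √L * √L = L := Real.mul_self_sqrt hL0.le
  have hz2 : 2 ≤ z := (le_max_right _ _).trans hp.z0
  have hzR : (0 : ℝ) < z := by exact_mod_cast (by omega : 0 < z)
  have hlogz : Real.log z ≤ √L := by
    have := Real.log_le_log hzR hp.zle
    rwa [Real.log_exp] at this
  obtain ⟨P, lam, p1, p2, p3, p4, p5⟩ := hz₀ z ((le_max_left _ _).trans hp.z0) q hq
    (hqB.trans hp.qz)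
  -- j and Q
  set j := ⌊√L / (2 * K)⌋₊ with hj
  have hjle : (j : ℝ) ≤ √L / (2 * K) := Nat.floor_le (by positivity)
  have hjge : √L / (2 * K) - 1 ≤ (j : ℝ) := by
    have := Nat.lt_floor_add_one (√L / (2 * K)); linarith
  have hjL : (j : ℝ) ≤ √L := hjle.trans (div_le_self (Real.sqrt_nonneg _) (by linarith))
  have hjK : (j : ℝ) * (2 * K) ≤ √L := by
    rwa [le_div_iff₀ (by positivity)] at hjle
  set Q := Nat.sqrt N with hQ
  have hQ2 : Q ^ 2 ≤ N := by rw [sq]; exact Nat.sqrt_le N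
  have hprod : ∀ D ∈ P.powersetCard j, ∏ t ∈ D, t ≤ Q := by
    intro D hD
    rw [mem_powersetCard] at hD
    rw [hQ, Nat.le_sqrt, ← sq]
    have h1 : ∏ t ∈ D, t ≤ z ^ (K * j) := by
      calc ∏ t ∈ D, t ≤ ∏ t ∈ D, z ^ K := prod_le_prod' fun t ht => (p1 t (hD.1 ht)).2.2.1
        _ = z ^ (K * j) := by rw [prod_const, hD.2, pow_mul]
    have h2 : ((z ^ (K * j)) ^ 2 : ℕ) ≤ N := by
      have h3 : (((z ^ (K * j)) ^ 2 : ℕ) : ℝ) ≤ N := by
        rw [← Real.log_le_log_iff (by positivity) hNR]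
        push_cast
        rw [Real.log_pow, Real.log_pow, ← hL]
        push_cast
        calc (2 : ℝ) * (K * j * Real.log z) = (j * (2 * K)) * Real.log z := by ring
          _ ≤ √L * √L := mul_le_mul hjK hlogz (by linarith [hp.l0]) (Real.sqrt_nonneg _)
          _ = L := hsL
      exact_mod_cast h3
    exact (Nat.pow_le_pow_left h1 2).trans h2
  have hPc : (z : ℝ) ^ (1 / 100 : ℝ) ≤ (P.card : ℝ) := p5
  have hjP : 2 * j ≤ P.card := by
    have : ((2 * j : ℕ) : ℝ) ≤ P.card := by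
      push_cast
      have := hp.jz2
      linarith
    exact_mod_cast this
  -- the covering
  have hcov := card_exc_le loc (lsk add low) desc (k := k) hq (lam := lam) (N := N) (Q := Q) (j := j) a
    (P := P) (S := lam.primeFactors) (Y := 1) hN1 hQ2 (fun t ht => (p1 t ht).1)
    (fun t ht => (p1 t ht).2.2.2.1) (fun t ht => (p1 t ht).2.2.2.2)
    (fun t ht => hp.zk.trans (p1 t ht).2.1.le) hprod (by omega) p2 p3
    (fun p hp' => Nat.prime_of_mem_primeFactors hp')
    (fun p hp' hpl => Nat.mem_primeFactors.2 ⟨hp', hpl, p2.ne'⟩)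
    (fun p hp' hp1 => by
      exfalso
      have h1 : (2 : ℝ) ≤ p := by exact_mod_cast hp'.two_le
      linarith)
  have hEle : (E.card : ℝ) ≤ (((Cube a N).filter (fun A => A ∈ Exc k q 1)).card : ℝ) := by
    have : E ⊆ (Cube a N).filter (fun A => A ∈ Exc k q 1) := by
      intro A hA
      rw [mem_filter]
      exact hE A hA
    exact_mod_cast card_le_card this
  refine hEle.trans (hcov.trans ?_)
  -- logarithms
  have hch := choose_lower' hjP
  have hqR : (0 : ℝ) < q := by exact_mod_cast hq.pos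
  have hlamR : (0 : ℝ) < lam := by exact_mod_cast p2
  have hlq : Real.log q ≤ B * Real.log L := by
    have := Real.log_le_log hqR hqB
    rwa [Real.log_pow] at this
  have hlq0 : 0 ≤ Real.log q := Real.log_natCast_nonneg q
  have hllam : Real.log lam ≤ L ^ (19 / 20 : ℝ) / 2 := by
    refine p4.trans ?_
    have h1 : Real.log z ^ (19 / 10 : ℝ) ≤ √L ^ (19 / 10 : ℝ) :=
      Real.rpow_le_rpow (by linarith [hp.l0]) hlogz (by norm_num)
    have h2 : √L ^ (19 / 10 : ℝ) = L ^ (19 / 20 : ℝ) := by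
      rw [Real.sqrt_eq_rpow, ← Real.rpow_mul hL0.le]; norm_num
    rw [h2] at h1
    linarith
  have hPcard : (lam.primeFactors.card : ℝ) ≤ L ^ (19 / 20 : ℝ) := by
    have h1 := card_primeFactors_log p2
    have h2 : (1 : ℝ) / 2 ≤ Real.log 2 := by have := Real.log_two_gt_d9; linarith
    have h3 : (lam.primeFactors.card : ℝ) * (1 / 2) ≤ (lam.primeFactors.card : ℝ) * Real.log 2 :=
      mul_le_mul_of_nonneg_left h2 (Nat.cast_nonneg _)
    linarith
  have hden : Real.exp (Real.log z / 200 * j) ≤ (P.card.choose j : ℝ) / 3 ^ j := by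
    have h1 : Real.exp (Real.log z / 200 * j) = ((z : ℝ) ^ (1 / 200 : ℝ)) ^ j := by
      rw [Real.rpow_def_of_pos hzR, ← Real.exp_nat_mul]
      congr 1; ring
    rw [h1, le_div_iff₀ (by positivity), ← mul_pow]
    refine le_trans ?_ hch
    rcases Nat.eq_zero_or_pos j with h0 | h0
    · rw [h0]; simp
    · apply pow_le_pow_left₀ (by positivity)
      have hj0 : (0 : ℝ) < j := by exact_mod_cast h0
      rw [le_div_iff₀ (by positivity)]
      calc (z : ℝ) ^ (1 / 200 : ℝ) * 3 * (2 * j) = (z : ℝ) ^ (1 / 200 : ℝ) * (6 * j) := by ring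
        _ ≤ (z : ℝ) ^ (1 / 200 : ℝ) * (z : ℝ) ^ (1 / 200 : ℝ) := by
            apply mul_le_mul_of_nonneg_left _ (by positivity)
            have := hp.jz
            linarith
        _ = (z : ℝ) ^ (1 / 100 : ℝ) := by rw [← Real.rpow_add hzR]; norm_num
        _ ≤ P.card := hPc
  have hlow : L / (400 * K) - √L ≤ Real.log z / 200 * j := by
    have a1 : (√L - 1) / 200 * (√L / (2 * K) - 1) ≤ Real.log z / 200 * j := by
      rcases le_total 0 (√L / (2 * K) - 1) with h0 | h0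
      · apply mul_le_mul _ hjge h0 (by linarith [hp.l0])
        have := hp.zge
        linarith
      · have h1 : 0 ≤ Real.log z / 200 * j := by
          have := hp.l0
          positivity
        have h2 : 0 ≤ (√L - 1) / 200 := by
          have : 1 ≤ √L := by
            rw [Real.one_le_sqrt]; exact hp.l1
          linarith
        nlinarith
    have a2 : (√L - 1) / 200 * (√L / (2 * K) - 1) =
        L / (400 * K) - (√L / 200 + √L / (400 * K) - 1 / 200) := by
      have hid : ∀ s Kr : ℝ, Kr ≠ 0 → (s - 1) / 200 * (s / (2 * Kr) - 1) =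
          s * s / (400 * Kr) - (s / 200 + s / (400 * Kr) - 1 / 200) := by
        intro s Kr hKr
        field_simp
        ring
      have h1 := hid (√L) K (by positivity)
      rwa [hsL] at h1
    have a3 : √L / (400 * K) ≤ √L / 400 := by
      apply div_le_div_of_nonneg_left (Real.sqrt_nonneg _) (by norm_num)
      linarith
    have a4 : 0 ≤ √L := Real.sqrt_nonneg _
    linarith
  have hfinal : 2 * (lam : ℝ) ^ (2 * k) * (q : ℝ) ^ lam.primeFactors.card *
      ((12 * (N : ℝ)) ^ k / ((P.card.choose j : ℝ) / 3 ^ j)) ≤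
      Real.exp (Real.log 2 + k * L ^ (19 / 20 : ℝ) + B * Real.log L * L ^ (19 / 20 : ℝ) +
        (k * Real.log 12 + k * L) - (L / (400 * K) - √L)) := by
    have b1 : (lam : ℝ) ^ (2 * k) ≤ Real.exp (k * L ^ (19 / 20 : ℝ)) := by
      rw [← Real.log_le_iff_le_exp (by positivity), Real.log_pow]
      push_cast
      calc (2 : ℝ) * k * Real.log lam ≤ 2 * k * (L ^ (19 / 20 : ℝ) / 2) :=
            mul_le_mul_of_nonneg_left hllam (by positivity)
        _ = _ := by ring
    have b2 : (q : ℝ) ^ lam.primeFactors.card ≤ Real.exp (B * Real.log L * L ^ (19 / 20 : ℝ)) := by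
      rw [← Real.log_le_iff_le_exp (by positivity), Real.log_pow]
      calc (lam.primeFactors.card : ℝ) * Real.log q ≤ L ^ (19 / 20 : ℝ) * Real.log q :=
            mul_le_mul_of_nonneg_right hPcard hlq0
        _ ≤ L ^ (19 / 20 : ℝ) * (B * Real.log L) :=
            mul_le_mul_of_nonneg_left hlq (by positivity)
        _ = _ := by ring
    have b3 : (12 * (N : ℝ)) ^ k = Real.exp (k * Real.log 12 + k * L) := by
      rw [← mul_add, hL, ← Real.log_mul (by norm_num) hNR.ne', Real.exp_nat_mul,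
        Real.exp_log (by positivity)]
    have b4 : (12 * (N : ℝ)) ^ k / ((P.card.choose j : ℝ) / 3 ^ j) ≤
        Real.exp (k * Real.log 12 + k * L) / Real.exp (L / (400 * K) - √L) := by
      rw [b3]
      apply div_le_div_of_nonneg_left (Real.exp_nonneg _) (Real.exp_pos _)
      exact (Real.exp_le_exp.2 hlow).trans hden
    have b5 : (2 : ℝ) = Real.exp (Real.log 2) := (Real.exp_log (by norm_num)).symm
    rw [← Real.exp_sub] at b4
    calc 2 * (lam : ℝ) ^ (2 * k) * (q : ℝ) ^ lam.primeFactors.card *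
        ((12 * (N : ℝ)) ^ k / ((P.card.choose j : ℝ) / 3 ^ j)) ≤
        Real.exp (Real.log 2) * Real.exp (k * L ^ (19 / 20 : ℝ)) *
          Real.exp (B * Real.log L * L ^ (19 / 20 : ℝ)) *
          Real.exp (k * Real.log 12 + k * L - (L / (400 * K) - √L)) := by
          rw [← b5]
          gcongr
      _ = _ := by
          rw [← Real.exp_add, ← Real.exp_add, ← Real.exp_add]
          congr 1; ring
  refine hfinal.trans ?_
  rw [hNexp, ← Real.exp_mul, Real.exp_le_exp]
  have hf := hp.fin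
  have hBl : (B : ℝ) * Real.log L * L ^ (19 / 20 : ℝ) ≤ B * Real.log L * (2 * L ^ (19 / 20 : ℝ)) := by
    have h1 : 0 ≤ (B : ℝ) * Real.log L := by
      have := Real.log_nonneg hp.l1
      positivity
    apply mul_le_mul_of_nonneg_left _ h1
    have : 0 ≤ L ^ (19 / 20 : ℝ) := by positivity
    linarith
  have hk1 : L * ((k : ℝ) - 1 / (500 * K)) = k * L - 1 / (500 * K) * L := by ring
  have hk2 : (1 / (400 * K) - 1 / (500 * K)) * L = L / (400 * K) - 1 / (500 * K) * L := by ring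
  rw [hk1]
  rw [hk2] at hf
  linarith

end Pool.Agent.Y353.PS
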