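import Mathlib
import Pool.Agent.Y353.PS.Loc

/-!
A power saving in boxes for all exponents with a prime factor at most a power of `log N`.
-/

set_option autoImplicit false

namespace Pool.Agent.Y353.PS

open Finset Filter Topology
open Pool.Agent.TH194.BL

theorem power_saving : ∃ δ : ℝ, 0 < δ ∧ δ ≤ 1 ∧ ∀ k B : ℕ, ∃ N₀ : ℕ, ∀ N : ℕ, N₀ ≤ N →
    ∀ a M : Fin k → ℕ, (∀ i, N ≤ M i) → ∀ E : Finset (Fin k → ℕ),
    (∀ A ∈ E, (∀ i, a i < A i ∧ A i ≤ a i + M i) ∧ ∃ n q : ℕ, q.Prime ∧ q ∣ n ∧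
      (q : ℝ) ≤ Real.log N ^ B ∧ A ∈ Exc k n 1) →
    (E.card : ℝ) ≤ (N : ℝ) ^ (-δ) * ∏ i, (M i : ℝ) := by
  classical
  obtain ⟨K, hK, hone⟩ := one_q
  have hKR : (1 : ℝ) ≤ K := by exact_mod_cast hK
  refine ⟨1 / (600 * K), by positivity, ?_, fun k B => ?_⟩
  · rw [div_le_one (by positivity)]
    linarith
  obtain ⟨N₁, hN₁⟩ := hone k B
  have hη : (0 : ℝ) < 1 / (500 * K) - 1 / (600 * K) := by
    have : (1 : ℝ) / (500 * K) - 1 / (600 * K) = 1 / (3000 * K) := by field_simp; norm_num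
    rw [this]; positivity
  have v1 : ∀ᶠ N : ℕ in atTop, (2 * 2 ^ k) * (Real.log N) ^ B ≤
      (N : ℝ) ^ (1 / (500 * K) - 1 / (600 * K) : ℝ) := by
    have h := ((isLittleO_log_rpow_rpow_atTop (s := 1 / (500 * K) - 1 / (600 * K)) B
      hη).const_mul_left (2 * 2 ^ k)).bound (show (0 : ℝ) < 1 by norm_num)
    filter_upwards [tendsto_natCast_atTop_atTop.eventually h] with z hz
    rw [one_mul, Real.norm_of_nonneg (Real.rpow_nonneg (Nat.cast_nonneg z) _)] at hz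
    refine le_trans ?_ hz
    refine le_trans (le_of_eq ?_) (Real.le_norm_self _)
    rw [Real.rpow_natCast]
  have v2 : ∀ᶠ N : ℕ in atTop, 1 ≤ Real.log N :=
    (Real.tendsto_log_atTop.comp tendsto_natCast_atTop_atTop).eventually_ge_atTop _
  obtain ⟨N₂, hN₂⟩ := eventually_atTop.1 (v1.and v2)
  refine ⟨max (max N₁ N₂) 1, fun N hN a M hM E hE => ?_⟩
  simp only [max_le_iff] at hN
  obtain ⟨⟨g1, g2⟩, g3⟩ := hN
  obtain ⟨w1, w2⟩ := hN₂ N g2
  have hNR : (0 : ℝ) < N := by exact_mod_cast g3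
  set L := Real.log (N : ℝ) with hL
  have hLB : 1 ≤ L ^ B := one_le_pow₀ w2
  set b : ℝ := (2 * L ^ B) * (N : ℝ) ^ ((k : ℝ) - 1 / (500 * K)) with hb
  have hb0 : 0 ≤ b := by positivity
  have h1 := box_count (k := k) g3 (a := a) (M := M) hM (E := E) (fun A hA => (hE A hA).1) hb0 (by
    intro a' E' hE' hcube
    set Qs := (range (⌊L ^ B⌋₊ + 1)).filter (fun q => q.Prime) with hQs
    have hcov : E' ⊆ Qs.biUnion (fun q => E'.filter (fun A => A ∈ Exc k q 1)) := by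
      intro A hA
      obtain ⟨-, n, q, hq, hqn, hqB, hex⟩ := hE A (hE' hA)
      rw [mem_biUnion]
      refine ⟨q, ?_, ?_⟩
      · rw [hQs, mem_filter, mem_range]
        refine ⟨?_, hq⟩
        have := Nat.le_floor hqB
        omega
      · rw [mem_filter]
        exact ⟨hA, Exc_mono_exp hqn hex⟩
    calc (E'.card : ℝ) ≤ ((Qs.biUnion (fun q => E'.filter (fun A => A ∈ Exc k q 1))).card : ℝ) := by
          exact_mod_cast card_le_card hcov
      _ ≤ ∑ q ∈ Qs, ((E'.filter (fun A => A ∈ Exc k q 1)).card : ℝ) := by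
          exact_mod_cast card_biUnion_le
      _ ≤ ∑ q ∈ Qs, (N : ℝ) ^ ((k : ℝ) - 1 / (500 * K)) := by
          apply sum_le_sum
          intro q hq
          rw [hQs, mem_filter, mem_range] at hq
          apply hN₁ N g1 q hq.2 _ a'
          · intro A hA
            rw [mem_filter] at hA
            exact ⟨hcube A hA.1, hA.2⟩
          · have h2 : q ≤ ⌊L ^ B⌋₊ := by omega
            exact (Nat.le_floor_iff (by positivity)).1 h2
      _ = Qs.card * (N : ℝ) ^ ((k : ℝ) - 1 / (500 * K)) := by rw [sum_const, nsmul_eq_mul]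
      _ ≤ b := by
          rw [hb]
          apply mul_le_mul_of_nonneg_right _ (by positivity)
          have h2 : (Qs.card : ℝ) ≤ ⌊L ^ B⌋₊ + 1 := by
            have : Qs.card ≤ ⌊L ^ B⌋₊ + 1 := by
              rw [hQs]
              exact (card_filter_le _ _).trans (by rw [card_range])
            exact_mod_cast this
          have h3 : (⌊L ^ B⌋₊ : ℝ) ≤ L ^ B := Nat.floor_le (by positivity)
          linarith)
  refine h1.trans ?_
  have hP0 : (0 : ℝ) ≤ ∏ i, (M i : ℝ) := prod_nonneg fun i _ => Nat.cast_nonneg _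
  have e1 : b * (2 ^ k * (∏ i, (M i : ℝ)) / (N : ℝ) ^ k) =
      ((2 * 2 ^ k) * L ^ B) * (N : ℝ) ^ (-(1 / (500 * K)) : ℝ) * ∏ i, (M i : ℝ) := by
    have e2 : (N : ℝ) ^ ((k : ℝ) - 1 / (500 * K)) = (N : ℝ) ^ k * (N : ℝ) ^ (-(1 / (500 * K)) : ℝ) := by
      rw [sub_eq_add_neg, Real.rpow_add hNR, Real.rpow_natCast]
    rw [hb, e2]
    have : (N : ℝ) ^ k ≠ 0 := by positivity
    field_simp
  rw [e1]
  apply mul_le_mul_of_nonneg_right _ hP0
  calc ((2 * 2 ^ k) * L ^ B) * (N : ℝ) ^ (-(1 / (500 * K)) : ℝ) ≤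
      (N : ℝ) ^ (1 / (500 * K) - 1 / (600 * K) : ℝ) * (N : ℝ) ^ (-(1 / (500 * K)) : ℝ) := by
        apply mul_le_mul_of_nonneg_right w1 (by positivity)
    _ = (N : ℝ) ^ (-(1 / (600 * K)) : ℝ) := by
        rw [← Real.rpow_add hNR]
        congr 1; ring

end Pool.Agent.Y353.PS
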