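import Mathlib
import Pool.Agent.TH888.W2.Weak2
import Pool.Agent.Y353.PS.Loc2
import Pool.Agent.H374R2.W.Glue
import Pool.Agent.TH194.BL.Fin6

/-!
Bounded exponents and a small prime factor of the last base: the last exponent is small.
-/

set_option autoImplicit false

namespace Pool.Agent.Y353.PS

open Finset Filter Topology
open Pool.Agent.TH194.BL

theorem exp_le (k : ℕ) : ∃ C κ : ℕ, ∀ p S : ℕ, p.Prime → p ≤ S → ∀ (A x y : Fin k → ℕ) (w n : ℕ),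
    (∀ i, 0 < A i) → (∀ i, A i ≤ 2 ^ S) → (∀ i, x i ≤ 2 ^ S) → (∀ i, y i ≤ 2 ^ S) →
    Nat.Coprime (∏ i, A i ^ x i) (∏ i, A i ^ y i) → (∏ i, A i ^ x i) * (∏ i, A i ^ y i) ≠ 1 →
    p ∣ w → 0 < n → (∏ i, A i ^ x i + ∏ i, A i ^ y i = w ^ n ∨
      ∏ i, A i ^ x i = ∏ i, A i ^ y i + w ^ n) →
    n ≤ C * (S + 1) ^ κ := by
  classical
  obtain ⟨C, κ, hC⟩ := Pool.Agent.TH888.W2.weakBaker_all k
  refine ⟨C, κ, fun p S hp hpS A x y w n hA hAS hx hy hco hne hpw hn heq => ?_⟩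
  haveI : Fact p.Prime := ⟨hp⟩
  set u := ∏ i, A i ^ x i with hu
  set v := ∏ i, A i ^ y i with hv
  have hpwn : p ∣ w ^ n := hpw.trans (dvd_pow_self w hn.ne')
  have hpuv : ¬ p ∣ u ∧ ¬ p ∣ v := by
    have h1 : p ∣ u → p ∣ v := by
      intro h
      rcases heq with h2 | h2
      · exact (Nat.dvd_add_right h).1 (h2 ▸ hpwn)
      · rw [h2] at h
        exact (Nat.dvd_add_left hpwn).1 h
    have h2 : p ∣ v → p ∣ u := by
      intro h
      rcases heq with h2 | h2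
      · exact (Nat.dvd_add_left h).1 (h2 ▸ hpwn)
      · rw [h2]
        exact dvd_add h hpwn
    have h3 : ¬ (p ∣ u ∧ p ∣ v) := by
      rintro ⟨h4, h5⟩
      exact hp.not_dvd_one (hco ▸ Nat.dvd_gcd h4 h5)
    exact ⟨fun h => h3 ⟨h, h1 h⟩, fun h => h3 ⟨h2 h, h⟩⟩
  set α : Fin k → ℕ := fun i => if p ∣ A i then 1 else A i with hα
  have hαp : ∀ i, ¬ p ∣ α i := by
    intro i
    simp only [hα]
    split_ifs with h
    · exact hp.not_dvd_one
    · exact h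
  have hα0 : ∀ i, 0 < α i := by
    intro i
    simp only [hα]
    split_ifs with h
    · exact one_pos
    · exact hA i
  have key : ∀ z : Fin k → ℕ, ¬ p ∣ ∏ i, A i ^ z i → ∏ i, α i ^ z i = ∏ i, A i ^ z i := by
    intro z hz
    apply prod_congr rfl
    intro i _
    simp only [hα]
    split_ifs with h
    · have : z i = 0 := by
        by_contra h0
        exact hz ((h.trans (dvd_pow_self _ h0)).trans (dvd_prod_of_mem _ (mem_univ i)))
      rw [this]; simp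
    · rfl
  have hαx := key x hpuv.1
  have hαy := key y hpuv.2
  rw [← hu] at hαx
  rw [← hv] at hαy
  have hcop : ∀ i, Nat.Coprime (α i) (p ^ n) := fun i =>
    (((Nat.Prime.coprime_iff_not_dvd hp).mpr (hαp i)).symm).pow_right n
  have hu0 : 0 < u := prod_pos fun i _ => Nat.pow_pos (hA i)
  have hv0 : 0 < v := prod_pos fun i _ => Nat.pow_pos (hA i)
  refine hC p (S + 1) (by omega) α (fun i => (2 * x i : ℤ) - 2 * y i) n
    (fun i => ZMod.unitOfCoprime (α i) (hcop i)) (fun i => ZMod.coe_unitOfCoprime _ _) hα0 ?_ ?_ ?_ ?_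
  · intro i
    have h1 : α i ≤ A i := by
      simp only [hα]
      split_ifs with h
      · exact hA i
      · exact le_rfl
    calc α i ≤ 2 ^ S := h1.trans (hAS i)
      _ ≤ 2 ^ (S + 1) := Nat.pow_le_pow_right (by norm_num) (by omega)
  · intro i
    have h1 : (x i : ℤ) ≤ 2 ^ S := by exact_mod_cast hx i
    have h2 : (y i : ℤ) ≤ 2 ^ S := by exact_mod_cast hy i
    have h3 : (0 : ℤ) ≤ x i := Int.natCast_nonneg _
    have h4 : (0 : ℤ) ≤ y i := Int.natCast_nonneg _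
    rw [abs_le, pow_succ]
    constructor <;> linarith
  · intro h
    have hprod : ∏ i, (α i : ℚ) ^ ((2 * x i : ℤ) - 2 * y i) = ((u : ℚ) / v) ^ 2 := by
      have h1 : ∀ i, (α i : ℚ) ^ ((2 * x i : ℤ) - 2 * y i) = ((α i : ℚ) ^ x i / (α i : ℚ) ^ y i) ^ 2 := by
        intro i
        have : (α i : ℚ) ≠ 0 := by exact_mod_cast (hα0 i).ne'
        rw [zpow_sub₀ this, div_pow, ← pow_mul, ← pow_mul, mul_comm (x i), mul_comm (y i)]
        norm_cast
      rw [prod_congr rfl (fun i _ => h1 i), prod_pow, prod_div_distrib]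
      congr 2
      · rw [← hαx]; push_cast; rfl
      · rw [← hαy]; push_cast; rfl
    rw [hprod] at h
    have hvQ : (0 : ℚ) < v := by exact_mod_cast hv0
    have huQ : (0 : ℚ) < u := by exact_mod_cast hu0
    have h2 : (u : ℚ) / v = 1 := by
      have h3 : (0 : ℚ) < u / v := by positivity
      nlinarith
    rw [div_eq_one_iff_eq hvQ.ne'] at h2
    have h3 : u = v := by exact_mod_cast h2
    rw [h3, Nat.coprime_self] at hco
    apply hne
    rw [h3, hco]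
  · have h1 : ∀ i, (ZMod.unitOfCoprime (α i) (hcop i)) ^ ((2 * x i : ℤ) - 2 * y i) =
        ((ZMod.unitOfCoprime (α i) (hcop i)) ^ x i) ^ 2 / ((ZMod.unitOfCoprime (α i) (hcop i)) ^ y i) ^ 2 := by
      intro i
      rw [zpow_sub, div_eq_mul_inv, ← pow_mul, ← pow_mul, mul_comm (x i), mul_comm (y i)]
      norm_cast
    rw [prod_congr rfl (fun i _ => h1 i), prod_div_distrib, div_eq_one]
    apply Units.ext
    rw [prod_pow, prod_pow, Units.val_pow_eq_pow_val, Units.val_pow_eq_pow_val, Units.coe_prod,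
      Units.coe_prod]
    have h2 : ∏ i, (((ZMod.unitOfCoprime (α i) (hcop i)) ^ x i : (ZMod (p ^ n))ˣ) : ZMod (p ^ n)) =
        ((u : ℕ) : ZMod (p ^ n)) := by
      rw [← hαx]
      push_cast
      apply prod_congr rfl
      intro i _
      rw [ZMod.coe_unitOfCoprime]
    have h3 : ∏ i, (((ZMod.unitOfCoprime (α i) (hcop i)) ^ y i : (ZMod (p ^ n))ˣ) : ZMod (p ^ n)) =
        ((v : ℕ) : ZMod (p ^ n)) := by
      rw [← hαy]
      push_cast
      apply prod_congr rfl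
      intro i _
      rw [ZMod.coe_unitOfCoprime]
    rw [h2, h3]
    have hd : ((p ^ n : ℕ) : ℤ) ∣ (u : ℤ) ^ 2 - (v : ℤ) ^ 2 := by
      have h4 : ((p ^ n : ℕ) : ℤ) ∣ ((w ^ n : ℕ) : ℤ) := Int.natCast_dvd_natCast.2 (pow_dvd_pow_of_dvd hpw n)
      refine h4.trans ?_
      rcases heq with h5 | h5
      · rw [← h5]
        exact ⟨(u : ℤ) - v, by push_cast; ring⟩
      · refine ⟨(u : ℤ) + v, ?_⟩
        have h6 : ((u : ℕ) : ℤ) = v + ((w ^ n : ℕ) : ℤ) := by exact_mod_cast h5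
        rw [h6]; ring
    rw [← ZMod.intCast_zmod_eq_zero_iff_dvd] at hd
    push_cast at hd
    exact sub_eq_zero.1 hd

/-- the tuples with a relation `u ± v = w ^ n` between products of powers, `u, v` coprime, where `n` has a
prime factor at most `(log N) ^ B`, or the exponents are at most `exp ((log N) ^ B)` and `w` has a prime
factor at most `(log N) ^ B` -/
def BadT (k N B : ℕ) : Set (Fin k → ℕ) :=
  {A | ∃ (x y : Fin k → ℕ) (w n : ℕ), 2 ≤ n ∧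
    Nat.Coprime (∏ i, A i ^ x i) (∏ i, A i ^ y i) ∧ (∏ i, A i ^ x i) * (∏ i, A i ^ y i) ≠ 1 ∧
    (∏ i, A i ^ x i + ∏ i, A i ^ y i = w ^ n ∨ ∏ i, A i ^ x i = ∏ i, A i ^ y i + w ^ n) ∧
    ((∃ q : ℕ, q.Prime ∧ q ∣ n ∧ (q : ℝ) ≤ Real.log N ^ B) ∨
      ((∀ i, (x i : ℝ) ≤ Real.exp (Real.log N ^ B) ∧ (y i : ℝ) ≤ Real.exp (Real.log N ^ B)) ∧
        ∃ p : ℕ, p.Prime ∧ p ∣ w ∧ (p : ℝ) ≤ Real.log N ^ B))}

theorem exp_poly (k B : ℕ) : ∃ B' N₀ : ℕ, ∀ N : ℕ, N₀ ≤ N → ∀ (A x y : Fin k → ℕ) (w n p : ℕ),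
    (∀ i, 0 < A i) → (∀ i, A i ≤ N ^ B) →
    (∀ i, (x i : ℝ) ≤ Real.exp (Real.log N ^ B) ∧ (y i : ℝ) ≤ Real.exp (Real.log N ^ B)) →
    Nat.Coprime (∏ i, A i ^ x i) (∏ i, A i ^ y i) → (∏ i, A i ^ x i) * (∏ i, A i ^ y i) ≠ 1 →
    (∏ i, A i ^ x i + ∏ i, A i ^ y i = w ^ n ∨ ∏ i, A i ^ x i = ∏ i, A i ^ y i + w ^ n) →
    p.Prime → p ∣ w → (p : ℝ) ≤ Real.log N ^ B → 0 < n → (n : ℝ) ≤ Real.log N ^ B' := by
  classical
  obtain ⟨C, κ, hC⟩ := exp_le k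
  have v2 : ∀ᶠ N : ℕ in atTop, 8 + 2 * (B : ℝ) + C ≤ Real.log N :=
    (Real.tendsto_log_atTop.comp tendsto_natCast_atTop_atTop).eventually_ge_atTop _
  obtain ⟨N₂, hN₂⟩ := eventually_atTop.1 v2
  refine ⟨(B + 2) * κ + B + 1, max N₂ 1, fun N hN A x y w n p hA0 hAN hxy hco hne heq hp hpw hpB hn => ?_⟩
  simp only [max_le_iff] at hN
  have w2 := hN₂ N hN.1
  set L := Real.log (N : ℝ) with hL
  have hB0 : (0 : ℝ) ≤ B := Nat.cast_nonneg _
  have hC0 : (0 : ℝ) ≤ C := Nat.cast_nonneg _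
  have hL8 : 8 ≤ L := by linarith
  have hL1 : 1 ≤ L := by linarith
  have hNR : (0 : ℝ) < N := by exact_mod_cast hN.2
  set S : ℕ := ⌈2 * L ^ (B + 1)⌉₊ with hS
  have hSle : 2 * L ^ (B + 1) ≤ S := Nat.le_ceil _
  have hSlt : (S : ℝ) < 2 * L ^ (B + 1) + 1 := Nat.ceil_lt_add_one (by positivity)
  have hLB : L ^ B ≤ L ^ (B + 1) := pow_le_pow_right₀ hL1 (by omega)
  have hLB1 : L ≤ L ^ (B + 1) := by
    calc L = L ^ 1 := (pow_one L).symm
      _ ≤ L ^ (B + 1) := pow_le_pow_right₀ hL1 (by omega)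
  have hlog2 : (1 : ℝ) / 2 ≤ Real.log 2 := by have := Real.log_two_gt_d9; linarith
  have hexpS : ∀ t : ℕ, (t : ℝ) ≤ Real.exp (L ^ (B + 1)) → t ≤ 2 ^ S := by
    intro t ht
    have h1 : Real.exp (L ^ (B + 1)) ≤ (2 : ℝ) ^ S := by
      have h2 : (2 : ℝ) ^ S = Real.exp (S * Real.log 2) := by
        rw [← Real.rpow_natCast, Real.rpow_def_of_pos (by norm_num)]
        rw [mul_comm]
      rw [h2]
      apply Real.exp_le_exp.2
      have h3 : (S : ℝ) * (1 / 2) ≤ S * Real.log 2 := by gcongr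
      linarith
    have : (t : ℝ) ≤ (2 : ℝ) ^ S := ht.trans h1
    exact_mod_cast this
  have hpS : p ≤ S := by
    have h1 : (p : ℝ) ≤ S := by
      have : 0 ≤ L ^ (B + 1) := by positivity
      linarith
    exact_mod_cast h1
  have hAS : ∀ i, A i ≤ 2 ^ S := by
    intro i
    apply hexpS
    have h1 : ((A i : ℕ) : ℝ) ≤ (N : ℝ) ^ B := by exact_mod_cast hAN i
    refine h1.trans ?_
    have h2 : (N : ℝ) ^ B = Real.exp (B * L) := by
      rw [hL, ← Real.log_pow, Real.exp_log (by positivity)]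
    rw [h2]
    apply Real.exp_le_exp.2
    rcases Nat.eq_zero_or_pos B with h0 | h0
    · rw [h0]; push_cast; rw [zero_mul]; positivity
    · have h3 : (B : ℝ) ≤ L := by linarith
      have h4 : L * L ≤ L ^ (B + 1) := by
        calc L * L = L ^ 2 := by ring
          _ ≤ L ^ (B + 1) := pow_le_pow_right₀ hL1 (by omega)
      nlinarith
  have hxS : ∀ i, x i ≤ 2 ^ S := fun i => hexpS _ ((hxy i).1.trans (Real.exp_le_exp.2 hLB))
  have hyS : ∀ i, y i ≤ 2 ^ S := fun i => hexpS _ ((hxy i).2.trans (Real.exp_le_exp.2 hLB))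
  have hnle := hC p S hp hpS A x y w n hA0 hAS hxS hyS hco hne hpw hn heq
  have h2 : (n : ℝ) ≤ C * ((S : ℝ) + 1) ^ κ := by exact_mod_cast hnle
  have h3 : (S : ℝ) + 1 ≤ L ^ (B + 2) := by
    have h4 : L ^ (B + 2) = L * L ^ (B + 1) := by ring
    rw [h4]
    nlinarith
  have h5 : ((S : ℝ) + 1) ^ κ ≤ (L ^ (B + 2)) ^ κ := by gcongr
  calc (n : ℝ) ≤ C * ((S : ℝ) + 1) ^ κ := h2
    _ ≤ C * (L ^ (B + 2)) ^ κ := by gcongr
    _ ≤ L * (L ^ (B + 2)) ^ κ := by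
      apply mul_le_mul_of_nonneg_right _ (by positivity)
      linarith
    _ = L ^ ((B + 2) * κ + 1) := by rw [← pow_mul]; ring
    _ ≤ L ^ ((B + 2) * κ + B + 1) := pow_le_pow_right₀ hL1 (by omega)

theorem badT_sub (k B : ℕ) : ∃ B' N₀ : ℕ, ∀ N : ℕ, N₀ ≤ N → ∀ A : Fin k → ℕ, (∀ i, 0 < A i) →
    (∀ i, A i ≤ N ^ B) → A ∈ BadT k N B → ∃ n q : ℕ, q.Prime ∧ q ∣ n ∧
      (q : ℝ) ≤ Real.log N ^ B' ∧ A ∈ Exc k n 1 := by
  classical
  obtain ⟨B₁, N₁, h⟩ := exp_poly k B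
  have v2 : ∀ᶠ N : ℕ in atTop, 1 ≤ Real.log N :=
    (Real.tendsto_log_atTop.comp tendsto_natCast_atTop_atTop).eventually_ge_atTop _
  obtain ⟨N₂, hN₂⟩ := eventually_atTop.1 v2
  refine ⟨max B B₁, max N₁ N₂, fun N hN A hA0 hAN hA => ?_⟩
  simp only [max_le_iff] at hN
  have hL1 := hN₂ N hN.2
  obtain ⟨x, y, w, n, hn, hco, hne, heq, hor⟩ := hA
  have hexc : A ∈ Exc k n 1 := by
    refine ⟨hA0, x, y, 1, w, hco, hne, one_pos, fun p hp h1 => absurd (Nat.dvd_one.1 h1) hp.one_lt.ne', ?_⟩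
    rw [one_mul]; exact heq
  rcases hor with ⟨q, hq, hqn, hqB⟩ | ⟨hxy, p, hp, hpw, hpB⟩
  · refine ⟨n, q, hq, hqn, hqB.trans ?_, hexc⟩
    exact pow_le_pow_right₀ hL1 (le_max_left _ _)
  · have h2 := h N hN.1 A x y w n p hA0 hAN hxy hco hne heq hp hpw hpB (by omega)
    refine ⟨n, n.minFac, Nat.minFac_prime (by omega), Nat.minFac_dvd n, ?_, hexc⟩
    have h1 : (n.minFac : ℝ) ≤ n := by exact_mod_cast Nat.minFac_le (by omega)
    exact (h1.trans h2).trans (pow_le_pow_right₀ hL1 (le_max_right _ _))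

theorem tuples : ∃ δ : ℝ, 0 < δ ∧ δ ≤ 1 ∧ ∀ k B : ℕ, ∃ N₀ : ℕ, ∀ N : ℕ, N₀ ≤ N →
    ∀ a M : Fin k → ℕ, (∀ i, N ≤ M i) → (∀ i, a i + M i ≤ N ^ B) →
    ((({A : Fin k → ℕ | (∀ i, a i < A i ∧ A i ≤ a i + M i) ∧ A ∈ BadT k N B}).ncard : ℕ) : ℝ) ≤
      (N : ℝ) ^ (-δ) * ∏ i, (M i : ℝ) := by
  classical
  obtain ⟨δ, h0, h1, hps⟩ := power_saving
  refine ⟨δ, h0, h1, fun k B => ?_⟩
  obtain ⟨B', N₁, hB'⟩ := badT_sub k B
  obtain ⟨N₂, hN₂⟩ := hps k B'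
  refine ⟨max N₁ N₂, fun N hN a M hM haM => ?_⟩
  simp only [max_le_iff] at hN
  set E : Finset (Fin k → ℕ) := (Fintype.piFinset (fun i => Ioc (a i) (a i + M i))).filter
    (fun A => A ∈ BadT k N B) with hE
  have hEq : {A : Fin k → ℕ | (∀ i, a i < A i ∧ A i ≤ a i + M i) ∧ A ∈ BadT k N B} =
      (E : Set (Fin k → ℕ)) := by
    ext A
    rw [hE, mem_coe, mem_filter, Fintype.mem_piFinset]
    simp only [mem_Ioc, Set.mem_setOf_eq]
  rw [hEq, Set.ncard_coe_finset]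
  apply hN₂ N hN.2 a M hM E
  intro A hA
  rw [hE, mem_filter, Fintype.mem_piFinset] at hA
  simp only [mem_Ioc] at hA
  refine ⟨hA.1, hB' N hN.1 A (fun i => ?_) (fun i => ?_) hA.2⟩
  · exact lt_of_le_of_lt (Nat.zero_le _) (hA.1 i).1
  · exact (hA.1 i).2.trans (haM i)

end Pool.Agent.Y353.PS
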