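import Pool.Agent.Y353.PS.UPQ
import Pool.Agent.H374R2.V.Final

/-!
Large exponents of the third base: for a given second base `A` there are few bases `B` with a small prime
factor.
-/

set_option autoImplicit false

namespace Pool.Agent.Y353.PS

open Finset Filter Topology
open Pool.Agent.H374R2.W

/-- the numbers `B ≤ H` with a prime factor `p ≤ P` which are bases together with `A`, the exponent of
the third base being divisible by a prime `q ≥ q₀` -/
def BadB (H P q₀ A : ℕ) : Set ℕ :=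
  {B | 0 < B ∧ B ≤ H ∧ Nat.Coprime A B ∧ (∃ p : ℕ, p.Prime ∧ p ≤ P ∧ p ∣ B) ∧
    ∃ (q x y U : ℕ) (s σ : ℤ), q.Prime ∧ q₀ ≤ q ∧ 0 < x ∧ 0 < y ∧ 2 ≤ U ∧ (s = 1 ∨ s = -1) ∧
      (σ = 1 ∨ σ = -1) ∧ (U : ℤ) ^ q - s * (A : ℤ) ^ x = σ * (B : ℤ) ^ y}

/-- parameters -/
structure PB (H P q₀ Q : ℕ) (κ : ℝ) : Prop where
  κ0 : 0 < κ
  κ1 : κ ≤ 1 / 2
  κH : 4 * κ * Real.log H ≤ 1
  q3 : 3 ≤ q₀
  qκ : 100 / κ ^ 2 ≤ (q₀ : ℝ)
  lg : ∀ q : ℕ, q₀ ≤ q → 50 * (3 / κ + 1) * Real.log (10 ^ 8 * (q : ℝ) ^ 9) ≤ q * Real.log 2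
  hQ : ∀ q : ℕ, q ≤ 10 ^ 9 * P ^ 2 * (Nat.log 2 q + 1) ^ 2 * (Nat.log 2 H + 1) ^ 2 → q ≤ Q

/-- the covering sets -/
def SS (κ : ℝ) (H A : ℕ) (j : Fin 3 × ℕ × ℕ × ℕ × ℤ × ℤ) : Set ℕ :=
  if j.1 = 0 then SetP κ H j.2.1 j.2.2.1 j.2.2.2.1 A j.2.2.2.2.1 j.2.2.2.2.2
  else if j.1 = 1 then SetQ κ H j.2.1 j.2.2.1 A j.2.2.2.2.1 j.2.2.2.2.2
  else SetR κ H j.2.1 j.2.2.1 A j.2.2.2.2.2

theorem mem_cover {H P q₀ Q A B : ℕ} {κ : ℝ} (hp : PB H P q₀ Q κ) (hA0 : 0 < A) (hAH : A ≤ H)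
    (hB : B ∈ BadB H P q₀ A) (hnp : ¬ ∃ w k : ℕ, 2 ≤ k ∧ B = w ^ k) :
    ∃ (t : Fin 3) (q i p : ℕ) (s σ : ℤ), q.Prime ∧ q₀ ≤ q ∧ q ≤ Q ∧ i < q ∧ p.Prime ∧ p ≤ P ∧
      (t = 0 → ¬ p ∣ q) ∧ (s = 1 ∨ s = -1) ∧ (σ = 1 ∨ σ = -1) ∧
      B ∈ SS κ H A (t, q, i, p, s, σ) := by
  obtain ⟨hB0, hBH, hAB, ⟨p, hpp, hpP, hpB⟩, q, x, y, U, s, σ, hq, hqq, hx, hy, hU, hs, hσ, heq⟩ := hB
  have hq3 : 3 ≤ q := hp.q3.trans hqq
  obtain ⟨x₂, hx2, hAx, hx1⟩ : ∃ x₂ : ℕ, 0 < x₂ ∧ A ^ x₂ = A ^ x ∧ (A = 1 → q ∣ x₂) := by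
    by_cases h1 : A = 1
    · exact ⟨q, by omega, by rw [h1]; simp, fun _ => dvd_rfl⟩
    · exact ⟨x, hx, rfl, fun h2 => absurd h2 h1⟩
  have heq2 : (U : ℤ) ^ q - s * (A : ℤ) ^ x₂ = σ * (B : ℤ) ^ y := by
    have : (A : ℤ) ^ x₂ = (A : ℤ) ^ x := by exact_mod_cast hAx
    rw [this]; exact heq
  have hqQ : q ≤ Q := hp.hQ q (q_bound (fun h1 h2 h3 h4 h5 h6 =>
    real_two_logs h1 h2 h3 h4 h5 h6) hs hσ hq hq3 hA0 hAH hAB hB0 hBH hx2 hx1 hy hU hpp
    hpP hpB heq2)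
  have hqpos : 0 < q := by omega
  have hx2q : q * (x₂ / q) + x₂ % q = x₂ := Nat.div_add_mod x₂ q
  have hqR : (0 : ℝ) < q := by exact_mod_cast hqpos
  have hBR : (0 : ℝ) < B := by exact_mod_cast hB0
  have hHR : (0 : ℝ) < H := by exact_mod_cast hB0.trans_le hBH
  have hlogB : 0 ≤ Real.log B := Real.log_natCast_nonneg B
  have hlogBH : Real.log B ≤ Real.log H := Real.log_le_log hBR (by exact_mod_cast hBH)
  have hy1 : (1 : ℝ) ≤ y := by exact_mod_cast hy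
  have hH0 : 0 < ht q A U x₂ := lt_of_lt_of_le (pow_pos (by omega : 0 < U) q) (le_max_left _ _)
  have hH0R : (0 : ℝ) < ht q A U x₂ := by exact_mod_cast hH0
  have hlogH : 0 ≤ Real.log (ht q A U x₂) := Real.log_natCast_nonneg _
  have hlgU : (q : ℝ) * Real.log 2 ≤ Real.log (ht q A U x₂) := by
    rw [← Real.log_pow]
    apply Real.log_le_log (by positivity)
    have h1 : 2 ^ q ≤ ht q A U x₂ := (Nat.pow_le_pow_left hU q).trans (le_max_left _ _)
    exact_mod_cast h1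
  have hlg : 50 * (3 / κ + 1) * Real.log (10 ^ 8 * (q : ℝ) ^ 9) ≤ Real.log (ht q A U x₂) :=
    (hp.lg q hqq).trans hlgU
  have hlog2 : (1 : ℝ) / 2 ≤ Real.log 2 := by have := Real.log_two_gt_d9; linarith
  have hκ0 := hp.κ0
  have hlogHn : 0 ≤ Real.log (H : ℝ) := Real.log_natCast_nonneg H
  rcases le_or_gt (Real.log (ht q A U x₂)) (2 * (y * Real.log B)) with hcase | hcase
  · have hb1 : 4 * κ * Real.log (ht q A U x₂) ≤ 2 * y := by
      calc 4 * κ * Real.log (ht q A U x₂) ≤ 4 * κ * (2 * (y * Real.log B)) := by gcongr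
        _ ≤ 4 * κ * (2 * (y * Real.log H)) := by gcongr
        _ = (4 * κ * Real.log H) * (2 * y) := by ring
        _ ≤ 1 * (2 * y) := mul_le_mul_of_nonneg_right hp.κH (by positivity)
        _ = 2 * y := one_mul _
    by_cases hpq : p = q
    · refine ⟨1, q, x₂ % q, p, s, σ, hq, hqq, hqQ, Nat.mod_lt _ hqpos, hpp, hpP, by simp, hs, hσ, ?_⟩
      have h1 : SS κ H A (1, q, x₂ % q, p, s, σ) = SetQ κ H q (x₂ % q) A s σ := by
        simp [SS]
      rw [h1]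
      refine ⟨hB0, hBH, hpq ▸ hpB, hAB, hnp, x₂ / q, y, U, hy, by omega, ?_, ?_, ?_⟩
      · rw [hx2q]; exact heq2
      · rw [hx2q]
        have h2 : (1 : ℝ) ≤ Real.log q := by
          rw [Real.le_log_iff_exp_le hqR]
          have h3 : (3 : ℝ) ≤ q := by exact_mod_cast hq3
          have := Real.exp_one_lt_d9
          linarith
        have h3 : (y : ℝ) * 1 ≤ y * Real.log q := mul_le_mul_of_nonneg_left h2 (by positivity)
        linarith
      · rw [hx2q]; exact hlg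
    · refine ⟨0, q, x₂ % q, p, s, σ, hq, hqq, hqQ, Nat.mod_lt _ hqpos, hpp, hpP, ?_, hs, hσ, ?_⟩
      · intro _ hd
        exact hpq ((Nat.prime_dvd_prime_iff_eq hpp hq).1 hd)
      have h1 : SS κ H A (0, q, x₂ % q, p, s, σ) = SetP κ H q (x₂ % q) p A s σ := by
        simp [SS]
      rw [h1]
      refine ⟨hB0, hBH, hpB, hAB, hnp, x₂ / q, y, U, hy, by omega, ?_, ?_, ?_⟩
      · rw [hx2q]; exact heq2
      · rw [hx2q]
        have h2 : (1 : ℝ) / 2 ≤ Real.log p := by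
          refine hlog2.trans (Real.log_le_log (by norm_num) ?_)
          exact_mod_cast hpp.two_le
        have h3 : (y : ℝ) * (1 / 2) ≤ y * Real.log p := mul_le_mul_of_nonneg_left h2 (by positivity)
        linarith
      · rw [hx2q]; exact hlg
  · have hs1 : s = 1 := by
      rcases hs with h1 | h1
      · exact h1
      · exfalso
        rw [h1] at heq2
        have h2 : U ^ q + A ^ x₂ ≤ B ^ y := by
          have hA1 : (0 : ℤ) ≤ (A : ℤ) ^ x₂ := by positivity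
          have hU1 : (0 : ℤ) ≤ (U : ℤ) ^ q := by positivity
          have hB1 : (0 : ℤ) ≤ (B : ℤ) ^ y := by positivity
          have : (U : ℤ) ^ q + (A : ℤ) ^ x₂ ≤ (B : ℤ) ^ y := by
            rcases hσ with rfl | rfl <;> linarith
          exact_mod_cast this
        have h3 : ht q A U x₂ ≤ B ^ y := by
          unfold ht
          apply max_le <;> omega
        have h4 : Real.log (ht q A U x₂) ≤ y * Real.log B := by
          rw [← Real.log_pow]
          apply Real.log_le_log hH0R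
          exact_mod_cast h3
        have h5 : 0 ≤ y * Real.log B := by positivity
        linarith
    refine ⟨2, q, x₂ % q, p, s, σ, hq, hqq, hqQ, Nat.mod_lt _ hqpos, hpp, hpP, by simp, hs, hσ, ?_⟩
    have h1 : SS κ H A (2, q, x₂ % q, p, s, σ) = SetR κ H q (x₂ % q) A σ := by
      simp [SS]
    rw [h1]
    refine ⟨hB0, hBH, hAB, hnp, x₂ / q, y, U, hy, by omega, ?_, ?_, ?_⟩
    · rw [hx2q]
      rw [hs1, one_mul] at heq2
      exact heq2
    · rw [hx2q]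
      have h1 : (1 / 2 : ℝ) * Real.log (ht q A U x₂) ≤
          (1 - κ) * Real.log (ht q A U x₂) := by
        apply mul_le_mul_of_nonneg_right _ hlogH
        have := hp.κ1
        linarith
      linarith
    · rw [hx2q]; exact hlg

theorem badN_card {H P q₀ Q A : ℕ} {κ : ℝ} (hp : PB H P q₀ Q κ) (hA0 : 0 < A) (hAH : A ≤ H) :
    {B | B ∈ BadB H P q₀ A ∧ ¬ ∃ w k : ℕ, 2 ≤ k ∧ B = w ^ k}.Finite ∧
    {B | B ∈ BadB H P q₀ A ∧ ¬ ∃ w k : ℕ, 2 ≤ k ∧ B = w ^ k}.ncard ≤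
      (12 * (Q + 1) * (Q + 1) * (P + 1)) * (Q + 1) := by
  classical
  set J : Finset (Fin 3 × ℕ × ℕ × ℕ × ℤ × ℤ) := ((univ : Finset (Fin 3)) ×ˢ Finset.range (Q + 1) ×ˢ
    Finset.range (Q + 1) ×ˢ Finset.range (P + 1) ×ˢ ({1, -1} : Finset ℤ) ×ˢ
      ({1, -1} : Finset ℤ)).filter (fun j => j.2.1.Prime ∧ q₀ ≤ j.2.1 ∧
      j.2.2.2.1.Prime ∧ (j.1 = 0 → ¬ j.2.2.2.1 ∣ j.2.1)) with hJ
  have hJc : J.card ≤ 12 * (Q + 1) * (Q + 1) * (P + 1) := by
    refine (Finset.card_filter_le _ _).trans (le_of_eq ?_)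
    rw [Finset.card_product, Finset.card_product, Finset.card_product, Finset.card_product,
      Finset.card_product, Finset.card_range, Finset.card_range, Finset.card_univ, Fintype.card_fin]
    have : ({1, -1} : Finset ℤ).card = 2 := rfl
    rw [this]
    ring
  have h := Pool.Agent.H374R2.V.ncard_le_of_cover (K := Q + 1) J (SS κ H A) (by
      rintro ⟨t, q, i, p, s, σ⟩ hj
      rw [hJ, Finset.mem_filter] at hj
      obtain ⟨hj1, hq, hqq, hpp, hpq⟩ := hj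
      simp only [Finset.mem_product, Finset.mem_range, Finset.mem_insert,
        Finset.mem_singleton, Finset.mem_univ, true_and] at hj1
      simp only at hq hqq hpp hpq
      obtain ⟨hqQ', hi, hpP, hs, hσ⟩ := hj1
      have hqR : 100 / κ ^ 2 ≤ (q : ℝ) := hp.qκ.trans (by exact_mod_cast hqq)
      have hκ1 : κ ≤ 1 := hp.κ1.trans (by norm_num)
      have hq3 : 3 ≤ q := hp.q3.trans hqq
      fin_cases t
      · have e1 : SS κ H A ((0 : Fin 3), q, i, p, s, σ) = SetP κ H q i p A s σ := by simp [SS]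
        have e2 := setP_card (N := H) (i := i) (A := A) hp.κ0 hκ1 hq.isPrimePow hqR hpp (hpq rfl)
          hA0 hs hσ
        show (SS κ H A ((0 : Fin 3), q, i, p, s, σ)).Finite ∧ _
        rw [e1]
        exact ⟨e2.1, e2.2.trans (by omega)⟩
      · have e1 : SS κ H A ((1 : Fin 3), q, i, p, s, σ) = SetQ κ H q i A s σ := by simp [SS]
        have e2 := setQ_card (N := H) (i := i) (A := A) hp.κ0 hκ1 hq hqR (by omega) hA0 hs hσ
        show (SS κ H A ((1 : Fin 3), q, i, p, s, σ)).Finite ∧ _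
        rw [e1]
        exact ⟨e2.1, e2.2.trans (by omega)⟩
      · have e1 : SS κ H A ((2 : Fin 3), q, i, p, s, σ) = SetR κ H q i A σ := by simp [SS]
        have e2 := setR_card (N := H) (i := i) (A := A) hp.κ0 hκ1 hq.isPrimePow hqR hA0 hσ
        show (SS κ H A ((2 : Fin 3), q, i, p, s, σ)).Finite ∧ _
        rw [e1]
        exact ⟨e2.1, e2.2.trans (by omega)⟩)
    {B | B ∈ BadB H P q₀ A ∧ ¬ ∃ w k : ℕ, 2 ≤ k ∧ B = w ^ k} (by
      rintro B ⟨hB, hnp⟩
      obtain ⟨t, q, i, p, s, σ, h1, h2, h3, h4, h5, h6, h7, h8, h9, h10⟩ :=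
        mem_cover hp hA0 hAH hB hnp
      refine ⟨(t, q, i, p, s, σ), ?_, h10⟩
      rw [hJ, Finset.mem_filter]
      refine ⟨?_, h1, h2, h5, h7⟩
      simp only [Finset.mem_product, Finset.mem_range, Finset.mem_insert,
        Finset.mem_singleton, Finset.mem_univ, true_and]
      exact ⟨by omega, by omega, by omega, h8, h9⟩)
  exact ⟨h.1, h.2.trans (Nat.mul_le_mul_right _ hJc)⟩

/-- every integer `≥ 2` is a power of a number which is not a perfect power -/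
theorem exists_root : ∀ B : ℕ, 2 ≤ B → ∃ w k : ℕ, 2 ≤ w ∧ 1 ≤ k ∧ B = w ^ k ∧
    ¬ ∃ v l : ℕ, 2 ≤ l ∧ w = v ^ l := by
  intro B
  induction B using Nat.strong_induction_on with
  | _ B ih =>
    intro hB
    by_cases h : ∃ v l : ℕ, 2 ≤ l ∧ B = v ^ l
    · obtain ⟨v, l, hl, hv⟩ := h
      have hv2 : 2 ≤ v := by
        by_contra hcon
        have : v = 0 ∨ v = 1 := by omega
        rcases this with h0 | h0
        · rw [h0, zero_pow (by omega)] at hv; omega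
        · rw [h0, one_pow] at hv; omega
      have hlt : v < B := by
        rw [hv]
        calc v = v ^ 1 := (pow_one v).symm
          _ < v ^ l := Nat.pow_lt_pow_right (by omega) (by omega)
      obtain ⟨w, k, h1, h2, h3, h4⟩ := ih v hlt hv2
      exact ⟨w, k * l, h1, Nat.mul_pos h2 (by omega), by rw [hv, h3, ← pow_mul], h4⟩
    · exact ⟨B, 1, hB, le_rfl, (pow_one B).symm, h⟩

theorem badB_card {H P q₀ Q A : ℕ} {κ : ℝ} (hp : PB H P q₀ Q κ) (hA0 : 0 < A) (hAH : A ≤ H) :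
    (BadB H P q₀ A).Finite ∧ (BadB H P q₀ A).ncard ≤
      (Nat.log 2 H + 1) * ((12 * (Q + 1) * (Q + 1) * (P + 1)) * (Q + 1)) := by
  classical
  obtain ⟨hfin, hcard⟩ := badN_card hp hA0 hAH
  set N := {B | B ∈ BadB H P q₀ A ∧ ¬ ∃ w k : ℕ, 2 ≤ k ∧ B = w ^ k} with hN
  have hsub : BadB H P q₀ A ⊆
      ((Finset.range (Nat.log 2 H + 1)).biUnion (fun k => hfin.toFinset.image (fun w => w ^ k)) :
        Finset ℕ) := by
    intro B hB
    obtain ⟨hB0, hBH, hAB, ⟨p, hpp, hpP, hpB⟩, q, x, y, U, s, σ, hq, hqq, hx, hy, hU, hs, hσ, heq⟩ := hB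
    have hB2 : 2 ≤ B := hpp.two_le.trans (Nat.le_of_dvd hB0 hpB)
    obtain ⟨w, k, h1, h2, h3, h4⟩ := exists_root B hB2
    rw [mem_coe, mem_biUnion]
    have hk : 2 ^ k ≤ H := by
      calc 2 ^ k ≤ w ^ k := Nat.pow_le_pow_left h1 k
        _ = B := h3.symm
        _ ≤ H := hBH
    refine ⟨k, ?_, ?_⟩
    · rw [mem_range]
      have := Nat.le_log_of_pow_le (by norm_num : 1 < 2) hk
      omega
    · rw [mem_image]
      refine ⟨w, ?_, h3.symm⟩
      rw [Set.Finite.mem_toFinset, hN]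
      refine ⟨⟨by omega, ?_, ?_, ⟨p, hpp, hpP, ?_⟩, q, x, k * y, U, s, σ, hq, hqq, hx,
        Nat.mul_pos h2 hy, hU, hs, hσ, ?_⟩, h4⟩
      · calc w = w ^ 1 := (pow_one w).symm
          _ ≤ w ^ k := Nat.pow_le_pow_right (by omega) h2
          _ = B := h3.symm
          _ ≤ H := hBH
      · rw [h3] at hAB
        exact (Nat.coprime_pow_right_iff h2 A w).1 hAB
      · rw [h3] at hpB
        exact hpp.dvd_of_dvd_pow hpB
      · rw [heq, h3]
        push_cast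
        rw [← pow_mul]
  have hfin2 := (Finset.finite_toSet ((Finset.range (Nat.log 2 H + 1)).biUnion
    (fun k => hfin.toFinset.image (fun w => w ^ k))))
  refine ⟨hfin2.subset hsub, ?_⟩
  calc (BadB H P q₀ A).ncard ≤ (((Finset.range (Nat.log 2 H + 1)).biUnion
        (fun k => hfin.toFinset.image (fun w => w ^ k)) : Finset ℕ) : Set ℕ).ncard :=
        Set.ncard_le_ncard hsub hfin2
    _ = ((Finset.range (Nat.log 2 H + 1)).biUnion
        (fun k => hfin.toFinset.image (fun w => w ^ k))).card := Set.ncard_coe_finset _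
    _ ≤ ∑ k ∈ Finset.range (Nat.log 2 H + 1), (hfin.toFinset.image (fun w => w ^ k)).card :=
        card_biUnion_le
    _ ≤ ∑ _k ∈ Finset.range (Nat.log 2 H + 1), ((12 * (Q + 1) * (Q + 1) * (P + 1)) * (Q + 1)) := by
        apply sum_le_sum
        intro k _
        refine card_image_le.trans ?_
        rw [← Set.ncard_eq_toFinset_card _ hfin]
        exact hcard
    _ = _ := by rw [sum_const, card_range, smul_eq_mul]

end Pool.Agent.Y353.PS
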