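import Mathlib
import Pool.Agent.Y353.PS.Big
import Pool.Agent.Y353.PS.Loc2
import Pool.Agent.TH194.BL.Fin6

/-!
All exponents of the third base: pairs of bases one of which has a small prime factor.
-/

set_option autoImplicit false

namespace Pool.Agent.Y353.PS

open Finset Filter Topology
open Pool.Agent.H374R2.W
open Pool.Agent.TH194.BL

/-- the pair of bases `(A, B)` occurs in one of the equations `A^x + B^y = C^z`, `A^x + C^z = B^y`,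
`B^y + C^z = A^x` with `z ≥ 2` -/
def SolP (A B : ℕ) : Prop :=
  ∃ x y z C : ℕ, 0 < x ∧ 0 < y ∧ 2 ≤ z ∧ 0 < C ∧
    (A ^ x + B ^ y = C ^ z ∨ A ^ x + C ^ z = B ^ y ∨ B ^ y + C ^ z = A ^ x)

theorem dich {A B : ℕ} (hA : 0 < A) (hB : 0 < B) (hAB : Nat.Coprime A B) (h : SolP A B) {T : ℕ}
    (hT : 2 ≤ T) :
    (∃ n q : ℕ, q.Prime ∧ q ∣ n ∧ q ≤ T ∧ (![A, B] : Fin 2 → ℕ) ∈ Exc 2 n 1) ∨
    (∃ q x y U : ℕ, q.Prime ∧ T + 1 ≤ q ∧ 0 < x ∧ 0 < y ∧ 2 ≤ U ∧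
      (A ^ x + B ^ y = U ^ q ∨ A ^ x + U ^ q = B ^ y ∨ B ^ y + U ^ q = A ^ x)) := by
  obtain ⟨x, y, z, C, hx, hy, hz, hC, h⟩ := h
  rcases Nat.lt_or_ge T z.minFac with hq | hq
  · rcases Nat.lt_or_ge C 2 with hC1 | hC2
    · left
      have hC1' : C = 1 := by omega
      refine ⟨2, 2, Nat.prime_two, dvd_rfl, hT, sol_exc hA hB hAB le_rfl hx hy hC (C := C) ?_⟩
      rw [hC1', one_pow] at h ⊢
      exact h
    · right
      have hU : C ^ z = (C ^ (z / z.minFac)) ^ z.minFac := by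
        rw [← pow_mul, Nat.div_mul_cancel (Nat.minFac_dvd z)]
      have hd : 0 < z / z.minFac := Nat.div_pos (Nat.minFac_le (by omega)) (Nat.minFac_pos z)
      refine ⟨z.minFac, x, y, C ^ (z / z.minFac), Nat.minFac_prime (by omega), hq, hx, hy, ?_, ?_⟩
      · calc 2 ≤ C := hC2
          _ = C ^ 1 := (pow_one C).symm
          _ ≤ C ^ (z / z.minFac) := Nat.pow_le_pow_right (by omega) hd
      · rw [← hU]; exact h
  · left
    exact ⟨z, z.minFac, Nat.minFac_prime (by omega), Nat.minFac_dvd z, hq,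
      sol_exc hA hB hAB hz hx hy hC h⟩

theorem bad_right {H P q₀ A B q x y U : ℕ} (hB : 0 < B) (hBH : B ≤ H) (hAB : Nat.Coprime A B)
    (hp : ∃ p : ℕ, p.Prime ∧ p ≤ P ∧ p ∣ B) (hq : q.Prime) (hqq : q₀ ≤ q) (hx : 0 < x) (hy : 0 < y)
    (hU : 2 ≤ U) (h : A ^ x + B ^ y = U ^ q ∨ A ^ x + U ^ q = B ^ y ∨ B ^ y + U ^ q = A ^ x) :
    B ∈ BadB H P q₀ A := by
  refine ⟨hB, hBH, hAB, hp, q, x, y, U, ?_⟩
  rcases h with h | h | h
  · have h' : (A : ℤ) ^ x + (B : ℤ) ^ y = (U : ℤ) ^ q := by exact_mod_cast h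
    exact ⟨1, 1, hq, hqq, hx, hy, hU, Or.inl rfl, Or.inl rfl, by rw [← h']; ring⟩
  · have h' : (A : ℤ) ^ x + (U : ℤ) ^ q = (B : ℤ) ^ y := by exact_mod_cast h
    exact ⟨-1, 1, hq, hqq, hx, hy, hU, Or.inr rfl, Or.inl rfl, by rw [← h']; ring⟩
  · have h' : (B : ℤ) ^ y + (U : ℤ) ^ q = (A : ℤ) ^ x := by exact_mod_cast h
    exact ⟨1, -1, hq, hqq, hx, hy, hU, Or.inl rfl, Or.inr rfl, by rw [← h']; ring⟩

theorem pow_log (m : ℕ) : (m + 1) ^ 4 ≤ 49 * 2 ^ m := by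
  rcases Nat.lt_or_ge m 7 with h | h
  · interval_cases m <;> norm_num
  · induction m, h using Nat.le_induction with
    | base => norm_num
    | succ n hn ih =>
      have h1 : (n + 1 + 1) ^ 4 ≤ 2 * (n + 1) ^ 4 := by
        obtain ⟨k, rfl⟩ := Nat.exists_eq_add_of_le hn
        nlinarith [sq_nonneg k, Nat.zero_le (k ^ 3), Nat.zero_le (k ^ 4), Nat.zero_le (k ^ 2)]
      calc (n + 1 + 1) ^ 4 ≤ 2 * (n + 1) ^ 4 := h1
        _ ≤ 2 * (49 * 2 ^ n) := Nat.mul_le_mul_left _ ih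
        _ = 49 * 2 ^ (n + 1) := by ring

theorem q_le {q D : ℕ} (hq : 0 < q) (h : q ≤ D * (Nat.log 2 q + 1) ^ 2) : q ≤ 49 * D ^ 2 := by
  have h1 : 2 ^ Nat.log 2 q ≤ q := Nat.pow_log_le_self 2 (by omega)
  have h2 : (Nat.log 2 q + 1) ^ 4 ≤ 49 * q := (pow_log _).trans (Nat.mul_le_mul_left _ h1)
  have h3 : q * q ≤ (49 * D ^ 2) * q := by
    calc q * q ≤ (D * (Nat.log 2 q + 1) ^ 2) * (D * (Nat.log 2 q + 1) ^ 2) := Nat.mul_le_mul h h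
      _ = D ^ 2 * (Nat.log 2 q + 1) ^ 4 := by ring
      _ ≤ D ^ 2 * (49 * q) := Nat.mul_le_mul_left _ h2
      _ = (49 * D ^ 2) * q := by ring
  exact Nat.le_of_mul_le_mul_right h3 hq

theorem log_bound {q : ℕ} (hq : 0 < q) : Real.log (10 ^ 8 * (q : ℝ) ^ 9) ≤ 19 * √(q : ℝ) := by
  have hqR : (0 : ℝ) < q := by exact_mod_cast hq
  have h1 : Real.log (10 ^ 8 * (q : ℝ) ^ 9) = Real.log (10 ^ 8) + 9 * Real.log q := by
    rw [Real.log_mul (by positivity) (by positivity), Real.log_pow _ 9]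
    norm_num
  have h2 : Real.log (10 ^ 8) ≤ 27 * Real.log 2 := by
    have : Real.log (2 ^ 27) = 27 * Real.log 2 := by rw [Real.log_pow]; norm_num
    rw [← this]
    apply Real.log_le_log (by norm_num) (by norm_num)
  have h3 : Real.log q = 2 * Real.log (√(q : ℝ)) := by
    rw [Real.log_sqrt hqR.le]; ring
  have h4 : Real.log (√(q : ℝ)) ≤ √(q : ℝ) - 1 := Real.log_le_sub_one_of_pos (Real.sqrt_pos.2 hqR)
  have h5 : (1 : ℝ) ≤ √(q : ℝ) := by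
    rw [Real.one_le_sqrt]; exact_mod_cast hq
  have h6 := Real.log_two_lt_d9
  rw [h1, h3]
  linarith

/-- The parameters are admissible. -/
theorem pb_of {K N P : ℕ} (hK : 1 ≤ K) (hL : 20000 * (K : ℝ) ≤ Real.log N) :
    PB (N ^ K) P (⌊Real.log N ^ 4⌋₊ + 1) (49 * (10 ^ 9 * P ^ 2 * (Nat.log 2 (N ^ K) + 1) ^ 2) ^ 2)
      (1 / (4 * K * Real.log N)) := by
  have hKR : (1 : ℝ) ≤ K := by exact_mod_cast hK
  set L := Real.log (N : ℝ) with hLd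
  have hL0 : (20000 : ℝ) ≤ L := by linarith
  have hLp : 0 < L := by linarith
  have hKL : 0 < (K : ℝ) * L := by positivity
  have hq0 : L ^ 4 < ((⌊L ^ 4⌋₊ + 1 : ℕ) : ℝ) := by
    push_cast
    exact Nat.lt_floor_add_one _
  have hKL2 : 20000 * (K : ℝ) * L ≤ L ^ 2 := by
    calc 20000 * (K : ℝ) * L ≤ L * L := by gcongr
      _ = L ^ 2 := by ring
  refine ⟨by positivity, ?_, ?_, ?_, ?_, ?_, ?_⟩
  · rw [div_le_div_iff₀ (by positivity) (by norm_num)]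
    nlinarith
  · rw [Nat.cast_pow, Real.log_pow, ← hLd]
    apply le_of_eq
    field_simp
  · have h1 : (3 : ℝ) ≤ ((⌊L ^ 4⌋₊ + 1 : ℕ) : ℝ) := by
      have : (3 : ℝ) ≤ L ^ 4 := by
        calc (3 : ℝ) ≤ L := by linarith
          _ = L ^ 1 := (pow_one L).symm
          _ ≤ L ^ 4 := pow_le_pow_right₀ (by linarith) (by norm_num)
      linarith
    exact_mod_cast h1
  · have h1 : 100 / (1 / (4 * K * L)) ^ 2 = 1600 * (K * L) ^ 2 := by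
      field_simp
      norm_num
    rw [h1]
    have h2 : (40 * (K * L)) ^ 2 ≤ (L ^ 2) ^ 2 := by
      apply pow_le_pow_left₀ (by positivity)
      nlinarith
    nlinarith
  · intro q hq
    have hqp : 0 < q := by omega
    have hqR : (0 : ℝ) < q := by exact_mod_cast hqp
    have hqL : L ^ 4 ≤ (q : ℝ) := by
      have : ((⌊L ^ 4⌋₊ + 1 : ℕ) : ℝ) ≤ q := by exact_mod_cast hq
      linarith
    have hs : L ^ 2 ≤ √(q : ℝ) := by
      rw [Real.le_sqrt (by positivity) hqR.le]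
      have e1 : (L ^ 2) ^ 2 = L ^ 4 := by ring
      rw [e1]
      exact hqL
    have hs0 : 0 < √(q : ℝ) := Real.sqrt_pos.2 hqR
    have hss : √(q : ℝ) * √(q : ℝ) = q := Real.mul_self_sqrt hqR.le
    have h1 : 3 / (1 / (4 * (K : ℝ) * L)) = 12 * (K * L) := by
      field_simp; norm_num
    rw [h1]
    have h2 : 50 * (12 * ((K : ℝ) * L) + 1) * 19 ≤ Real.log 2 * √(q : ℝ) := by
      have h3 : (0.69 : ℝ) ≤ Real.log 2 := by have := Real.log_two_gt_d9; linarith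
      have h4 : (0.69 : ℝ) * L ^ 2 ≤ Real.log 2 * √(q : ℝ) := by gcongr
      nlinarith
    calc 50 * (12 * ((K : ℝ) * L) + 1) * Real.log (10 ^ 8 * (q : ℝ) ^ 9)
        ≤ 50 * (12 * ((K : ℝ) * L) + 1) * (19 * √(q : ℝ)) := by
          apply mul_le_mul_of_nonneg_left (log_bound hqp) (by positivity)
      _ = (50 * (12 * ((K : ℝ) * L) + 1) * 19) * √(q : ℝ) := by ring
      _ ≤ (Real.log 2 * √(q : ℝ)) * √(q : ℝ) := by gcongr
      _ = q * Real.log 2 := by rw [mul_assoc, hss]; ring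
  · intro q hq
    rcases Nat.eq_zero_or_pos q with h0 | h0
    · omega
    · apply q_le h0
      calc q ≤ _ := hq
        _ = _ := by ring

/-- The number of bad second bases. -/
theorem count_of (K : ℕ) (hK : 1 ≤ K) : ∃ N₀ : ℕ, ∀ N : ℕ, N₀ ≤ N → 20000 * (K : ℝ) ≤ Real.log N ∧
    ∀ P : ℕ, (P : ℝ) ≤ (N : ℝ) ^ (1 / 40 : ℝ) →
    (((Nat.log 2 (N ^ K) + 1) * ((12 *
      (49 * (10 ^ 9 * P ^ 2 * (Nat.log 2 (N ^ K) + 1) ^ 2) ^ 2 + 1) *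
      (49 * (10 ^ 9 * P ^ 2 * (Nat.log 2 (N ^ K) + 1) ^ 2) ^ 2 + 1) * (P + 1)) *
      (49 * (10 ^ 9 * P ^ 2 * (Nat.log 2 (N ^ K) + 1) ^ 2) ^ 2 + 1)) : ℕ) : ℝ) ≤
      (N : ℝ) ^ (1 / 2 : ℝ) := by
  have hKR : (1 : ℝ) ≤ K := by exact_mod_cast hK
  have v1 : ∀ᶠ N : ℕ in atTop, 24 * (50 * 10 ^ 18) ^ 3 * (Real.log N) ^ 26 ≤
      (N : ℝ) ^ (7 / 40 : ℝ) := by
    have h := ((isLittleO_log_rpow_rpow_atTop (s := 7 / 40) 26
      (by norm_num)).const_mul_left (24 * (50 * 10 ^ 18) ^ 3)).bound (show (0 : ℝ) < 1 by norm_num)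
    filter_upwards [tendsto_natCast_atTop_atTop.eventually h] with z hz
    rw [one_mul, Real.norm_of_nonneg (Real.rpow_nonneg (Nat.cast_nonneg z) _)] at hz
    refine le_trans ?_ hz
    refine le_trans (le_of_eq ?_) (Real.le_norm_self _)
    have : Real.log (z : ℝ) ^ (26 : ℝ) = Real.log (z : ℝ) ^ 26 := by
      exact_mod_cast Real.rpow_natCast (Real.log (z : ℝ)) 26
    rw [this]
  have v2 : ∀ᶠ N : ℕ in atTop, 20000 * (K : ℝ) ≤ Real.log N :=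
    (Real.tendsto_log_atTop.comp tendsto_natCast_atTop_atTop).eventually_ge_atTop _
  obtain ⟨N₂, hN₂⟩ := eventually_atTop.1 (v1.and v2)
  refine ⟨N₂ + 1, fun N hN => ⟨(hN₂ N (by omega)).2, fun P hP => ?_⟩⟩
  obtain ⟨w1, w2⟩ := hN₂ N (by omega)
  have hN1 : 1 ≤ N := by omega
  have hNR : (0 : ℝ) < N := by exact_mod_cast hN1
  have hN1R : (1 : ℝ) ≤ N := by exact_mod_cast hN1
  set L := Real.log (N : ℝ) with hL
  have hL1 : 20000 ≤ L := by linarith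
  set u := (N : ℝ) ^ (1 / 40 : ℝ) with hu
  have hu1 : 1 ≤ u := Real.one_le_rpow hN1R (by norm_num)
  have hl : ((Nat.log 2 (N ^ K) + 1 : ℕ) : ℝ) ≤ L ^ 2 := by
    have h1 : ((Nat.log 2 (N ^ K) : ℕ) : ℝ) * Real.log 2 ≤ Real.log ((N ^ K : ℕ) : ℝ) := by
      rw [← Real.log_pow]
      apply Real.log_le_log (by positivity)
      have : 2 ^ Nat.log 2 (N ^ K) ≤ N ^ K := Nat.pow_log_le_self 2 (by positivity)
      exact_mod_cast this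
    rw [Nat.cast_pow, Real.log_pow, ← hL] at h1
    have h2 : (1 : ℝ) / 2 ≤ Real.log 2 := by have := Real.log_two_gt_d9; linarith
    have h3 : ((Nat.log 2 (N ^ K) : ℕ) : ℝ) * (1 / 2) ≤ K * L :=
      le_trans (mul_le_mul_of_nonneg_left h2 (by positivity)) h1
    push_cast
    nlinarith
  set ℓ : ℕ := Nat.log 2 (N ^ K) + 1 with hℓ
  have hℓ0 : (0 : ℝ) ≤ (ℓ : ℝ) := Nat.cast_nonneg _
  have hP0 : (0 : ℝ) ≤ (P : ℝ) := Nat.cast_nonneg _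
  have hL0 : 0 ≤ L := by linarith
  have hQ : ((49 * (10 ^ 9 * P ^ 2 * ℓ ^ 2) ^ 2 + 1 : ℕ) : ℝ) ≤ 50 * 10 ^ 18 * u ^ 4 * L ^ 8 := by
    have hc : ((49 * (10 ^ 9 * P ^ 2 * ℓ ^ 2) ^ 2 + 1 : ℕ) : ℝ) =
        49 * (10 ^ 9 * (P : ℝ) ^ 2 * (ℓ : ℝ) ^ 2) ^ 2 + 1 := by
      rw [Nat.cast_add, Nat.cast_mul, Nat.cast_pow, Nat.cast_mul, Nat.cast_mul, Nat.cast_pow,
        Nat.cast_pow, Nat.cast_pow]
      norm_num
    rw [hc]
    have h1 : (10 : ℝ) ^ 9 * (P : ℝ) ^ 2 * (ℓ : ℝ) ^ 2 ≤ 10 ^ 9 * u ^ 2 * (L ^ 2) ^ 2 := by gcongr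
    have h2 : (49 : ℝ) * (10 ^ 9 * (P : ℝ) ^ 2 * (ℓ : ℝ) ^ 2) ^ 2 ≤
        49 * (10 ^ 9 * u ^ 2 * (L ^ 2) ^ 2) ^ 2 := by gcongr
    have h3 : (1 : ℝ) ≤ u ^ 4 * L ^ 8 := by
      have e1 : (1 : ℝ) ≤ u ^ 4 := one_le_pow₀ hu1
      have e2 : (1 : ℝ) ≤ L ^ 8 := one_le_pow₀ (by linarith)
      nlinarith
    calc (49 : ℝ) * (10 ^ 9 * (P : ℝ) ^ 2 * (ℓ : ℝ) ^ 2) ^ 2 + 1
        ≤ 49 * (10 ^ 9 * u ^ 2 * (L ^ 2) ^ 2) ^ 2 + 1 := by linarith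
      _ = 49 * 10 ^ 18 * (u ^ 4 * L ^ 8) + 1 := by ring
      _ ≤ 49 * 10 ^ 18 * (u ^ 4 * L ^ 8) + 10 ^ 18 * (u ^ 4 * L ^ 8) := by nlinarith
      _ = 50 * 10 ^ 18 * u ^ 4 * L ^ 8 := by ring
  set Qn : ℕ := 49 * (10 ^ 9 * P ^ 2 * ℓ ^ 2) ^ 2 + 1 with hQn
  have hQ0 : (0 : ℝ) ≤ (Qn : ℝ) := Nat.cast_nonneg _
  have hPu : (P : ℝ) + 1 ≤ 2 * u := by linarith
  set W := 50 * 10 ^ 18 * u ^ 4 * L ^ 8 with hW
  have hW0 : 0 ≤ W := by positivity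
  have hfin : ((ℓ * ((12 * Qn * Qn * (P + 1)) * Qn) : ℕ) : ℝ) ≤ L ^ 2 * ((12 * W * W * (2 * u)) * W) := by
    push_cast
    gcongr
  refine hfin.trans ?_
  have e1 : L ^ 2 * ((12 * W * W * (2 * u)) * W) = (24 * (50 * 10 ^ 18) ^ 3 * L ^ 26) * u ^ 13 := by
    rw [hW]; ring
  rw [e1]
  have e2 : u ^ 13 = (N : ℝ) ^ (13 / 40 : ℝ) := by
    rw [hu, ← Real.rpow_natCast, ← Real.rpow_mul hNR.le]
    norm_num
  rw [e2]
  calc (24 * (50 * 10 ^ 18) ^ 3 * L ^ 26) * (N : ℝ) ^ (13 / 40 : ℝ) ≤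
      (N : ℝ) ^ (7 / 40 : ℝ) * (N : ℝ) ^ (13 / 40 : ℝ) := by gcongr
    _ = (N : ℝ) ^ (1 / 2 : ℝ) := by
      rw [← Real.rpow_add hNR]; norm_num

end Pool.Agent.Y353.PS
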