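import Mathlib
import Pool.Agent.H154R3.Task469B

/-!
Upper bound for the number of integers without small prime factors in short intervals.
-/

set_option autoImplicit false

namespace Pool.Agent.Y353.PS

open Finset Filter Topology

open Classical in
theorem rough_count : ∃ c : ℝ, 0 < c ∧ ∃ N₀ : ℕ, ∀ N : ℕ, N₀ ≤ N → ∀ X a : ℕ, N ≤ X →
    (((Ioc a (a + X)).filter (fun n => ∀ p : ℕ, p.Prime → (p : ℝ) ≤ (N : ℝ) ^ (1 / 40 : ℝ) →
      ¬ p ∣ n)).card : ℝ) ≤ c * X / Real.log N := by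
  obtain ⟨s, hs, -, z₀, hz₀, h⟩ := Pool.Agent.H154R3.Fund.fundLemma 1 one_pos
  set t : ℕ := max s 40 with ht
  have ht0 : (40 : ℝ) ≤ t := by exact_mod_cast le_max_right s 40
  have htp : (0 : ℝ) < t := by linarith
  have v1 : ∀ᶠ N : ℕ in atTop, (z₀ : ℝ) + 2 ≤ (N : ℝ) ^ (1 / (t : ℝ)) :=
    ((tendsto_rpow_atTop (by positivity)).comp tendsto_natCast_atTop_atTop).eventually_ge_atTop _
  have v2 : ∀ᶠ N : ℕ in atTop, (2 : ℝ) ≤ (N : ℝ) ^ (1 / (2 * t : ℝ)) :=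
    ((tendsto_rpow_atTop (by positivity)).comp tendsto_natCast_atTop_atTop).eventually_ge_atTop _
  have v3 : ∀ᶠ N : ℕ in atTop, (1 : ℝ) ≤ Real.log N :=
    (Real.tendsto_log_atTop.comp tendsto_natCast_atTop_atTop).eventually_ge_atTop _
  obtain ⟨N₁, hN₁⟩ := eventually_atTop.1 (v1.and (v2.and v3))
  refine ⟨8 * t, by positivity, N₁ + 1, fun N hN X a hX => ?_⟩
  obtain ⟨w1, w2, w3⟩ := hN₁ N (by omega)
  have hN1 : 1 ≤ N := by omega
  have hNR : (0 : ℝ) < N := by exact_mod_cast hN1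
  have hN1R : (1 : ℝ) ≤ N := by exact_mod_cast hN1
  set u : ℝ := (N : ℝ) ^ (1 / (t : ℝ)) with hu
  have hu0 : 0 ≤ u := by positivity
  set z : ℕ := ⌊u⌋₊ with hz
  have hzu : (z : ℝ) ≤ u := Nat.floor_le hu0
  have huz : u < (z : ℝ) + 1 := Nat.lt_floor_add_one u
  have hzz : z₀ ≤ z := by
    have : (z₀ : ℝ) < z := by linarith
    exact_mod_cast this.le
  have hz1 : 1 ≤ z := by omega
  have hz1R : (1 : ℝ) ≤ z := by exact_mod_cast hz1
  have hzs : z ^ s ≤ X := by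
    have h1 : z ^ s ≤ z ^ t := Nat.pow_le_pow_right hz1 (le_max_left _ _)
    have h2 : ((z ^ t : ℕ) : ℝ) ≤ N := by
      push_cast
      calc (z : ℝ) ^ t ≤ u ^ t := by gcongr
        _ = N := by
          rw [hu, ← Real.rpow_natCast, ← Real.rpow_mul hNR.le]
          rw [one_div, inv_mul_cancel₀ htp.ne', Real.rpow_one]
    have h3 : z ^ t ≤ N := by exact_mod_cast h2
    omega
  obtain ⟨V, hV0, hV, hVc⟩ := h z hzz
  have h1 := hVc a X hzs
  have h2 : (((Ioc a (a + X)).filter (fun n => ∀ p : ℕ, p.Prime → p < z → ¬ p ∣ n)).card : ℝ) ≤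
      2 * (V * X) := by
    have h3 := (abs_le.1 h1).2
    have hsR : (1 : ℝ) ≤ (s : ℝ) ^ 8 := one_le_pow₀ (by exact_mod_cast hs)
    have hVX : 0 ≤ V * X := by positivity
    have h4 : 1 / (s : ℝ) ^ 8 * V * X ≤ V * X := by
      rw [mul_assoc]
      have h5 : 1 / (s : ℝ) ^ 8 ≤ 1 := by
        rw [div_le_one (by positivity)]; exact hsR
      calc 1 / (s : ℝ) ^ 8 * (V * X) ≤ 1 * (V * X) := mul_le_mul_of_nonneg_right h5 hVX
        _ = V * X := one_mul _
    linarith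
  have hsub : (Ioc a (a + X)).filter (fun n => ∀ p : ℕ, p.Prime → (p : ℝ) ≤ (N : ℝ) ^ (1 / 40 : ℝ) →
      ¬ p ∣ n) ⊆ (Ioc a (a + X)).filter (fun n => ∀ p : ℕ, p.Prime → p < z → ¬ p ∣ n) := by
    intro n hn
    rw [mem_filter] at hn ⊢
    refine ⟨hn.1, fun p hp hpz => hn.2 p hp ?_⟩
    have h5 : (p : ℝ) ≤ z := by exact_mod_cast hpz.le
    have h6 : u ≤ (N : ℝ) ^ (1 / 40 : ℝ) := by
      rw [hu]
      apply Real.rpow_le_rpow_of_exponent_le hN1R
      apply one_div_le_one_div_of_le (by norm_num) ht0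
    linarith
  have h7 : Real.log N / (2 * t) ≤ Real.log z := by
    have h8 : (N : ℝ) ^ (1 / (2 * t : ℝ)) ≤ z := by
      have h9 : u = (N : ℝ) ^ (1 / (2 * t : ℝ)) * (N : ℝ) ^ (1 / (2 * t : ℝ)) := by
        rw [← Real.rpow_add hNR, hu]
        congr 1
        have htn : (t : ℝ) ≠ 0 := htp.ne'
        rw [← add_div, one_add_one_eq_two, div_mul_cancel_left₀ (two_ne_zero' ℝ), one_div]
      nlinarith
    have h10 : Real.log N / (2 * t) = Real.log ((N : ℝ) ^ (1 / (2 * t : ℝ))) := by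
      rw [Real.log_rpow hNR]; ring
    rw [h10]
    exact Real.log_le_log (by positivity) h8
  have hlz : 0 < Real.log z := lt_of_lt_of_le (by positivity) h7
  calc (((Ioc a (a + X)).filter (fun n => ∀ p : ℕ, p.Prime → (p : ℝ) ≤ (N : ℝ) ^ (1 / 40 : ℝ) →
      ¬ p ∣ n)).card : ℝ) ≤ 2 * (V * X) := le_trans (by exact_mod_cast card_le_card hsub) h2
    _ ≤ 2 * (2 / Real.log z * X) := by gcongr
    _ ≤ 2 * (2 / (Real.log N / (2 * t)) * X) := by gcongr
    _ = 8 * t * X / Real.log N := by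
        rw [div_div_eq_mul_div]; ring

end Pool.Agent.Y353.PS
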