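import Mathlib
import Pool.Agent.Y353.PS.Main
import Pool.Agent.Y353.PS.Rough

/-!
A power saving for pairs of bases one of which has a small prime factor, and a saving of the square of a
logarithm for all pairs.
-/

set_option autoImplicit false

namespace Pool.Agent.Y353.PS

open Finset Filter Topology
open Pool.Agent.H374R2.W
open Pool.Agent.TH194.BL

/-- the set of all coprime pairs in the box which are bases of a solution and whose product has a prime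
factor at most `N ^ (1/40)` -/
def PairSet (N X Y a b : ℕ) : Set (ℕ × ℕ) :=
  {p | (a < p.1 ∧ p.1 ≤ a + X) ∧ (b < p.2 ∧ p.2 ≤ b + Y) ∧ Nat.Coprime p.1 p.2 ∧
    (∃ r : ℕ, r.Prime ∧ (r : ℝ) ≤ (N : ℝ) ^ (1 / 40 : ℝ) ∧ r ∣ p.1 * p.2) ∧ SolP p.1 p.2}

theorem pairs_small : ∃ δ : ℝ, 0 < δ ∧ ∀ K : ℕ, ∃ N₀ : ℕ, ∀ N : ℕ, N₀ ≤ N → ∀ X Y a b : ℕ,
    N ≤ X → N ≤ Y → a + X ≤ N ^ K → b + Y ≤ N ^ K →
    ((PairSet N X Y a b).ncard : ℝ) ≤ (N : ℝ) ^ (-δ) * ((X : ℝ) * Y) := by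
  classical
  obtain ⟨δ₀, hδ₀, hδ₁, hps⟩ := power_saving
  set δ : ℝ := δ₀ / 4 with hδ
  refine ⟨δ, by positivity, fun K' => ?_⟩
  set K : ℕ := K' + 1 with hK
  have hK1 : 1 ≤ K := by omega
  obtain ⟨N₁, hN₁⟩ := count_of K hK1
  obtain ⟨N₂, hN₂⟩ := hps 2 4
  have v1 : ∀ᶠ N : ℕ in atTop, (3 : ℝ) ≤ (N : ℝ) ^ (δ₀ / 4 : ℝ) :=
    ((tendsto_rpow_atTop (by positivity)).comp tendsto_natCast_atTop_atTop).eventually_ge_atTop _
  obtain ⟨N₃, hN₃⟩ := eventually_atTop.1 v1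
  refine ⟨max (max N₁ N₂) (max N₃ 2), fun N hN X Y a b hX hY haX hbY => ?_⟩
  simp only [max_le_iff] at hN
  obtain ⟨⟨g1, g2⟩, g3, g4⟩ := hN
  obtain ⟨hL, hcount⟩ := hN₁ N g1
  have w1 := hN₃ N g3
  have hNR : (0 : ℝ) < N := by exact_mod_cast (by omega : 0 < N)
  have hN1R : (1 : ℝ) ≤ N := by exact_mod_cast (by omega : 1 ≤ N)
  have hKR : (1 : ℝ) ≤ K := by exact_mod_cast hK1
  set L := Real.log (N : ℝ) with hLd
  have hL1 : (20000 : ℝ) ≤ L := by linarith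
  set H : ℕ := N ^ K with hH
  have hH' : N ^ K' ≤ H := Nat.pow_le_pow_right (by omega) (by omega)
  set P : ℕ := ⌊(N : ℝ) ^ (1 / 40 : ℝ)⌋₊ with hP
  have hPN : (P : ℝ) ≤ (N : ℝ) ^ (1 / 40 : ℝ) := Nat.floor_le (by positivity)
  set T : ℕ := ⌊L ^ 4⌋₊ with hT
  have hT2 : 2 ≤ T := by
    rw [hT]
    apply Nat.le_floor
    push_cast
    calc (2 : ℝ) ≤ L := by linarith
      _ = L ^ 1 := (pow_one L).symm
      _ ≤ L ^ 4 := pow_le_pow_right₀ (by linarith) (by norm_num)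
  have hTL : (T : ℝ) ≤ L ^ 4 := Nat.floor_le (by positivity)
  have hpb := pb_of (K := K) (N := N) (P := P) hK1 hL
  rw [← hLd, ← hT, ← hH] at hpb
  have hM := hcount P hPN
  set M : ℕ := (Nat.log 2 H + 1) * ((12 *
      (49 * (10 ^ 9 * P ^ 2 * (Nat.log 2 H + 1) ^ 2) ^ 2 + 1) *
      (49 * (10 ^ 9 * P ^ 2 * (Nat.log 2 H + 1) ^ 2) ^ 2 + 1) * (P + 1)) *
      (49 * (10 ^ 9 * P ^ 2 * (Nat.log 2 H + 1) ^ 2) ^ 2 + 1)) with hMd
  set box := Ioc a (a + X) ×ˢ Ioc b (b + Y) with hbox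
  set F1 := box.filter (fun p : ℕ × ℕ => ∃ n q : ℕ, q.Prime ∧ q ∣ n ∧ q ≤ T ∧
    (![p.1, p.2] : Fin 2 → ℕ) ∈ Exc 2 n 1) with hF1
  set F2 := box.filter (fun p : ℕ × ℕ => p.2 ∈ BadB H P (T + 1) p.1) with hF2
  set F3 := box.filter (fun p : ℕ × ℕ => p.1 ∈ BadB H P (T + 1) p.2) with hF3
  have hsub : PairSet N X Y a b ⊆ ((F1 ∪ (F2 ∪ F3) : Finset (ℕ × ℕ)) : Set (ℕ × ℕ)) := by
    rintro ⟨A, B⟩ ⟨hA, hB, hco, ⟨r, hr, hrN, hrd⟩, hsol⟩
    simp only at hA hB hco hrd hsol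
    rw [mem_coe, mem_union, mem_union]
    have hbx : (A, B) ∈ box := by
      rw [hbox, mem_product, mem_Ioc, mem_Ioc]
      exact ⟨hA, hB⟩
    have hA0 : 0 < A := by omega
    have hB0 : 0 < B := by omega
    have hAH : A ≤ H := by omega
    have hBH : B ≤ H := by omega
    have hrP : r ≤ P := Nat.le_floor hrN
    rcases dich hA0 hB0 hco hsol hT2 with h | ⟨q, x, y, U, hq, hqT, hx, hy, hU, h⟩
    · left
      rw [hF1, mem_filter]
      exact ⟨hbx, h⟩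
    · right
      rcases (Nat.Prime.dvd_mul hr).1 hrd with hd | hd
      · right
        rw [hF3, mem_filter]
        refine ⟨hbx, bad_right hA0 hAH hco.symm ⟨r, hr, hrP, hd⟩ hq hqT hy hx hU ?_⟩
        rcases h with h | h | h
        · left; rw [add_comm]; exact h
        · right; right; exact h
        · right; left; exact h
      · left
        rw [hF2, mem_filter]
        exact ⟨hbx, bad_right hB0 hBH hco ⟨r, hr, hrP, hd⟩ hq hqT hx hy hU h⟩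
  have hXR : (N : ℝ) ≤ X := by exact_mod_cast hX
  have hYR : (N : ℝ) ≤ Y := by exact_mod_cast hY
  have hX0 : (0 : ℝ) ≤ X := Nat.cast_nonneg _
  have hY0 : (0 : ℝ) ≤ Y := Nat.cast_nonneg _
  -- F1
  have k1 : (F1.card : ℝ) ≤ (N : ℝ) ^ (-δ₀) * ((X : ℝ) * Y) := by
    set E : Finset (Fin 2 → ℕ) := F1.image (fun p : ℕ × ℕ => (![p.1, p.2] : Fin 2 → ℕ)) with hE
    have hEc : F1.card = E.card := by
      rw [hE, card_image_of_injective]
      intro p p' hpp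
      have e1 := congrFun hpp 0
      have e2 := congrFun hpp 1
      simp at e1 e2
      exact Prod.ext e1 e2
    have h1 := hN₂ N g2 ![a, b] ![X, Y] (by
      intro i; fin_cases i
      · exact hX
      · exact hY) E (by
      intro A hA
      rw [hE, mem_image] at hA
      obtain ⟨p, hp, rfl⟩ := hA
      rw [hF1, mem_filter, hbox, mem_product, mem_Ioc, mem_Ioc] at hp
      obtain ⟨hp1, n, q, hq, hqn, hqT, hex⟩ := hp
      refine ⟨?_, n, q, hq, hqn, ?_, hex⟩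
      · intro i; fin_cases i
        · exact hp1.1
        · exact hp1.2
      · have : (q : ℝ) ≤ T := by exact_mod_cast hqT
        exact this.trans hTL)
    rw [← hEc] at h1
    simpa only [Fin.prod_univ_two, Matrix.cons_val_zero, Matrix.cons_val_one] using h1
  -- F2
  have k2 : (F2.card : ℝ) ≤ X * (N : ℝ) ^ (1 / 2 : ℝ) := by
    have h1 : F2.card = ∑ A ∈ Ioc a (a + X), (F2.filter (fun p => p.1 = A)).card := by
      apply card_eq_sum_card_fiberwise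
      intro p hp
      rw [mem_coe, hF2, mem_filter, hbox, mem_product] at hp
      exact hp.1.1
    have h2 : ∀ A ∈ Ioc a (a + X), ((F2.filter (fun p => p.1 = A)).card : ℝ) ≤
        (N : ℝ) ^ (1 / 2 : ℝ) := by
      intro A hA
      rw [mem_Ioc] at hA
      have hb := badB_card (A := A) hpb (by omega) (by omega)
      refine le_trans ?_ hM
      have h4 : (F2.filter (fun p => p.1 = A)).card ≤ (BadB H P (T + 1) A).ncard := by
        rw [← Set.ncard_coe_finset]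
        apply Set.ncard_le_ncard_of_injOn (fun p => p.2) _ _ hb.1
        · intro p hp
          rw [mem_coe, mem_filter, hF2, mem_filter] at hp
          rw [← hp.2]; exact hp.1.2
        · intro p hp p' hp' hpp
          rw [mem_coe, mem_filter] at hp hp'
          exact Prod.ext (hp.2.trans hp'.2.symm) hpp
      exact_mod_cast h4.trans hb.2
    calc (F2.card : ℝ) = ∑ A ∈ Ioc a (a + X), ((F2.filter (fun p => p.1 = A)).card : ℝ) := by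
          rw [h1]; push_cast; rfl
      _ ≤ ∑ A ∈ Ioc a (a + X), (N : ℝ) ^ (1 / 2 : ℝ) := sum_le_sum h2
      _ = _ := by rw [sum_const, nsmul_eq_mul, Nat.card_Ioc, Nat.add_sub_cancel_left]
  -- F3
  have k3 : (F3.card : ℝ) ≤ Y * (N : ℝ) ^ (1 / 2 : ℝ) := by
    have h1 : F3.card = ∑ B ∈ Ioc b (b + Y), (F3.filter (fun p => p.2 = B)).card := by
      apply card_eq_sum_card_fiberwise
      intro p hp
      rw [mem_coe, hF3, mem_filter, hbox, mem_product] at hp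
      exact hp.1.2
    have h2 : ∀ B ∈ Ioc b (b + Y), ((F3.filter (fun p => p.2 = B)).card : ℝ) ≤
        (N : ℝ) ^ (1 / 2 : ℝ) := by
      intro B hB
      rw [mem_Ioc] at hB
      have hb := badB_card (A := B) hpb (by omega) (by omega)
      refine le_trans ?_ hM
      have h4 : (F3.filter (fun p => p.2 = B)).card ≤ (BadB H P (T + 1) B).ncard := by
        rw [← Set.ncard_coe_finset]
        apply Set.ncard_le_ncard_of_injOn (fun p => p.1) _ _ hb.1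
        · intro p hp
          rw [mem_coe, mem_filter, hF3, mem_filter] at hp
          rw [← hp.2]; exact hp.1.2
        · intro p hp p' hp' hpp
          rw [mem_coe, mem_filter] at hp hp'
          exact Prod.ext hpp (hp.2.trans hp'.2.symm)
      exact_mod_cast h4.trans hb.2
    calc (F3.card : ℝ) = ∑ B ∈ Ioc b (b + Y), ((F3.filter (fun p => p.2 = B)).card : ℝ) := by
          rw [h1]; push_cast; rfl
      _ ≤ ∑ B ∈ Ioc b (b + Y), (N : ℝ) ^ (1 / 2 : ℝ) := sum_le_sum h2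
      _ = _ := by rw [sum_const, nsmul_eq_mul, Nat.card_Ioc, Nat.add_sub_cancel_left]
  have hcardle : (PairSet N X Y a b).ncard ≤ F1.card + (F2.card + F3.card) := by
    refine (Set.ncard_le_ncard hsub (finite_toSet _)).trans ?_
    rw [Set.ncard_coe_finset]
    exact (card_union_le _ _).trans (Nat.add_le_add_left (card_union_le _ _) _)
  have hcardle' : ((PairSet N X Y a b).ncard : ℝ) ≤ F1.card + (F2.card + F3.card) := by
    exact_mod_cast hcardle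
  -- comparison of the powers of `N`
  have e0 : (N : ℝ) ^ (1 / 2 : ℝ) = (N : ℝ) ^ (-(1 / 2) : ℝ) * N := by
    nth_rewrite 3 [← Real.rpow_one (N : ℝ)]
    rw [← Real.rpow_add hNR]; norm_num
  have e1 : (N : ℝ) ^ (-(1 / 2) : ℝ) ≤ (N : ℝ) ^ (-(δ₀ / 2)) :=
    Real.rpow_le_rpow_of_exponent_le hN1R (by linarith)
  have e2 : (N : ℝ) ^ (-δ₀) ≤ (N : ℝ) ^ (-(δ₀ / 2)) :=
    Real.rpow_le_rpow_of_exponent_le hN1R (by linarith)
  have e3 : 3 * (N : ℝ) ^ (-(δ₀ / 2)) ≤ (N : ℝ) ^ (-δ) := by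
    calc 3 * (N : ℝ) ^ (-(δ₀ / 2)) ≤ (N : ℝ) ^ (δ₀ / 4 : ℝ) * (N : ℝ) ^ (-(δ₀ / 2)) := by gcongr
      _ = (N : ℝ) ^ (-δ) := by rw [← Real.rpow_add hNR]; congr 1; rw [hδ]; ring
  have hXY : (0 : ℝ) ≤ (X : ℝ) * Y := by positivity
  have f0 : (0 : ℝ) ≤ (N : ℝ) ^ (-(1 / 2) : ℝ) := by positivity
  have f2 : X * (N : ℝ) ^ (1 / 2 : ℝ) ≤ (N : ℝ) ^ (-(1 / 2) : ℝ) * ((X : ℝ) * Y) := by
    rw [e0]
    calc (X : ℝ) * ((N : ℝ) ^ (-(1 / 2) : ℝ) * N) = ((N : ℝ) ^ (-(1 / 2) : ℝ) * X) * N := by ring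
      _ ≤ ((N : ℝ) ^ (-(1 / 2) : ℝ) * X) * Y := by gcongr
      _ = _ := by ring
  have f3 : Y * (N : ℝ) ^ (1 / 2 : ℝ) ≤ (N : ℝ) ^ (-(1 / 2) : ℝ) * ((X : ℝ) * Y) := by
    rw [e0]
    calc (Y : ℝ) * ((N : ℝ) ^ (-(1 / 2) : ℝ) * N) = ((N : ℝ) ^ (-(1 / 2) : ℝ) * Y) * N := by ring
      _ ≤ ((N : ℝ) ^ (-(1 / 2) : ℝ) * Y) * X := by gcongr
      _ = _ := by ring
  calc ((PairSet N X Y a b).ncard : ℝ) ≤ F1.card + (F2.card + F3.card) := hcardle'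
    _ ≤ (N : ℝ) ^ (-δ₀) * ((X : ℝ) * Y) + ((N : ℝ) ^ (-(1 / 2) : ℝ) * ((X : ℝ) * Y) +
        (N : ℝ) ^ (-(1 / 2) : ℝ) * ((X : ℝ) * Y)) := by
        have := k2.trans f2
        have := k3.trans f3
        linarith
    _ ≤ (N : ℝ) ^ (-(δ₀ / 2)) * ((X : ℝ) * Y) + ((N : ℝ) ^ (-(δ₀ / 2)) * ((X : ℝ) * Y) +
        (N : ℝ) ^ (-(δ₀ / 2)) * ((X : ℝ) * Y)) := by gcongr
    _ = (3 * (N : ℝ) ^ (-(δ₀ / 2))) * ((X : ℝ) * Y) := by ring
    _ ≤ (N : ℝ) ^ (-δ) * ((X : ℝ) * Y) := by gcongr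

theorem pairs_all : ∃ c : ℝ, 0 < c ∧ ∀ K : ℕ, ∃ N₀ : ℕ, ∀ N : ℕ, N₀ ≤ N → ∀ X Y a b : ℕ,
    N ≤ X → N ≤ Y → a + X ≤ N ^ K → b + Y ≤ N ^ K →
    (({p : ℕ × ℕ | (a < p.1 ∧ p.1 ≤ a + X) ∧ (b < p.2 ∧ p.2 ≤ b + Y) ∧ Nat.Coprime p.1 p.2 ∧
      SolP p.1 p.2}.ncard : ℕ) : ℝ) ≤ c * ((X : ℝ) * Y) / Real.log N ^ 2 := by
  classical
  obtain ⟨δ, hδ, hsm⟩ := pairs_small
  obtain ⟨c, hc, N₁, hr⟩ := rough_count
  refine ⟨c ^ 2 + 1, by positivity, fun K => ?_⟩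
  obtain ⟨N₂, h2⟩ := hsm K
  have v1 : ∀ᶠ N : ℕ in atTop, (Real.log N) ^ 2 ≤ (N : ℝ) ^ δ := by
    have h := ((isLittleO_log_rpow_rpow_atTop (s := δ) 2 hδ)).bound (show (0 : ℝ) < 1 by norm_num)
    filter_upwards [tendsto_natCast_atTop_atTop.eventually h] with z hz
    rw [one_mul, Real.norm_of_nonneg (Real.rpow_nonneg (Nat.cast_nonneg z) _)] at hz
    refine le_trans ?_ hz
    refine le_trans (le_of_eq ?_) (Real.le_norm_self _)
    have : Real.log (z : ℝ) ^ (2 : ℝ) = Real.log (z : ℝ) ^ 2 := by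
      exact_mod_cast Real.rpow_natCast (Real.log (z : ℝ)) 2
    rw [this]
  have v2 : ∀ᶠ N : ℕ in atTop, (1 : ℝ) ≤ Real.log N :=
    (Real.tendsto_log_atTop.comp tendsto_natCast_atTop_atTop).eventually_ge_atTop _
  obtain ⟨N₃, hN₃⟩ := eventually_atTop.1 (v1.and v2)
  refine ⟨max (max N₁ N₂) (max N₃ 2), fun N hN X Y a b hX hY haX hbY => ?_⟩
  simp only [max_le_iff] at hN
  obtain ⟨⟨g1, g2⟩, g3, g4⟩ := hN
  obtain ⟨w1, w2⟩ := hN₃ N g3
  have hNR : (0 : ℝ) < N := by exact_mod_cast (by omega : 0 < N)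
  have k1 := h2 N g2 X Y a b hX hY haX hbY
  set R1 := (Ioc a (a + X)).filter (fun n => ∀ p : ℕ, p.Prime → (p : ℝ) ≤ (N : ℝ) ^ (1 / 40 : ℝ) →
      ¬ p ∣ n) with hR1
  set R2 := (Ioc b (b + Y)).filter (fun n => ∀ p : ℕ, p.Prime → (p : ℝ) ≤ (N : ℝ) ^ (1 / 40 : ℝ) →
      ¬ p ∣ n) with hR2
  have r1 := hr N g1 X a hX
  have r2 := hr N g1 Y b hY
  have hfin : (PairSet N X Y a b).Finite := by
    apply (finite_toSet (Ioc a (a + X) ×ˢ Ioc b (b + Y))).subset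
    rintro p ⟨h1, h2, -⟩
    rw [mem_coe, mem_product, mem_Ioc, mem_Ioc]
    exact ⟨h1, h2⟩
  have hsub : {p : ℕ × ℕ | (a < p.1 ∧ p.1 ≤ a + X) ∧ (b < p.2 ∧ p.2 ≤ b + Y) ∧
      Nat.Coprime p.1 p.2 ∧ SolP p.1 p.2} ⊆ PairSet N X Y a b ∪ ((R1 ×ˢ R2 : Finset (ℕ × ℕ)) :
        Set (ℕ × ℕ)) := by
    rintro p ⟨h1, h2, h3, h4⟩
    by_cases hp : ∃ r : ℕ, r.Prime ∧ (r : ℝ) ≤ (N : ℝ) ^ (1 / 40 : ℝ) ∧ r ∣ p.1 * p.2
    · left; exact ⟨h1, h2, h3, hp, h4⟩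
    · right
      rw [mem_coe, mem_product, hR1, hR2, mem_filter, mem_filter, mem_Ioc, mem_Ioc]
      refine ⟨⟨h1, fun r hr hrN hd => hp ⟨r, hr, hrN, hd.mul_right _⟩⟩,
        ⟨h2, fun r hr hrN hd => hp ⟨r, hr, hrN, hd.mul_left _⟩⟩⟩
  have h5 : ({p : ℕ × ℕ | (a < p.1 ∧ p.1 ≤ a + X) ∧ (b < p.2 ∧ p.2 ≤ b + Y) ∧
      Nat.Coprime p.1 p.2 ∧ SolP p.1 p.2}.ncard : ℕ) ≤ (PairSet N X Y a b).ncard +
        R1.card * R2.card := by
    refine (Set.ncard_le_ncard hsub (hfin.union (finite_toSet _))).trans ?_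
    refine (Set.ncard_union_le _ _).trans ?_
    rw [Set.ncard_coe_finset, card_product]
  have h6 : (({p : ℕ × ℕ | (a < p.1 ∧ p.1 ≤ a + X) ∧ (b < p.2 ∧ p.2 ≤ b + Y) ∧
      Nat.Coprime p.1 p.2 ∧ SolP p.1 p.2}.ncard : ℕ) : ℝ) ≤ (PairSet N X Y a b).ncard +
        (R1.card : ℝ) * R2.card := by exact_mod_cast h5
  refine h6.trans ?_
  have hL0 : 0 < Real.log N := by linarith
  have h7 : (R1.card : ℝ) * R2.card ≤ (c * X / Real.log N) * (c * Y / Real.log N) := by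
    gcongr
  have h8 : (N : ℝ) ^ (-δ) * ((X : ℝ) * Y) ≤ (X : ℝ) * Y / Real.log N ^ 2 := by
    rw [Real.rpow_neg hNR.le, div_eq_inv_mul]
    gcongr
  calc ((PairSet N X Y a b).ncard : ℝ) + (R1.card : ℝ) * R2.card
      ≤ (X : ℝ) * Y / Real.log N ^ 2 + (c * X / Real.log N) * (c * Y / Real.log N) := by
        linarith
    _ = (c ^ 2 + 1) * ((X : ℝ) * Y) / Real.log N ^ 2 := by
        field_simp; ring

end Pool.Agent.Y353.PS
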