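import Mathlib
import Pool.Agent.Y353.PS.Bk
import Pool.Agent.Y353.PS.Pairs

/-!
Pairs of bases with one not too large exponent.
-/

set_option autoImplicit false

namespace Pool.Agent.Y353.PS

open Finset Filter Topology
open Pool.Agent.H374R2.W
open Pool.Agent.TH194.BL

/-- the exponent `x` is much smaller than the exponent `y`: the archimedean case -/
theorem arch_q {A B x y q U : ℕ} (hA : 0 < A) (hB : 2 ≤ B) (hq : q.Prime) (hU : 2 ≤ U) (hy : 0 < y)
    (h : A ^ x + B ^ y = U ^ q ∨ A ^ x + U ^ q = B ^ y)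
    (hsm : (A : ℝ) ^ x < (B : ℝ) ^ ((y : ℝ) / 2)) :
    q ≤ 49 * (10 ^ 9 * (Nat.log 2 B + 1)) ^ 2 := by
  have hBR : (1 : ℝ) < B := by exact_mod_cast (by omega : 1 < B)
  have habs : |(U : ℝ) ^ q - (B : ℝ) ^ y| = (A : ℝ) ^ x := by
    rcases h with h | h
    · have h' : (A : ℝ) ^ x + (B : ℝ) ^ y = (U : ℝ) ^ q := by exact_mod_cast h
      rw [← h', add_sub_cancel_right, abs_of_nonneg (by positivity)]
    · have h' : (A : ℝ) ^ x + (U : ℝ) ^ q = (B : ℝ) ^ y := by exact_mod_cast h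
      rw [← h']
      rw [show (U : ℝ) ^ q - ((A : ℝ) ^ x + (U : ℝ) ^ q) = -((A : ℝ) ^ x) by ring, abs_neg,
        abs_of_nonneg (by positivity)]
  by_cases hqy : q ∣ y
  · exfalso
    obtain ⟨y1, rfl⟩ := hqy
    have hy1 : 0 < y1 := Nat.pos_of_mul_pos_left hy |> fun h => by
      rcases Nat.eq_zero_or_pos y1 with h0 | h0
      · rw [h0, mul_zero] at hy; omega
      · exact h0
    set V := B ^ y1 with hV
    have hBV : B ^ (q * y1) = V ^ q := by rw [hV, ← pow_mul, mul_comm]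
    have hA0 : 0 < A ^ x := Nat.pow_pos hA
    have hge : V ^ (q - 1) ≤ A ^ x := by
      rw [hBV] at h
      rcases h with h | h
      · have hlt : V < U := by
          apply lt_of_pow_lt_pow_left₀ q (Nat.zero_le _)
          omega
        have h1 := pow_sub_ge hlt hq.one_lt.le
        have h2 : V ^ (q - 1) ≤ U ^ (q - 1) := Nat.pow_le_pow_left hlt.le _
        omega
      · have hlt : U < V := by
          apply lt_of_pow_lt_pow_left₀ q (Nat.zero_le _)
          omega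
        have h1 := pow_sub_ge hlt hq.one_lt.le
        omega
    have hgeR : (V : ℝ) ^ (q - 1) ≤ (A : ℝ) ^ x := by exact_mod_cast hge
    have hle : (B : ℝ) ^ (((q * y1 : ℕ) : ℝ) / 2) ≤ (V : ℝ) ^ (q - 1) := by
      have h1 : (V : ℝ) ^ (q - 1) = (B : ℝ) ^ (((y1 * (q - 1) : ℕ)) : ℝ) := by
        rw [Real.rpow_natCast, hV, pow_mul]; push_cast; rfl
      rw [h1]
      apply Real.rpow_le_rpow_of_exponent_le hBR.le
      rw [div_le_iff₀ (by norm_num)]
      have h2 : q * y1 ≤ y1 * (q - 1) * 2 := by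
        obtain ⟨r, rfl⟩ : ∃ r, q = r + 2 := ⟨q - 2, by have := hq.two_le; omega⟩
        rw [show r + 2 - 1 = r + 1 by omega]
        nlinarith
      exact_mod_cast h2
    linarith
  · have h1 := real_two_logs hB hU hq hqy hy (by rw [habs]; exact hsm.le)
    exact q_le hq.pos h1

theorem small_pow {K L : ℝ} {b : ℕ} (hL : 16 * K + 2 ≤ L) (hK : 1 ≤ K) :
    8 * K * L * Real.exp (L ^ b) ≤ Real.exp (L ^ (b + 2)) := by
  have hL1 : 1 ≤ L := by linarith
  have h1 : L ^ b + L ≤ L ^ (b + 2) := by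
    have h2 : (1 : ℝ) ≤ L ^ b := one_le_pow₀ hL1
    have h3 : L ^ (b + 2) = L ^ b * L ^ 2 := by ring
    have h5 : L ≤ L ^ 2 - 1 := by nlinarith
    rw [h3]
    nlinarith [mul_nonneg (sub_nonneg.2 h2) (by linarith : (0 : ℝ) ≤ L ^ 2 - 1)]
  have h4 : 8 * K * L ≤ Real.exp L := by
    have h5 := Real.quadratic_le_exp_of_nonneg (by linarith : (0 : ℝ) ≤ L)
    nlinarith
  calc 8 * K * L * Real.exp (L ^ b) ≤ Real.exp L * Real.exp (L ^ b) := by gcongr
    _ = Real.exp (L ^ b + L) := by rw [← Real.exp_add, add_comm]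
    _ ≤ Real.exp (L ^ (b + 2)) := Real.exp_le_exp.2 h1

/-- pairs of odd bases, one exponent at most `exp ((log N) ^ b)` -/
theorem min_q (K b : ℕ) : ∃ B' N₀ : ℕ, ∀ N : ℕ, N₀ ≤ N → ∀ A B x y z C : ℕ, 2 ≤ A → 2 ≤ B →
    A ≤ N ^ K → B ≤ N ^ K → Nat.Coprime A B → ¬ 2 ∣ A → ¬ 2 ∣ B → 0 < x → 0 < y → 2 ≤ z → 2 ≤ C →
    (A ^ x + B ^ y = C ^ z ∨ A ^ x + C ^ z = B ^ y ∨ B ^ y + C ^ z = A ^ x) →
    (x : ℝ) ≤ Real.exp (Real.log N ^ b) →
    ∃ q : ℕ, q.Prime ∧ q ∣ z ∧ (q : ℝ) ≤ Real.log N ^ B' := by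
  obtain ⟨B₁, N₁, h₁⟩ := exp_poly 2 (K + b + 2)
  have v2 : ∀ᶠ N : ℕ in atTop, 200 * 10 ^ 18 * (K + 1 : ℝ) ^ 2 ≤ Real.log N :=
    (Real.tendsto_log_atTop.comp tendsto_natCast_atTop_atTop).eventually_ge_atTop _
  obtain ⟨N₂, hN₂⟩ := eventually_atTop.1 v2
  refine ⟨max B₁ 3, max (max N₁ N₂) 1, fun N hN A B x y z C hA hB hAN hBN hco hA2 hB2 hx hy hz hC heq hxb => ?_⟩
  simp only [max_le_iff] at hN
  obtain ⟨⟨g1, g2⟩, g3⟩ := hN
  have w1 := hN₂ N g2
  set L := Real.log (N : ℝ) with hL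
  have hK0 : (0 : ℝ) ≤ K := Nat.cast_nonneg _
  have hLK : 200 * 10 ^ 18 * (K + 1 : ℝ) ≤ L := by nlinarith
  have hL1 : 1 ≤ L := by nlinarith
  have hNR : (0 : ℝ) < N := by exact_mod_cast g3
  have hNK : N ^ K ≤ N ^ (K + b + 2) := Nat.pow_le_pow_right g3 (by omega)
  by_cases hyb : (y : ℝ) ≤ Real.exp (L ^ (b + 2))
  · -- both exponents are small
    have hLb : L ^ (b + 2) ≤ L ^ (K + b + 2) := pow_le_pow_right₀ hL1 (by omega)
    have hLb' : L ^ b ≤ L ^ (K + b + 2) := pow_le_pow_right₀ hL1 (by omega)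
    have hx' : (x : ℝ) ≤ Real.exp (L ^ (K + b + 2)) := hxb.trans (Real.exp_le_exp.2 hLb')
    have hy' : (y : ℝ) ≤ Real.exp (L ^ (K + b + 2)) := hyb.trans (Real.exp_le_exp.2 hLb)
    have h0' : ((0 : ℕ) : ℝ) ≤ Real.exp (L ^ (K + b + 2)) := by
      push_cast; exact (Real.exp_pos _).le
    have hAodd : ¬ 2 ∣ A ^ x := fun h => hA2 (Nat.prime_two.dvd_of_dvd_pow h)
    have hBodd : ¬ 2 ∣ B ^ y := fun h => hB2 (Nat.prime_two.dvd_of_dvd_pow h)
    have hC2 : 2 ∣ C := by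
      apply Nat.prime_two.dvd_of_dvd_pow (n := z)
      omega
    have h2L : ((2 : ℕ) : ℝ) ≤ L ^ (K + b + 2) := by
      calc ((2 : ℕ) : ℝ) ≤ L := by push_cast; nlinarith
        _ = L ^ 1 := (pow_one L).symm
        _ ≤ L ^ (K + b + 2) := pow_le_pow_right₀ hL1 (by omega)
    have hcoP : Nat.Coprime (A ^ x) (B ^ y) := hco.pow _ _
    have hAx2 : 2 ≤ A ^ x := hA.trans (Nat.le_self_pow hx.ne' A)
    have hBy2 : 2 ≤ B ^ y := hB.trans (Nat.le_self_pow hy.ne' B)
    have hneP : A ^ x * B ^ y ≠ 1 := by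
      intro h
      have := Nat.eq_one_of_mul_eq_one_right h
      omega
    have hzle : (z : ℝ) ≤ L ^ B₁ := by
      rcases heq with h | h | h
      · refine h₁ N g1 ![A, B] ![x, 0] ![0, y] C z 2 ?_ ?_ ?_ ?_ ?_ ?_ Nat.prime_two hC2 h2L (by omega)
        · intro i; fin_cases i <;> simp <;> omega
        · intro i; fin_cases i <;> simp <;> omega
        · exact Fin.forall_fin_two.2 ⟨⟨hx', h0'⟩, ⟨h0', hy'⟩⟩
        · simpa [Fin.prod_univ_two] using hcoP
        · simpa [Fin.prod_univ_two] using hneP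
        · left; simpa [Fin.prod_univ_two] using h
      · refine h₁ N g1 ![A, B] ![0, y] ![x, 0] C z 2 ?_ ?_ ?_ ?_ ?_ ?_ Nat.prime_two hC2 h2L (by omega)
        · intro i; fin_cases i <;> simp <;> omega
        · intro i; fin_cases i <;> simp <;> omega
        · exact Fin.forall_fin_two.2 ⟨⟨h0', hx'⟩, ⟨hy', h0'⟩⟩
        · simpa [Fin.prod_univ_two] using hcoP.symm
        · rw [mul_comm] at hneP
          simpa [Fin.prod_univ_two] using hneP
        · right; simpa [Fin.prod_univ_two] using h.symm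
      · refine h₁ N g1 ![A, B] ![x, 0] ![0, y] C z 2 ?_ ?_ ?_ ?_ ?_ ?_ Nat.prime_two hC2 h2L (by omega)
        · intro i; fin_cases i <;> simp <;> omega
        · intro i; fin_cases i <;> simp <;> omega
        · exact Fin.forall_fin_two.2 ⟨⟨hx', h0'⟩, ⟨h0', hy'⟩⟩
        · simpa [Fin.prod_univ_two] using hcoP
        · simpa [Fin.prod_univ_two] using hneP
        · right; simpa [Fin.prod_univ_two] using h.symm
    refine ⟨z.minFac, Nat.minFac_prime (by omega), Nat.minFac_dvd z, ?_⟩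
    have h1 : (z.minFac : ℝ) ≤ z := by exact_mod_cast Nat.minFac_le (by omega)
    exact (h1.trans hzle).trans (pow_le_pow_right₀ hL1 (le_max_left _ _))
  · -- `y` is much larger than `x`
    rw [not_le] at hyb
    have hAR : (0 : ℝ) < A := by exact_mod_cast (by omega : 0 < A)
    have hBR : (2 : ℝ) ≤ B := by exact_mod_cast hB
    have hlogA : Real.log A ≤ K * L := by
      rw [hL, ← Real.log_pow]
      apply Real.log_le_log hAR
      exact_mod_cast hAN
    have hlogB : Real.log B ≤ K * L := by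
      rw [hL, ← Real.log_pow]
      apply Real.log_le_log (by linarith)
      exact_mod_cast hBN
    have hlog2 : (1 : ℝ) / 2 ≤ Real.log 2 := by have := Real.log_two_gt_d9; linarith
    have hlogB2 : (1 : ℝ) / 2 ≤ Real.log B := hlog2.trans (Real.log_le_log (by norm_num) hBR)
    have hexp := small_pow (K := (K + 1 : ℝ)) (L := L) (b := b) (by nlinarith) (by linarith)
    have hxy : (x : ℝ) * (K * L) < (y : ℝ) / 2 * Real.log B := by
      have h1 : (x : ℝ) * (K * L) ≤ Real.exp (L ^ b) * ((K + 1) * L) := by gcongr; linarith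
      have h2 : 8 * ((x : ℝ) * (K * L)) ≤ Real.exp (L ^ (b + 2)) := by
        calc 8 * ((x : ℝ) * (K * L)) ≤ 8 * (Real.exp (L ^ b) * ((K + 1) * L)) := by linarith
          _ = 8 * (K + 1) * L * Real.exp (L ^ b) := by ring
          _ ≤ _ := hexp
      have hy0 : (0 : ℝ) < y := by exact_mod_cast hy
      have h3 : (y : ℝ) / 2 * (1 / 2) ≤ (y : ℝ) / 2 * Real.log B := by gcongr
      linarith
    have hsm : (A : ℝ) ^ x < (B : ℝ) ^ ((y : ℝ) / 2) := by
      have e1 : (A : ℝ) ^ x = Real.exp (x * Real.log A) := by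
        rw [← Real.rpow_natCast, Real.rpow_def_of_pos hAR, mul_comm]
      have e2 : (B : ℝ) ^ ((y : ℝ) / 2) = Real.exp ((y : ℝ) / 2 * Real.log B) := by
        rw [Real.rpow_def_of_pos (by linarith), mul_comm]
      rw [e1, e2]
      apply Real.exp_lt_exp.2
      refine lt_of_le_of_lt ?_ hxy
      gcongr
    have hAB : A ^ x < B ^ y := by
      have h1 : (A : ℝ) ^ x < (B : ℝ) ^ y := by
        refine lt_of_lt_of_le hsm ?_
        rw [← Real.rpow_natCast]
        apply Real.rpow_le_rpow_of_exponent_le (by linarith)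
        have hy0 : (0 : ℝ) ≤ y := Nat.cast_nonneg _
        linarith
      exact_mod_cast h1
    have hU : C ^ z = (C ^ (z / z.minFac)) ^ z.minFac := by
      rw [← pow_mul, Nat.div_mul_cancel (Nat.minFac_dvd z)]
    have hd : 0 < z / z.minFac := Nat.div_pos (Nat.minFac_le (by omega)) (Nat.minFac_pos z)
    have hqp : z.minFac.Prime := Nat.minFac_prime (by omega)
    have hU2 : 2 ≤ C ^ (z / z.minFac) := hC.trans (Nat.le_self_pow hd.ne' C)
    have heq' : A ^ x + B ^ y = (C ^ (z / z.minFac)) ^ z.minFac ∨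
        A ^ x + (C ^ (z / z.minFac)) ^ z.minFac = B ^ y := by
      rw [← hU]
      rcases heq with h | h | h
      · exact Or.inl h
      · exact Or.inr h
      · omega
    have hq := arch_q (by omega) hB hqp hU2 hy heq' hsm
    refine ⟨z.minFac, hqp, Nat.minFac_dvd z, ?_⟩
    have h1 : (z.minFac : ℝ) ≤ 49 * (10 ^ 9 * ((Nat.log 2 B : ℕ) + 1 : ℝ)) ^ 2 := by exact_mod_cast hq
    have h2 : ((Nat.log 2 B : ℕ) : ℝ) * Real.log 2 ≤ Real.log B := by
      rw [← Real.log_pow]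
      apply Real.log_le_log (by positivity)
      have : 2 ^ Nat.log 2 B ≤ B := Nat.pow_log_le_self 2 (by omega)
      exact_mod_cast this
    have h3 : ((Nat.log 2 B : ℕ) : ℝ) * (1 / 2) ≤ K * L := by
      have : ((Nat.log 2 B : ℕ) : ℝ) * (1 / 2) ≤ ((Nat.log 2 B : ℕ) : ℝ) * Real.log 2 := by gcongr
      linarith
    have h4 : ((Nat.log 2 B : ℕ) : ℝ) + 1 ≤ 2 * (K + 1) * L := by nlinarith
    calc (z.minFac : ℝ) ≤ 49 * (10 ^ 9 * ((Nat.log 2 B : ℕ) + 1 : ℝ)) ^ 2 := h1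
      _ ≤ 49 * (10 ^ 9 * (2 * (K + 1) * L)) ^ 2 := by gcongr
      _ = (196 * 10 ^ 18 * (K + 1) ^ 2) * L ^ 2 := by ring
      _ ≤ L * L ^ 2 := by
        apply mul_le_mul_of_nonneg_right _ (by positivity)
        nlinarith
      _ = L ^ 3 := by ring
      _ ≤ L ^ (max B₁ 3) := pow_le_pow_right₀ hL1 (le_max_right _ _)

end Pool.Agent.Y353.PS
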