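import Mathlib
import Pool.Agent.Y353.PS.Min

/-!
The final theorem on pairs.
-/

set_option autoImplicit false

namespace Pool.Agent.Y353.PS

open Finset Filter Topology
open Pool.Agent.H374R2.W
open Pool.Agent.TH194.BL

/-- coprime pairs of bases in the box, one with a small prime factor or one with a not too large exponent -/
def PairMin (N K X Y a b : ℕ) : Set (ℕ × ℕ) :=
  {p | (a < p.1 ∧ p.1 ≤ a + X) ∧ (b < p.2 ∧ p.2 ≤ b + Y) ∧ Nat.Coprime p.1 p.2 ∧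
    ∃ x y z C : ℕ, 0 < x ∧ 0 < y ∧ 2 ≤ z ∧ 0 < C ∧
      (p.1 ^ x + p.2 ^ y = C ^ z ∨ p.1 ^ x + C ^ z = p.2 ^ y ∨ p.2 ^ y + C ^ z = p.1 ^ x) ∧
      ((∃ r : ℕ, r.Prime ∧ (r : ℝ) ≤ (N : ℝ) ^ (1 / 40 : ℝ) ∧ r ∣ p.1 * p.2) ∨
        ((min x y : ℕ) : ℝ) ≤ Real.exp (Real.log N ^ K))}

theorem pairs_min : ∃ δ : ℝ, 0 < δ ∧ ∀ K : ℕ, ∃ N₀ : ℕ, ∀ N : ℕ, N₀ ≤ N → ∀ X Y a b : ℕ,
    N ≤ X → N ≤ Y → a + X ≤ N ^ K → b + Y ≤ N ^ K →
    ((PairMin N K X Y a b).ncard : ℝ) ≤ (N : ℝ) ^ (-δ) * ((X : ℝ) * Y) := by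
  classical
  obtain ⟨δ₀, hδ₀, hδ₁, hps⟩ := power_saving
  obtain ⟨δ₂, hδ₂, hsm⟩ := pairs_small
  set δ₃ : ℝ := min (min δ₀ δ₂) 1 with hδ₃
  have hδ₃0 : 0 < δ₃ := lt_min (lt_min hδ₀ hδ₂) one_pos
  have d1 : δ₃ ≤ δ₀ := (min_le_left _ _).trans (min_le_left _ _)
  have d2 : δ₃ ≤ δ₂ := (min_le_left _ _).trans (min_le_right _ _)
  have d3 : δ₃ ≤ 1 := min_le_right _ _
  refine ⟨δ₃ / 2, by positivity, fun K => ?_⟩
  obtain ⟨B', N₁, hmin⟩ := min_q K K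
  obtain ⟨N₂, h2⟩ := hsm K
  obtain ⟨N₃, h3⟩ := hps 2 (B' + 1)
  have v1 : ∀ᶠ N : ℕ in atTop, (4 : ℝ) ≤ (N : ℝ) ^ (δ₃ / 2 : ℝ) :=
    ((tendsto_rpow_atTop (by positivity)).comp tendsto_natCast_atTop_atTop).eventually_ge_atTop _
  have v3 : ∀ᶠ N : ℕ in atTop, (2 : ℝ) ≤ (N : ℝ) ^ (1 / 40 : ℝ) :=
    ((tendsto_rpow_atTop (by norm_num)).comp tendsto_natCast_atTop_atTop).eventually_ge_atTop _
  have v2 : ∀ᶠ N : ℕ in atTop, 2 ≤ Real.log N :=
    (Real.tendsto_log_atTop.comp tendsto_natCast_atTop_atTop).eventually_ge_atTop _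
  obtain ⟨N₄, hN₄⟩ := eventually_atTop.1 (v1.and (v2.and v3))
  refine ⟨max (max N₁ N₂) (max (max N₃ N₄) 2), fun N hN X Y a b hX hY haX hbY => ?_⟩
  simp only [max_le_iff] at hN
  obtain ⟨⟨g1, g2⟩, ⟨g3, g4⟩, g5⟩ := hN
  obtain ⟨w1, w2, w3⟩ := hN₄ N g4
  have hNR : (0 : ℝ) < N := by exact_mod_cast (by omega : 0 < N)
  have hN1R : (1 : ℝ) ≤ N := by exact_mod_cast (by omega : 1 ≤ N)
  set L := Real.log (N : ℝ) with hL
  have hL1 : 1 ≤ L := by linarith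
  have hLB : L ^ B' ≤ L ^ (B' + 1) := pow_le_pow_right₀ hL1 (by omega)
  have hL2 : (2 : ℝ) ≤ L ^ (B' + 1) := by
    calc (2 : ℝ) ≤ L := w2
      _ = L ^ 1 := (pow_one L).symm
      _ ≤ L ^ (B' + 1) := pow_le_pow_right₀ hL1 (by omega)
  set box := Ioc a (a + X) ×ˢ Ioc b (b + Y) with hbox
  set F1 := box.filter (fun p : ℕ × ℕ => ∃ n q : ℕ, q.Prime ∧ q ∣ n ∧ (q : ℝ) ≤ L ^ (B' + 1) ∧
    (![p.1, p.2] : Fin 2 → ℕ) ∈ Exc 2 n 1) with hF1
  set F2 : Finset (ℕ × ℕ) := ({1} : Finset ℕ) ×ˢ Ioc b (b + Y) with hF2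
  set F3 : Finset (ℕ × ℕ) := Ioc a (a + X) ×ˢ ({1} : Finset ℕ) with hF3
  have hfin : (PairSet N X Y a b).Finite := by
    apply (finite_toSet box).subset
    rintro p ⟨h1, h2, -⟩
    rw [mem_coe, hbox, mem_product, mem_Ioc, mem_Ioc]
    exact ⟨h1, h2⟩
  have hsub : PairMin N K X Y a b ⊆ PairSet N X Y a b ∪
      ((F1 ∪ (F2 ∪ F3) : Finset (ℕ × ℕ)) : Set (ℕ × ℕ)) := by
    rintro ⟨A, B⟩ ⟨hA, hB, hco, x, y, z, C, hx, hy, hz, hC, heq, hor⟩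
    simp only at hA hB hco heq hor
    have hbx : (A, B) ∈ box := by
      rw [hbox, mem_product, mem_Ioc, mem_Ioc]
      exact ⟨hA, hB⟩
    have hA0 : 0 < A := by omega
    have hB0 : 0 < B := by omega
    have hsol : SolP A B := ⟨x, y, z, C, hx, hy, hz, hC, heq⟩
    by_cases hr : ∃ r : ℕ, r.Prime ∧ (r : ℝ) ≤ (N : ℝ) ^ (1 / 40 : ℝ) ∧ r ∣ A * B
    · left
      exact ⟨hA, hB, hco, hr, hsol⟩
    · have hmn : ((min x y : ℕ) : ℝ) ≤ Real.exp (L ^ K) := by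
        rcases hor with h | h
        · exact absurd h hr
        · exact h
      right
      have hA2 : ¬ 2 ∣ A := fun h => hr ⟨2, Nat.prime_two, by push_cast; exact w3, h.mul_right _⟩
      have hB2 : ¬ 2 ∣ B := fun h => hr ⟨2, Nat.prime_two, by push_cast; exact w3, h.mul_left _⟩
      rw [mem_coe, mem_union, mem_union]
      rcases Nat.lt_or_ge A 2 with hA1 | hA1
      · right; left
        rw [hF2, mem_product, mem_singleton, mem_Ioc]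
        exact ⟨by omega, hB⟩
      rcases Nat.lt_or_ge B 2 with hB1 | hB1
      · right; right
        rw [hF3, mem_product, mem_singleton, mem_Ioc]
        exact ⟨hA, by omega⟩
      left
      rw [hF1, mem_filter]
      refine ⟨hbx, ?_⟩
      rcases Nat.lt_or_ge C 2 with hC1 | hC1
      · have hC1' : C = 1 := by omega
        refine ⟨2, 2, Nat.prime_two, dvd_rfl, by push_cast; exact hL2,
          sol_exc hA0 hB0 hco le_rfl hx hy hC (C := C) ?_⟩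
        rw [hC1', one_pow] at heq ⊢
        exact heq
      · have hexc : (![A, B] : Fin 2 → ℕ) ∈ Exc 2 z 1 := sol_exc hA0 hB0 hco hz hx hy hC heq
        rcases Nat.le_total x y with hxy | hxy
        · rw [min_eq_left hxy] at hmn
          obtain ⟨q, hq, hqz, hqL⟩ := hmin N g1 A B x y z C hA1 hB1 (by omega) (by omega) hco hA2 hB2 hx hy
            hz hC1 heq hmn
          exact ⟨z, q, hq, hqz, hqL.trans hLB, hexc⟩
        · rw [min_eq_right hxy] at hmn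
          obtain ⟨q, hq, hqz, hqL⟩ := hmin N g1 B A y x z C hB1 hA1 (by omega) (by omega) hco.symm hB2 hA2
            hy hx hz hC1 (by
              rcases heq with h | h | h
              · left; rw [add_comm]; exact h
              · right; right; exact h
              · right; left; exact h) hmn
          exact ⟨z, q, hq, hqz, hqL.trans hLB, hexc⟩
  have hXR : (N : ℝ) ≤ X := by exact_mod_cast hX
  have hYR : (N : ℝ) ≤ Y := by exact_mod_cast hY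
  have hX0 : (0 : ℝ) ≤ X := Nat.cast_nonneg _
  have hY0 : (0 : ℝ) ≤ Y := Nat.cast_nonneg _
  have k1 : (F1.card : ℝ) ≤ (N : ℝ) ^ (-δ₀) * ((X : ℝ) * Y) := by
    set E : Finset (Fin 2 → ℕ) := F1.image (fun p : ℕ × ℕ => (![p.1, p.2] : Fin 2 → ℕ)) with hE
    have hEc : F1.card = E.card := by
      rw [hE, card_image_of_injective]
      intro p p' hpp
      have e1 := congrFun hpp 0
      have e2 := congrFun hpp 1
      simp at e1 e2
      exact Prod.ext e1 e2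
    have h1 := h3 N g3 ![a, b] ![X, Y] (by
      intro i; fin_cases i
      · exact hX
      · exact hY) E (by
      intro A hA
      rw [hE, mem_image] at hA
      obtain ⟨p, hp, rfl⟩ := hA
      rw [hF1, mem_filter, hbox, mem_product, mem_Ioc, mem_Ioc] at hp
      obtain ⟨hp1, n, q, hq, hqn, hqT, hex⟩ := hp
      refine ⟨?_, n, q, hq, hqn, hqT, hex⟩
      intro i; fin_cases i
      · exact hp1.1
      · exact hp1.2)
    rw [← hEc] at h1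
    simpa only [Fin.prod_univ_two, Matrix.cons_val_zero, Matrix.cons_val_one] using h1
  have k2 := h2 N g2 X Y a b hX hY haX hbY
  have k3 : (F2.card : ℝ) = Y := by
    rw [hF2, card_product, card_singleton, one_mul, Nat.card_Ioc, Nat.add_sub_cancel_left]
  have k4 : (F3.card : ℝ) = X := by
    rw [hF3, card_product, card_singleton, mul_one, Nat.card_Ioc, Nat.add_sub_cancel_left]
  have hcard : (PairMin N K X Y a b).ncard ≤ (PairSet N X Y a b).ncard + (F1.card + (F2.card + F3.card)) := by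
    refine (Set.ncard_le_ncard hsub (hfin.union (finite_toSet _))).trans ?_
    refine (Set.ncard_union_le _ _).trans ?_
    rw [Set.ncard_coe_finset]
    exact Nat.add_le_add_left ((card_union_le _ _).trans (Nat.add_le_add_left (card_union_le _ _) _)) _
  have hcard' : ((PairMin N K X Y a b).ncard : ℝ) ≤ (PairSet N X Y a b).ncard +
      ((F1.card : ℝ) + ((F2.card : ℝ) + F3.card)) := by exact_mod_cast hcard
  rw [k3, k4] at hcard'
  have hXY : (0 : ℝ) ≤ (X : ℝ) * Y := by positivity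
  have e1 : (N : ℝ) ^ (-δ₀) ≤ (N : ℝ) ^ (-δ₃) := Real.rpow_le_rpow_of_exponent_le hN1R (by linarith)
  have e2 : (N : ℝ) ^ (-δ₂) ≤ (N : ℝ) ^ (-δ₃) := Real.rpow_le_rpow_of_exponent_le hN1R (by linarith)
  have e3 : (N : ℝ) ^ (-(1 : ℝ)) ≤ (N : ℝ) ^ (-δ₃) := Real.rpow_le_rpow_of_exponent_le hN1R (by linarith)
  have eN : (N : ℝ) ^ (-(1 : ℝ)) * N = 1 := by
    rw [Real.rpow_neg_one, inv_mul_cancel₀ hNR.ne']
  have f1 : (Y : ℝ) ≤ (N : ℝ) ^ (-δ₃) * ((X : ℝ) * Y) := by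
    calc (Y : ℝ) = ((N : ℝ) ^ (-(1 : ℝ)) * N) * Y := by rw [eN, one_mul]
      _ ≤ ((N : ℝ) ^ (-δ₃) * X) * Y := by gcongr
      _ = _ := by ring
  have f2 : (X : ℝ) ≤ (N : ℝ) ^ (-δ₃) * ((X : ℝ) * Y) := by
    calc (X : ℝ) = ((N : ℝ) ^ (-(1 : ℝ)) * N) * X := by rw [eN, one_mul]
      _ ≤ ((N : ℝ) ^ (-δ₃) * Y) * X := by gcongr
      _ = _ := by ring
  have f3 : (N : ℝ) ^ (-δ₀) * ((X : ℝ) * Y) ≤ (N : ℝ) ^ (-δ₃) * ((X : ℝ) * Y) := by gcongr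
  have f4 : (N : ℝ) ^ (-δ₂) * ((X : ℝ) * Y) ≤ (N : ℝ) ^ (-δ₃) * ((X : ℝ) * Y) := by gcongr
  have e4 : 4 * (N : ℝ) ^ (-δ₃) ≤ (N : ℝ) ^ (-(δ₃ / 2)) := by
    calc 4 * (N : ℝ) ^ (-δ₃) ≤ (N : ℝ) ^ (δ₃ / 2 : ℝ) * (N : ℝ) ^ (-δ₃) := by gcongr
      _ = (N : ℝ) ^ (-(δ₃ / 2)) := by rw [← Real.rpow_add hNR]; congr 1; ring
  calc ((PairMin N K X Y a b).ncard : ℝ) ≤ 4 * ((N : ℝ) ^ (-δ₃) * ((X : ℝ) * Y)) := by linarith
    _ = (4 * (N : ℝ) ^ (-δ₃)) * ((X : ℝ) * Y) := by ring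
    _ ≤ (N : ℝ) ^ (-(δ₃ / 2)) * ((X : ℝ) * Y) := by gcongr

end Pool.Agent.Y353.PS
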