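import Pool.Agent.H374R2.W.Glue
import Pool.Agent.H374R2.W.CP
import Pool.Agent.Y353.PS.QB2

/-!
Uniqueness of the solutions, `p`-adic kind, for `p = q` (the other case is `Pool.Agent.H374R2.W.UP`).
-/

set_option autoImplicit false

namespace Pool.Agent.Y353.PS

open Finset Polynomial
open Pool.Agent.H374R2.V (HH)
open Pool.Agent.H374R2.W
open Pool.Agent.H374R2.W.UP (cross_ne val_le pow_bound)

/-- Two integers with the same `p`-th power modulo `p ^ (e + 1)` which agree modulo `p` are congruent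
modulo `p ^ e`. -/
theorem dvd_sub_of_pow_self {p e : ℕ} (hp : p.Prime) (hp2 : p ≠ 2) {w₁ w₂ : ℤ}
    (hC : ¬ (p : ℤ) ∣ w₁) (hmod : (p : ℤ) ∣ w₁ - w₂)
    (hpow : (p : ℤ) ^ (e + 1) ∣ w₁ ^ p - w₂ ^ p) : (p : ℤ) ^ e ∣ w₁ - w₂ := by
  have h1 := Int.emultiplicity_pow_sub_pow hp (hp.odd_of_ne_two hp2) hmod hC p
  have h2 : ((e + 1 : ℕ) : ℕ∞) ≤ emultiplicity (p : ℤ) (w₁ ^ p - w₂ ^ p) :=
    le_emultiplicity_of_pow_dvd hpow
  have h3 : emultiplicity p p = 1 := by
    have := (Nat.finiteMultiplicity_iff.2 ⟨hp.one_lt.ne', hp.pos⟩).emultiplicity_self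
    exact this
  rw [h1, h3] at h2
  apply pow_dvd_of_le_emultiplicity
  push_cast at h2
  exact (ENat.add_le_add_iff_right ENat.one_ne_top).1 h2

/-- the first solution is the smaller one -/
theorem auxq {κ : ℝ} {q p U V U' V' : ℕ} {a T T' : ℤ} (hκ0 : 0 < κ) (hκ1 : κ ≤ 1)
    (hq : IsPrimePow q) (hqκ : 100 / κ ^ 2 ≤ q) (hp : p.Prime) (hpq : p = q) (hp2 : p ≠ 2)
    (G : ∃ y : ℕ, (p : ℤ) ^ y ∣ T ∧ 2 * κ * Real.log (HH q a U V) ≤ y * Real.log p)
    (G' : ∃ y : ℕ, (p : ℤ) ^ y ∣ T' ∧ 2 * κ * Real.log (HH q a U' V') ≤ y * Real.log p)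
    (hA3 : ∀ {m q n k : ℕ}, IsPrimePow q → m < q → k ≤ m → 1 ≤ n →
      ∃ c : ℕ → ℕ → ℤ, Form m q n k c)
    (S : SolP κ q p a U V T) (S' : SolP κ q p a U' V' T') (hroot : U * V' ≡ U' * V [MOD p])
    (hH : HH q a U V ≤ HH q a U' V') : U = U' ∧ V = V' := by
  by_contra hne
  have hcross : U * V' ≠ U' * V := cross_ne S.U0 S.UV S'.UV hne
  have hq0 : 0 < q := hq.pos
  have hqR : (0 : ℝ) < q := by exact_mod_cast hq0
  have hqR0' : (0 : ℝ) < q := hqR
  set H := HH q a U V with hHdef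
  set H' := HH q a U' V' with hHdef'
  have hU1 : U ^ q ≤ H := le_max_left _ _
  have hV1 : a.natAbs * V ^ q ≤ H := le_max_right _ _
  have hU1' : U' ^ q ≤ H' := le_max_left _ _
  have hV1' : a.natAbs * V' ^ q ≤ H' := le_max_right _ _
  have ha1 : 1 ≤ a.natAbs := Int.natAbs_pos.mpr S.a0
  have hV2 : V ^ q ≤ H := (Nat.le_mul_of_pos_left _ ha1).trans hV1
  have hV2' : V' ^ q ≤ H' := (Nat.le_mul_of_pos_left _ ha1).trans hV1'
  have hHpos : 0 < H := lt_of_lt_of_le (pow_pos S.U0 q) hU1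
  have hHpos' : 0 < H' := lt_of_lt_of_le (pow_pos S'.U0 q) hU1'
  set h := Real.log (H : ℝ) with hh
  set h' := Real.log (H' : ℝ) with hh'
  have hle : h ≤ h' := Real.log_le_log (by exact_mod_cast hHpos) (by exact_mod_cast hH)
  -- the large height
  set Lg := Real.log (10 ^ 8 * (q : ℝ) ^ 9) with hLg
  have hq1 : (1 : ℝ) ≤ q := by exact_mod_cast hq0
  have hq9 : (1 : ℝ) ≤ (q : ℝ) ^ 9 := one_le_pow₀ hq1
  have hLg0 : 0 < Lg := Real.log_pos (by nlinarith)
  have hlarge : 50 * (3 / κ + 1) * Lg ≤ h := S.large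
  have h3κ : 0 < 3 / κ := by positivity
  have h0 : 0 < h := lt_of_lt_of_le (by positivity) hlarge
  -- the exponents
  obtain ⟨y, hy1, hy2⟩ := G
  obtain ⟨y', hy1', hy2'⟩ := G'
  have hlp : 0 < Real.log (p : ℝ) := Real.log_pos (by exact_mod_cast hp.one_lt)
  set e₀ := min y y' with he₀
  have hee₀ : 2 * κ * h ≤ (e₀ : ℝ) * Real.log p := by
    rcases min_choice y y' with h1 | h1
    · rw [he₀, h1]; exact hy2
    · rw [he₀, h1]
      exact (mul_le_mul_of_nonneg_left hle (by positivity)).trans hy2'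
  have hκh : Real.log p ≤ κ * h := by
    have e1 : κ * (50 * (3 / κ + 1) * Lg) ≤ κ * h := mul_le_mul_of_nonneg_left hlarge hκ0.le
    have e2 : κ * (50 * (3 / κ + 1) * Lg) = (150 + 50 * κ) * Lg := by field_simp; ring
    have e3 : Real.log p ≤ Lg := by
      rw [hpq]
      apply Real.log_le_log hqR0'
      have hq1 : (1 : ℝ) ≤ q := by exact_mod_cast hq0
      have : (q : ℝ) ≤ (q : ℝ) ^ 9 := by
        calc (q : ℝ) = q ^ 1 := (pow_one _).symm
          _ ≤ q ^ 9 := pow_le_pow_right₀ hq1 (by norm_num)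
      linarith
    rw [e2] at e1
    nlinarith
  have hypos : 1 ≤ e₀ := by
    by_contra hcon
    have h0 : e₀ = 0 := by omega
    rw [h0] at hee₀
    have : 0 < 2 * κ * h := by positivity
    simp at hee₀
    linarith
  obtain ⟨e, he⟩ : ∃ e, e₀ = e + 1 := ⟨e₀ - 1, by omega⟩
  have hee : κ * h ≤ (e : ℝ) * Real.log p := by
    rw [he] at hee₀
    push_cast at hee₀
    linarith
  have hpe : (p : ℤ) ^ (e + 1) ∣ T := by
    rw [← he]; exact (pow_dvd_pow _ (min_le_left _ _)).trans hy1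
  have hpe' : (p : ℤ) ^ (e + 1) ∣ T' := by
    rw [← he]; exact (pow_dvd_pow _ (min_le_right _ _)).trans hy1'
  have hy2'' : κ * h' ≤ (y' : ℝ) * Real.log p := by
    have : 0 ≤ κ * h' := by
      have : 0 ≤ h' := h0.le.trans hle
      positivity
    linarith
  set u := U' * V with hu
  set v := U * V' with hv
  have hpu : ¬ p ∣ u := fun h1 => (hp.dvd_mul.mp h1).elim S'.Up S.Vp
  have hpv : ¬ p ∣ v := fun h1 => (hp.dvd_mul.mp h1).elim S.Up S'.Vp
  have hu0 : 0 < u := Nat.mul_pos S'.U0 S.V0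
  have hv0 : 0 < v := Nat.mul_pos S.U0 S'.V0
  have hlp1 : ∀ l : ℕ, l.Prime → l ∣ p → l = p := fun l hl hlp => (Nat.prime_dvd_prime_iff_eq hl hp).1 hlp
  have hgap1 : (p : ℤ) ^ e ∣ (u : ℤ) - (v : ℤ) := by
    apply dvd_sub_of_pow_self hp hp2
    · intro h1
      exact hpu (by exact_mod_cast h1)
    · exact Nat.modEq_iff_dvd.mp hroot
    · have e1 : ((u : ℕ) : ℤ) ^ q - ((v : ℕ) : ℤ) ^ q =
          T' * (V : ℤ) ^ q - T * (V' : ℤ) ^ q := by
        rw [hu, hv]
        push_cast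
        rw [mul_pow, mul_pow, ← S.eq, ← S'.eq]
        ring
      rw [hpq]
      rw [hpq] at hpe hpe'
      rw [e1]
      exact dvd_sub (hpe'.mul_right _) (hpe.mul_right _)
  -- sizes
  set M := max u v with hM
  have huM : u ≤ M := le_max_left _ _
  have hvM : v ≤ M := le_max_right _ _
  have hM0 : 0 < M := lt_of_lt_of_le hu0 huM
  have hMq : M ^ q ≤ H * H' := by
    rcases max_choice u v with h1 | h1
    · rw [hM, h1, hu, mul_pow, mul_comm H]
      exact Nat.mul_le_mul hU1' hV2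
    · rw [hM, h1, hv, mul_pow]
      exact Nat.mul_le_mul hU1 hV2'
  have hlM : Real.log (M : ℝ) ≤ (h + h') / q := by
    rw [le_div_iff₀ hqR]
    have h1 : Real.log ((M : ℝ) ^ q) ≤ Real.log ((H : ℝ) * H') :=
      Real.log_le_log (by positivity) (by exact_mod_cast hMq)
    rw [Real.log_pow, Real.log_mul (by positivity) (by positivity)] at h1
    linarith
  have hpeM : p ^ e ≤ M := by
    have h1 : (u : ℤ) - (v : ℤ) ≠ 0 := by
      intro h1
      apply hcross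
      have : (u : ℤ) = (v : ℤ) := by linarith
      have h2 : u = v := by exact_mod_cast this
      exact h2.symm
    have h2 : (p : ℤ) ^ e ≤ |(u : ℤ) - (v : ℤ)| :=
      Int.le_of_dvd (abs_pos.mpr h1) ((dvd_abs _ _).mpr hgap1)
    have h3 : |(u : ℤ) - (v : ℤ)| ≤ (M : ℤ) := by
      have e1 : (u : ℤ) ≤ M := by exact_mod_cast huM
      have e2 : (v : ℤ) ≤ M := by exact_mod_cast hvM
      have e3 : (0 : ℤ) ≤ u := by positivity
      have e4 : (0 : ℤ) ≤ v := by positivity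
      rw [abs_le]
      constructor <;> linarith
    exact_mod_cast h2.trans h3
  have hpeM2 : (e : ℝ) * Real.log p ≤ Real.log M := by
    rw [← Real.log_pow]
    exact Real.log_le_log (by have := hp.pos; positivity) (by exact_mod_cast hpeM)
  -- the parameter `m`
  set m := ⌊3 / κ⌋₊ with hm
  have hm1 : (m : ℝ) ≤ 3 / κ := Nat.floor_le h3κ.le
  have hm2 : 3 / κ ≤ (m : ℝ) + 1 := (Nat.lt_floor_add_one _).le
  have hmq : m < q := by
    have h1 : 3 / κ < 100 / κ ^ 2 := by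
      rw [div_lt_div_iff₀ hκ0 (by positivity)]
      nlinarith
    exact_mod_cast lt_of_le_of_lt hm1 (h1.trans_le hqκ)
  refine Pool.Agent.H374R2.W.AR.arith hκ0 hκ1 hm2 hm1 hqκ h0 hle ?_ ?_
  · have := hee.trans (hpeM2.trans hlM)
    have h1 : 0 ≤ κ * h := by positivity
    linarith
  · intro n hn
    choose! c hc using fun (k : ℕ) (hk : k ≤ m) => hA3 (q := q) (n := n) hq hmq hk hn
    have hX : ((U : ℤ) ^ q) ≠ 0 := pow_ne_zero _ (by exact_mod_cast S.U0.ne')
    have hXY : (U : ℤ) ^ q ≠ a * (V : ℤ) ^ q := by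
      intro h1
      apply S.T0
      rw [← S.eq, h1, sub_self]
    have hx0 : (fun j => (u : ℤ) ^ j * (v : ℤ) ^ (m - j)) 0 ≠ 0 := by
      simp only [pow_zero, one_mul]
      exact pow_ne_zero _ (by exact_mod_cast hv0.ne')
    obtain ⟨k, hk, hval⟩ := Pool.Agent.H374R2.W.B.exists_ne hq0 c hc hX hXY
      (fun j => (u : ℤ) ^ j * (v : ℤ) ^ (m - j)) hx0
    have hcop : IsCoprime (v : ℤ) (p : ℤ) :=
      Nat.isCoprime_iff_coprime.mpr ((Nat.Prime.coprime_iff_not_dvd hp).2 hpv).symm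
    have hdiv2 : (p : ℤ) ^ y' ∣ (U : ℤ) ^ q * (u : ℤ) ^ q - a * (V : ℤ) ^ q * (v : ℤ) ^ q := by
      have e1 : (U : ℤ) ^ q * (u : ℤ) ^ q - a * (V : ℤ) ^ q * (v : ℤ) ^ q =
          T' * ((U : ℤ) ^ q * (V : ℤ) ^ q) := by
        rw [hu, hv]
        push_cast
        rw [mul_pow, mul_pow, ← S'.eq]
        ring
      rw [e1]
      exact hy1'.mul_right _
    have hdvd := Pool.Agent.H374R2.W.P.val_dvd (hc k hk) hcop hgap1 hdiv2
    set Z := val m n (c k) ((U : ℤ) ^ q) (a * (V : ℤ) ^ q)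
      (fun j => (u : ℤ) ^ j * (v : ℤ) ^ (m - j)) with hZ
    have hlow : (p : ℤ) ^ (min y' ((m + 1) * n * e)) ≤ |Z| :=
      Int.le_of_dvd (abs_pos.mpr hval) ((dvd_abs _ _).mpr hdvd)
    have hXH : |(U : ℤ) ^ q| ≤ (H : ℤ) := by
      rw [abs_of_nonneg (by positivity)]
      exact_mod_cast hU1
    have hYH : |a * (V : ℤ) ^ q| ≤ (H : ℤ) := by
      rw [abs_mul, abs_of_nonneg (by positivity : (0 : ℤ) ≤ (V : ℤ) ^ q), Int.abs_eq_natAbs]
      exact_mod_cast hV1
    have hup := val_le (hc k hk) hXH hYH huM hvM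
    rw [← hZ] at hup
    have hnat : p ^ (min y' ((m + 1) * n * e)) ≤
        (m + 1) * (n + 1) * (cst m q ^ n * H ^ n * M ^ m) := by
      exact_mod_cast hlow.trans hup
    have hnat2 : p ^ (min y' ((m + 1) * n * e)) ≤
        4 ^ ((m + 1) * n) * (cst m q ^ n * H ^ n * M ^ m) := by
      refine hnat.trans (Nat.mul_le_mul_right _ ?_)
      have h1 : 1 ≤ (m + 1) * n := Nat.mul_pos (Nat.succ_pos _) hn
      calc (m + 1) * (n + 1) ≤ (m + 1) * (2 * n) := Nat.mul_le_mul_left _ (by omega)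
        _ = 2 * ((m + 1) * n) := by ring
        _ ≤ 4 ^ ((m + 1) * n) := pow_bound h1
    have hcpos : 0 < cst m q := by
      unfold cst
      positivity
    have hlog : ((min y' ((m + 1) * n * e) : ℕ) : ℝ) * Real.log p ≤
        ((m + 1) * n : ℕ) * Real.log 4 + (n * Real.log (cst m q) + n * h + m * Real.log M) := by
      have h1 : Real.log (((p ^ (min y' ((m + 1) * n * e)) : ℕ) : ℝ)) ≤
          Real.log (((4 ^ ((m + 1) * n) * (cst m q ^ n * H ^ n * M ^ m) : ℕ) : ℝ)) :=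
        Real.log_le_log (by have := hp.pos; positivity) (by exact_mod_cast hnat2)
      have hc0 : (cst m q : ℝ) ≠ 0 := by exact_mod_cast hcpos.ne'
      have hH0 : (H : ℝ) ≠ 0 := by exact_mod_cast hHpos.ne'
      have hM0' : (M : ℝ) ≠ 0 := by exact_mod_cast hM0.ne'
      rw [Nat.cast_pow, Real.log_pow, Nat.cast_mul, Nat.cast_mul, Nat.cast_mul, Nat.cast_pow,
        Nat.cast_pow, Nat.cast_pow, Nat.cast_pow,
        Real.log_mul (by positivity) (by positivity),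
        Real.log_mul (by positivity) (by positivity),
        Real.log_mul (by positivity) (by positivity), Real.log_pow, Real.log_pow, Real.log_pow,
        Real.log_pow] at h1
      exact_mod_cast h1
    have hlc : Real.log (cst m q : ℝ) = (m + 1) * Real.log (15000 * (q : ℝ) ^ 9) := by
      unfold cst
      push_cast
      rw [Real.log_pow]
      push_cast
      rfl
    have hsum : Real.log 4 + Real.log (15000 * (q : ℝ) ^ 9) ≤ Lg := by
      rw [← Real.log_mul (by norm_num) (by positivity)]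
      refine Real.log_le_log (by positivity) ?_
      nlinarith
    have hlowr : min (κ * (((m : ℝ) + 1) * n) * h) (κ * h') ≤
        ((min y' ((m + 1) * n * e) : ℕ) : ℝ) * Real.log p := by
      rcases min_choice y' ((m + 1) * n * e) with h1 | h1
      · rw [h1]
        exact (min_le_right _ _).trans hy2''
      · rw [h1]
        refine (min_le_left _ _).trans ?_
        push_cast
        have h2 := mul_le_mul_of_nonneg_left hee (by positivity : (0 : ℝ) ≤ ((m : ℝ) + 1) * n)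
        linarith
    refine hlowr.trans (hlog.trans ?_)
    rw [hlc]
    push_cast
    have hmM : (m : ℝ) * Real.log M ≤ (m / q) * (h + h') := by
      calc (m : ℝ) * Real.log M ≤ m * ((h + h') / q) :=
            mul_le_mul_of_nonneg_left hlM (by positivity)
        _ = (m / q) * (h + h') := by ring
    have hmain : ((m : ℝ) + 1) * n * Real.log 4 +
        n * ((m + 1) * Real.log (15000 * (q : ℝ) ^ 9)) ≤ n * (h / 50) := by
      have h1 : ((m : ℝ) + 1) * (Real.log 4 + Real.log (15000 * (q : ℝ) ^ 9)) ≤ h / 50 := by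
        calc ((m : ℝ) + 1) * (Real.log 4 + Real.log (15000 * (q : ℝ) ^ 9))
            ≤ (3 / κ + 1) * Lg :=
              mul_le_mul (by linarith) hsum (by
                have := Real.log_nonneg (by norm_num : (1 : ℝ) ≤ 4)
                have := Real.log_nonneg (by nlinarith : (1 : ℝ) ≤ 15000 * (q : ℝ) ^ 9)
                linarith) (by positivity)
          _ ≤ h / 50 := by linarith
      have h2 := mul_le_mul_of_nonneg_left h1 (by positivity : (0 : ℝ) ≤ (n : ℝ))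
      linarith
    linarith

/-- uniqueness for `p = q` -/
theorem unique_pq {κ : ℝ} {q p U V U' V' : ℕ} {a T T' : ℤ} (hκ0 : 0 < κ) (hκ1 : κ ≤ 1)
    (hq : IsPrimePow q) (hqκ : 100 / κ ^ 2 ≤ q) (hp : p.Prime) (hpq : p = q) (hp2 : p ≠ 2)
    (G : ∃ y : ℕ, (p : ℤ) ^ y ∣ T ∧ 2 * κ * Real.log (HH q a U V) ≤ y * Real.log p)
    (G' : ∃ y : ℕ, (p : ℤ) ^ y ∣ T' ∧ 2 * κ * Real.log (HH q a U' V') ≤ y * Real.log p)
    (S : SolP κ q p a U V T) (S' : SolP κ q p a U' V' T') (hroot : U * V' ≡ U' * V [MOD p]) :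
    U = U' ∧ V = V' := by
  rcases le_total (HH q a U V) (HH q a U' V') with h | h
  · exact auxq hκ0 hκ1 hq hqκ hp hpq hp2 G G' (fun h1 h2 h3 h4 => exists_form h1 h2 h3 h4)
      S S' hroot h
  · have h1 := auxq hκ0 hκ1 hq hqκ hp hpq hp2 G' G (fun h1 h2 h3 h4 => exists_form h1 h2 h3 h4)
      S' S hroot.symm h
    exact ⟨h1.1.symm, h1.2.symm⟩

/-- The integers `B ≤ N` divisible by the prime `q` in a solution with exponent `q`. -/
def SetQ (κ : ℝ) (N q i A : ℕ) (s σ : ℤ) : Set ℕ :=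
  {B | 0 < B ∧ B ≤ N ∧ q ∣ B ∧ Nat.Coprime A B ∧ (¬ ∃ w k : ℕ, 2 ≤ k ∧ B = w ^ k) ∧
    ∃ x' y U : ℕ, 0 < y ∧ 0 < U ∧ (U : ℤ) ^ q - s * (A : ℤ) ^ (q * x' + i) = σ * (B : ℤ) ^ y ∧
      2 * κ * Real.log (ht q A U (q * x' + i)) ≤ y * Real.log q ∧
      50 * (3 / κ + 1) * Real.log (10 ^ 8 * (q : ℝ) ^ 9) ≤ Real.log (ht q A U (q * x' + i))}

open Pool.Agent.H374R2.V.CV (Dat natAbs_T)
open Pool.Agent.H374R2.T (eq_of_pow_eq)
open Pool.Agent.H374R2.W.CP (HH_eq dat_solP)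

/-- the number of the `B` divisible by `q` -/
theorem setQ_card
    {κ : ℝ} {N q i A : ℕ} {s σ : ℤ} (hκ0 : 0 < κ) (hκ1 : κ ≤ 1)
    (hp : q.Prime) (hqκ : 100 / κ ^ 2 ≤ q) (hq2 : q ≠ 2) (hA : 0 < A)
    (hs : s = 1 ∨ s = -1) (hσ : σ = 1 ∨ σ = -1) :
    (SetQ κ N q i A s σ).Finite ∧ (SetQ κ N q i A s σ).ncard ≤ q := by
  classical
  have hq : IsPrimePow q := hp.isPrimePow
  refine ⟨(Set.finite_Icc 0 N).subset (fun _ hB => ⟨Nat.zero_le _, hB.2.1⟩), ?_⟩
  have hq0 : 0 < q := hq.pos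
  have : Fact q.Prime := ⟨hp⟩
  -- choice of the data
  have hch : ∀ B : ℕ, ∃ t : ℕ × ℕ × ℕ, B ∈ SetQ κ N q i A s σ →
      Dat N q i q A B s σ t.1 t.2.1 t.2.2 ∧
      SolP κ q q (s * (A : ℤ) ^ i) t.2.2 (A ^ t.1) (σ * (B : ℤ) ^ t.2.1) ∧
      (∃ y : ℕ, (q : ℤ) ^ y ∣ σ * (B : ℤ) ^ t.2.1 ∧
        2 * κ * Real.log (HH q (s * (A : ℤ) ^ i) t.2.2 (A ^ t.1)) ≤ y * Real.log q) := by
    intro B
    by_cases h : B ∈ SetQ κ N q i A s σ
    · obtain ⟨h1, h2, h3, h4, h5, x', y, U, h6, h7, h8, h9, h10⟩ := h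
      have hD : Dat N q i q A B s σ x' y U := ⟨h6, h7, h8, h1, h2, h3, h4, h5⟩
      have h11 : 0 ≤ Real.log (ht q A U (q * x' + i)) := Real.log_natCast_nonneg _
      have h12 : κ * Real.log (ht q A U (q * x' + i)) ≤ y * Real.log q := by nlinarith
      have h13 := dat_solP hs hσ hq0 hA hp hD h12 h10
      refine ⟨(x', y, U), fun _ => ⟨hD, h13, y, (hD.sol hs hσ hq0 hA).dT, ?_⟩⟩
      rw [HH_eq hs]
      exact h9
    · exact ⟨(0, 0, 0), fun h' => absurd h' h⟩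
  choose t ht using hch
  have hAl : ∀ B ∈ SetQ κ N q i A s σ, (A : ZMod q) ≠ 0 := by
    intro B hB h0
    rw [ZMod.natCast_eq_zero_iff] at h0
    exact hp.not_dvd_one ((ht B hB).1.cop ▸ Nat.dvd_gcd h0 (ht B hB).1.dB)
  have key : (SetQ κ N q i A s σ).ncard ≤
      {u : ZMod q | u ^ q = ((s * (A : ℤ) ^ i : ℤ) : ZMod q)}.ncard := by
    apply Set.ncard_le_ncard_of_injOn
      (fun B => ((t B).2.2 : ZMod q) * ((A : ZMod q) ^ (t B).1)⁻¹)
    · intro B hB
      rw [Set.mem_ofPred_eq]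
      have hD := (ht B hB).1
      have h1 := congrArg (fun z : ℤ => (z : ZMod q)) hD.eq
      have h3 : (B : ZMod q) = 0 := (ZMod.natCast_eq_zero_iff _ _).mpr hD.dB
      push_cast at h1 ⊢
      rw [h3, zero_pow hD.y0.ne', mul_zero, sub_eq_zero] at h1
      have h4 : (A : ZMod q) ^ (t B).1 ≠ 0 := pow_ne_zero _ (hAl B hB)
      rw [mul_pow, inv_pow, h1, pow_add, ← pow_mul, mul_comm (t B).1 q]
      have h5 : (A : ZMod q) ^ (q * (t B).1) ≠ 0 := pow_ne_zero _ (hAl B hB)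
      field_simp
    · intro B hB B' hB' hBB
      obtain ⟨hD, hS, hG⟩ := ht B hB
      obtain ⟨hD', hS', hG'⟩ := ht B' hB'
      have hroot : (t B).2.2 * A ^ (t B').1 ≡ (t B').2.2 * A ^ (t B).1 [MOD q] := by
        have h1 : ((t B).2.2 : ZMod q) * ((A : ZMod q) ^ (t B).1)⁻¹ =
            ((t B').2.2 : ZMod q) * ((A : ZMod q) ^ (t B').1)⁻¹ := hBB
        have h2 : (A : ZMod q) ≠ 0 := hAl B hB
        have h3 : (A : ZMod q) ^ (t B).1 ≠ 0 := pow_ne_zero _ h2
        have h4 : (A : ZMod q) ^ (t B').1 ≠ 0 := pow_ne_zero _ h2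
        rw [← ZMod.natCast_eq_natCast_iff]
        push_cast
        field_simp at h1
        rw [h1]
        ring
      obtain ⟨e1, e2⟩ := unique_pq hκ0 hκ1 hq hqκ hp rfl hq2 hG hG' hS hS' hroot
      have e3 := hS.eq
      rw [e1, e2, hS'.eq] at e3
      have e4 := congrArg Int.natAbs e3
      rw [natAbs_T hσ, natAbs_T hσ] at e4
      exact (eq_of_pow_eq hD'.B0 hD.B0 hD'.y0 hD.y0 hD'.np hD.np e4).symm
  exact key.trans (Pool.Agent.H374R2.Fc.roots_le hp hq0 _)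

end Pool.Agent.Y353.PS
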